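import Pool.Agent.Lib.MP_0c1c75_co.KG.Spec

set_option autoImplicit false

namespace Pool.Agent.Lib.MP_0c1c75_co.KG

/-- The polynomial `X_i X_j ∂_i ∂_j F` of a supermodular polynomial is nonnegative on the cube and
has no constant term. -/
private theorem pos0_mixed {N : ℕ} (F : MvPolynomial (Fin N) ℝ) (hF : SM F) (i j : Fin N)
    (hij : i ≠ j) : Pos0 (MvPolynomial.X i * MvPolynomial.X j *
      MvPolynomial.pderiv i (MvPolynomial.pderiv j F)) := by
  constructor
  · rw [← MvPolynomial.constantCoeff_eq]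
    simp
  · intro z hz
    simp only [map_mul, MvPolynomial.eval_X]
    exact mul_nonneg (mul_nonneg (hz i).1 (hz j).1) (hF.2 i j hij z hz)

/-- Normal form and contraction give the polynomial inequality. -/
theorem coreStmt (hdiff : DiffStmt) (hkpt : KPTStmt) : CoreStmt := by
  intro d N p q hc hNF F hF
  have h := hdiff d N (DD p) (DD q) (fun i => by simp [DD]) (fun i => by simp [DD]) F hF.1
  have hpi : 0 ≤ Real.pi ^ ((d : ℝ) / 2) := Real.rpow_nonneg Real.pi_pos.le _
  have hsum : 0 ≤ ∑ i, ∑ j, (DD p i j - DD q i j) *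
      LL (1 + (d : ℝ) / 2) (DD p) (DD q) (MvPolynomial.X i * MvPolynomial.X j *
        MvPolynomial.pderiv i (MvPolynomial.pderiv j F)) := by
    refine Finset.sum_nonneg fun i _ => Finset.sum_nonneg fun j _ => ?_
    by_cases hij : i = j
    · subst hij
      simp [DD]
    · have h1 : 0 ≤ DD p i j - DD q i j := by
        have h2 := hc i j
        rw [dist_eq_norm, dist_eq_norm] at h2
        have h3 : ‖q i - q j‖ ^ 2 ≤ ‖p i - p j‖ ^ 2 :=
          pow_le_pow_left₀ (norm_nonneg _) h2 2
        unfold DD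
        linarith
      have h4 := hkpt (d + 3) N (DD p) (DD q) hNF _ (pos0_mixed F hF i j hij)
      have h5 : (((d + 3 : ℕ) : ℝ) - 1) / 2 = 1 + (d : ℝ) / 2 := by
        push_cast
        ring
      rw [h5] at h4
      exact mul_nonneg h1 h4
  have h6 : 0 ≤ val d (DD q) F - val d (DD p) F := by
    rw [h]
    exact mul_nonneg hpi (mul_nonneg (by norm_num) hsum)
  linarith

end Pool.Agent.Lib.MP_0c1c75_co.KG
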