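import Pool.Agent.Lib.MP_0c1c75_co.KG.Spec

/-!
# Divided difference identity
-/

set_option autoImplicit false

open Set

namespace Pool.Agent.Lib.MP_0c1c75_co.KG

private lemma r_pos_ddi {m : ℕ} (M : Modes m) (k : Fin m) {a : ℝ} (ha : a ∈ Ioo (0 : ℝ) 1) :
    0 < M.r k a := by
  have h1 := M.hμ k
  have h2 := M.hν k
  have h3 := M.hs k
  obtain ⟨ha0, ha1⟩ := ha
  unfold Modes.r
  have h4 : 0 ≤ (1 - a) * M.μ k := mul_nonneg (by linarith) h1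
  have h5 : 0 ≤ a * M.ν k := mul_nonneg ha0.le h2
  rcases lt_or_eq_of_le h2 with h | h
  · have : 0 < a * M.ν k := mul_pos ha0 h
    linarith
  · have h6 : M.μ k = 1 := by linarith
    have : 0 < (1 - a) * M.μ k := by
      rw [h6, mul_one]; linarith
    linarith

private lemma ddi_aux (y b μ ν a1 a2 a R1 R2 R3 : ℝ) (h1 : R1 ≠ 0) (h2 : R2 ≠ 0) (h3 : R3 ≠ 0)
    (e1 : R1 = (1 - a1) * μ + a1 * ν) (e2 : R2 = (1 - a2) * μ + a2 * ν)
    (e3 : R3 = (1 - a) * μ + a * ν) :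
    (a2 - a) * ((y - a1 * b) ^ 2 / R1) + (a - a1) * ((y - a2 * b) ^ 2 / R2) -
      (a2 - a1) * ((y - a * b) ^ 2 / R3) =
    (a2 - a1) * ((a - a1) * (a2 - a) * ((y * (ν - μ) + b * μ) ^ 2 / (R1 * R2 * R3))) := by
  have h : (a2 - a) * ((y - a1 * b) ^ 2 * (R2 * R3)) + (a - a1) * ((y - a2 * b) ^ 2 * (R1 * R3)) -
      (a2 - a1) * ((y - a * b) ^ 2 * (R1 * R2)) =
    (a2 - a1) * ((a - a1) * (a2 - a) * (y * (ν - μ) + b * μ) ^ 2) := by
    rw [e1, e2, e3]; ring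
  have hR : R1 * R2 * R3 ≠ 0 := mul_ne_zero (mul_ne_zero h1 h2) h3
  have k1 : (y - a1 * b) ^ 2 / R1 = (y - a1 * b) ^ 2 * (R2 * R3) / (R1 * R2 * R3) := by
    rw [div_eq_div_iff h1 hR]; ring
  have k2 : (y - a2 * b) ^ 2 / R2 = (y - a2 * b) ^ 2 * (R1 * R3) / (R1 * R2 * R3) := by
    rw [div_eq_div_iff h2 hR]; ring
  have k3 : (y - a * b) ^ 2 / R3 = (y - a * b) ^ 2 * (R1 * R2) / (R1 * R2 * R3) := by
    rw [div_eq_div_iff h3 hR]; ring
  rw [k1, k2, k3]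
  have k4 : (a2 - a) * ((y - a1 * b) ^ 2 * (R2 * R3) / (R1 * R2 * R3)) +
      (a - a1) * ((y - a2 * b) ^ 2 * (R1 * R3) / (R1 * R2 * R3)) -
      (a2 - a1) * ((y - a * b) ^ 2 * (R1 * R2) / (R1 * R2 * R3)) =
      ((a2 - a) * ((y - a1 * b) ^ 2 * (R2 * R3)) + (a - a1) * ((y - a2 * b) ^ 2 * (R1 * R3)) -
      (a2 - a1) * ((y - a * b) ^ 2 * (R1 * R2))) / (R1 * R2 * R3) := by ring
  rw [k4, h]; ring

/-- the divided difference identity -/
theorem ddiStmt : DdiStmt := by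
  intro m M b Y c a1 ha1 a2 ha2 a ha hne h h1 h2
  have hne' : a2 - a1 ≠ 0 := sub_ne_zero.mpr (Ne.symm hne)
  have hk : ∀ k, (a2 - a) * ((Y k - a1 * b k) ^ 2 / M.r k a1) +
      (a - a1) * ((Y k - a2 * b k) ^ 2 / M.r k a2) -
      (a2 - a1) * ((Y k - a * b k) ^ 2 / M.r k a) =
      (a2 - a1) * ((a - a1) * (a2 - a) * (M.res b Y k / (M.r k a1 * M.r k a2 * M.r k a))) := by
    intro k
    exact ddi_aux (Y k) (b k) (M.μ k) (M.ν k) a1 a2 a _ _ _ (r_pos_ddi M k ha1).ne'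
      (r_pos_ddi M k ha2).ne' (r_pos_ddi M k ha).ne' rfl rfl rfl
  have hsum := Finset.sum_congr (rfl : (Finset.univ : Finset (Fin m)) = Finset.univ)
    (fun k _ => hk k)
  rw [Finset.sum_sub_distrib, Finset.sum_add_distrib, ← Finset.mul_sum, ← Finset.mul_sum,
    ← Finset.mul_sum, ← Finset.mul_sum, ← Finset.mul_sum] at hsum
  have e1 : ∑ k, (Y k - a1 * b k) ^ 2 / M.r k a1 = h + c * a1 := by
    rw [← h1]; unfold Modes.psi; ring
  have e2 : ∑ k, (Y k - a2 * b k) ^ 2 / M.r k a2 = h + c * a2 := by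
    rw [← h2]; unfold Modes.psi; ring
  have e3 : ∑ k, (Y k - a * b k) ^ 2 / M.r k a = M.psi b c Y a + c * a := by
    unfold Modes.psi; ring
  rw [e1, e2, e3] at hsum
  have e4 : (a2 - a1) * (h - M.psi b c Y a) =
      (a2 - a1) * ((a - a1) * (a2 - a) * M.EE b Y a1 a2 a) := by
    unfold Modes.EE
    rw [← hsum]; ring
  exact mul_left_cancel₀ hne' e4

end Pool.Agent.Lib.MP_0c1c75_co.KG
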