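import Pool.Agent.Lib.MP_0c1c75_co.KG.Spec

/-!
MP_0c1c75_co, KG/Diff: the difference of the values of a polynomial.
-/

set_option autoImplicit false

open MeasureTheory Set Filter Topology

namespace Pool.Agent.Lib.MP_0c1c75_co.KG

namespace DiffAux

variable {N : ℕ}

private lemma nn_pos {l : Fin N →₀ ℕ} (hl : l ≠ 0) : 0 < nn l := by
  unfold nn
  obtain ⟨i, hi⟩ : ∃ i, l i ≠ 0 := by
    by_contra h
    push Not at h
    exact hl (Finsupp.ext h)
  refine Finset.sum_pos' (fun i _ => Nat.cast_nonneg _) ⟨i, Finset.mem_univ i, ?_⟩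
  exact_mod_cast Nat.pos_of_ne_zero hi

/-- the coefficients of the mixed derivative -/
private lemma coeff_mixed (F : MvPolynomial (Fin N) ℝ) {i j : Fin N} (hij : i ≠ j)
    (l : Fin N →₀ ℕ) :
    (MvPolynomial.X i * MvPolynomial.X j *
        MvPolynomial.pderiv i (MvPolynomial.pderiv j F)).coeff l = l i * l j * F.coeff l := by
  classical
  rw [mul_assoc, MvPolynomial.coeff_X_mul']
  by_cases h1 : i ∈ l.support
  · rw [if_pos h1, MvPolynomial.coeff_X_mul']
    have h1' : 1 ≤ l i := Nat.one_le_iff_ne_zero.2 (Finsupp.mem_support_iff.1 h1)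
    have h3 : (l - Finsupp.single i 1 : Fin N →₀ ℕ) j = l j := by
      rw [Finsupp.tsub_apply, Finsupp.single_apply, if_neg hij, Nat.sub_zero]
    by_cases h2 : j ∈ (l - Finsupp.single i 1).support
    · rw [if_pos h2, MvPolynomial.coeff_pderiv, MvPolynomial.coeff_pderiv]
      have h2' : 1 ≤ l j := by
        rw [Finsupp.mem_support_iff, h3] at h2
        exact Nat.one_le_iff_ne_zero.2 h2
      have e1 : l - Finsupp.single i 1 - Finsupp.single j 1 + Finsupp.single i 1 +
          Finsupp.single j 1 = l := by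
        ext k
        simp only [Finsupp.add_apply, Finsupp.tsub_apply, Finsupp.single_apply]
        by_cases hk1 : i = k
        · subst hk1
          rw [if_pos rfl, if_neg (Ne.symm hij)]
          omega
        · by_cases hk2 : j = k
          · subst hk2
            rw [if_pos rfl, if_neg hk1]
            omega
          · rw [if_neg hk1, if_neg hk2]
            omega
      have e2 : (l - Finsupp.single i 1 - Finsupp.single j 1 + Finsupp.single i 1 : Fin N →₀ ℕ) j + 1 =
          l j := by
        simp only [Finsupp.add_apply, Finsupp.tsub_apply, Finsupp.single_apply, if_true,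
          if_neg hij]
        omega
      have e3 : (l - Finsupp.single i 1 - Finsupp.single j 1 : Fin N →₀ ℕ) i + 1 = l i := by
        simp only [Finsupp.tsub_apply, Finsupp.single_apply, if_true, if_neg (Ne.symm hij)]
        omega
      have e2' : (((l - Finsupp.single i 1 - Finsupp.single j 1 + Finsupp.single i 1 :
          Fin N →₀ ℕ) j : ℕ) : ℝ) + 1 = l j := by exact_mod_cast e2
      have e3' : (((l - Finsupp.single i 1 - Finsupp.single j 1 : Fin N →₀ ℕ) i : ℕ) : ℝ) + 1 =
          l i := by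
        exact_mod_cast e3
      rw [e1, e2', e3']
      ring
    · rw [if_neg h2]
      rw [Finsupp.mem_support_iff, h3, not_not] at h2
      rw [h2]
      simp
  · rw [if_neg h1]
    rw [Finsupp.mem_support_iff, not_not] at h1
    rw [h1]
    simp

private lemma LL_mixed (κ : ℝ) (D D' : Fin N → Fin N → ℝ) (F : MvPolynomial (Fin N) ℝ)
    {i j : Fin N} (hij : i ≠ j) :
    LL κ D D' (MvPolynomial.X i * MvPolynomial.X j *
        MvPolynomial.pderiv i (MvPolynomial.pderiv j F)) =
      ∑ l ∈ F.support, (l i * l j * F.coeff l) * mw κ D D' l := by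
  unfold LL
  rw [Finset.sum_congr rfl fun l _ => by rw [coeff_mixed F hij l]]
  refine Finset.sum_subset ?_ ?_
  · intro l hl
    rw [MvPolynomial.mem_support_iff, coeff_mixed F hij l] at hl
    rw [MvPolynomial.mem_support_iff]
    exact right_ne_zero_of_mul hl
  · intro l _ hl
    rw [MvPolynomial.mem_support_iff, not_not, coeff_mixed F hij l] at hl
    rw [hl, zero_mul]

/-- the integral -/
private lemma int_exp (A B n : ℝ) :
    (A - B) / n * ∫ a in (0 : ℝ)..1, Real.exp (-((1 - a) * A + a * B) / n) =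
      Real.exp (-B / n) - Real.exp (-A / n) := by
  rw [← intervalIntegral.integral_const_mul]
  have h1 : ∀ a ∈ uIcc (0 : ℝ) 1, HasDerivAt (fun a => Real.exp (-((1 - a) * A + a * B) / n))
      ((A - B) / n * Real.exp (-((1 - a) * A + a * B) / n)) a := by
    intro a _
    have h2 : HasDerivAt (fun a : ℝ => -((1 - a) * A + a * B) / n) ((A - B) / n) a := by
      have h3 : HasDerivAt (fun a : ℝ => (1 - a) * A + a * B) (-1 * A + 1 * B) a :=
        (((hasDerivAt_id a).const_sub 1).mul_const A).add ((hasDerivAt_id a).mul_const B)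
      have h4 := (h3.neg).div_const n
      have h5 : -(-1 * A + 1 * B) / n = (A - B) / n := by ring
      rw [h5] at h4
      exact h4
    have h6 := h2.exp
    rw [mul_comm] at h6
    exact h6
  rw [intervalIntegral.integral_eq_sub_of_hasDerivAt h1]
  · have e1 : -((1 - 1) * A + 1 * B) / n = -B / n := by ring
    have e2 : -((1 - 0) * A + 0 * B) / n = -A / n := by ring
    rw [e1, e2]
  · refine Continuous.intervalIntegrable ?_ _ _
    fun_prop

/-- the case of a monomial -/
private lemma mono (d : ℕ) (D D' : Fin N → Fin N → ℝ) {l : Fin N →₀ ℕ} (hl : l ≠ 0) :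
    gv d D' l - gv d D l = Real.pi ^ ((d : ℝ) / 2) * ((1 / 2) * ∑ i, ∑ j, (D i j - D' i j) *
      ((l i * l j : ℝ) * mw (1 + (d : ℝ) / 2) D D' l)) := by
  have hn := nn_pos hl
  have h1 : (1 / 2) * ∑ i, ∑ j, (D i j - D' i j) * ((l i * l j : ℝ) *
      mw (1 + (d : ℝ) / 2) D D' l) = (qq D l - qq D' l) * mw (1 + (d : ℝ) / 2) D D' l := by
    unfold qq
    have h2 : ∀ i j, (D i j - D' i j) * ((l i * l j : ℝ) * mw (1 + (d : ℝ) / 2) D D' l) =
        ((l i : ℝ) * l j * D i j) * mw (1 + (d : ℝ) / 2) D D' l -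
          ((l i : ℝ) * l j * D' i j) * mw (1 + (d : ℝ) / 2) D D' l := fun i j => by ring
    simp only [h2, Finset.sum_sub_distrib, ← Finset.sum_mul]
    ring
  rw [h1]
  have h3 := int_exp (qq D l) (qq D' l) (nn l)
  have h4 : nn l ^ (-(1 + (d : ℝ) / 2)) = nn l ^ (-((d : ℝ) / 2)) / nn l := by
    have h5 : -(1 + (d : ℝ) / 2) = -((d : ℝ) / 2) - 1 := by ring
    rw [h5, Real.rpow_sub_one hn.ne']
  have h6 : (Real.pi / nn l) ^ ((d : ℝ) / 2) =
      Real.pi ^ ((d : ℝ) / 2) * nn l ^ (-((d : ℝ) / 2)) := by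
    rw [Real.div_rpow Real.pi_pos.le hn.le, Real.rpow_neg hn.le, div_eq_mul_inv]
  unfold gv mw
  rw [h4, h6, ← mul_sub, ← h3]
  ring

end DiffAux

open DiffAux in
theorem diffStmt : DiffStmt := by
  intro d N D D' hD hD' F hF
  have h1 : ∀ i j, (D i j - D' i j) * LL (1 + (d : ℝ) / 2) D D' (MvPolynomial.X i *
      MvPolynomial.X j * MvPolynomial.pderiv i (MvPolynomial.pderiv j F)) =
      ∑ l ∈ F.support, F.coeff l * ((D i j - D' i j) * ((l i * l j : ℝ) *
        mw (1 + (d : ℝ) / 2) D D' l)) := by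
    intro i j
    by_cases hij : i = j
    · subst hij
      rw [hD, hD', sub_zero, zero_mul]
      simp
    · rw [LL_mixed _ D D' F hij, Finset.mul_sum]
      exact Finset.sum_congr rfl fun l _ => by ring
  simp only [h1]
  have h2 : ∑ i, ∑ j, ∑ l ∈ F.support, F.coeff l * ((D i j - D' i j) * ((l i * l j : ℝ) *
        mw (1 + (d : ℝ) / 2) D D' l)) = ∑ l ∈ F.support, F.coeff l *
      ∑ i, ∑ j, (D i j - D' i j) * ((l i * l j : ℝ) * mw (1 + (d : ℝ) / 2) D D' l) := by
    simp only [Finset.mul_sum]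
    rw [Finset.sum_congr rfl fun i _ => Finset.sum_comm]
    exact Finset.sum_comm
  rw [h2]
  unfold val
  rw [← Finset.sum_sub_distrib, Finset.mul_sum, Finset.mul_sum]
  refine Finset.sum_congr rfl fun l hl => ?_
  have hl0 : l ≠ 0 := by
    rintro rfl
    exact (MvPolynomial.mem_support_iff.1 hl) hF
  rw [← mul_sub, mono d D D' hl0]
  ring

end Pool.Agent.Lib.MP_0c1c75_co.KG
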