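import Pool.Agent.Lib.MP_0c1c75_co.KG.Spec

/-!
# Convexity of `H = W E^{-3/2}`
-/

set_option autoImplicit false

open Set Filter Topology

namespace Pool.Agent.Lib.MP_0c1c75_co.KG

namespace HconvAux

variable {m : ℕ} (M : Modes m)

private lemma r_pos (k : Fin m) {a : ℝ} (ha : a ∈ Ioo (0 : ℝ) 1) : 0 < M.r k a := by
  have h1 := M.hμ k
  have h2 := M.hν k
  have h3 := M.hs k
  obtain ⟨ha0, ha1⟩ := ha
  unfold Modes.r
  have h4 : 0 ≤ (1 - a) * M.μ k := mul_nonneg (by linarith) h1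
  have h5 : 0 ≤ a * M.ν k := mul_nonneg ha0.le h2
  rcases lt_or_eq_of_le h2 with h | h
  · have : 0 < a * M.ν k := mul_pos ha0 h
    linarith
  · have h6 : M.μ k = 1 := by linarith
    have : 0 < (1 - a) * M.μ k := by
      rw [h6, mul_one]; linarith
    linarith

private lemma r_der (k : Fin m) (a : ℝ) : HasDerivAt (M.r k) (M.δ k) a := by
  have h : HasDerivAt (fun x : ℝ => (1 - x) * M.μ k + x * M.ν k)
      ((0 - 1) * M.μ k + 1 * M.ν k) a :=
    (((hasDerivAt_const a (1 : ℝ)).sub (hasDerivAt_id a)).mul_const (M.μ k)).add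
      ((hasDerivAt_id a).mul_const (M.ν k))
  have e : (0 - 1) * M.μ k + 1 * M.ν k = M.δ k := by unfold Modes.δ; ring
  rw [e] at h
  exact h

/-- `E` with weights -/
private noncomputable def eE (e : Fin m → ℝ) (a : ℝ) : ℝ := ∑ k, e k / M.r k a

private noncomputable def eP (e : Fin m → ℝ) (a : ℝ) : ℝ := ∑ k, e k * M.δ k / M.r k a ^ 2

private noncomputable def eQ (e : Fin m → ℝ) (a : ℝ) : ℝ := ∑ k, e k * M.δ k ^ 2 / M.r k a ^ 3

private noncomputable def sL (a : ℝ) : ℝ := ∑ k, Real.log (M.r k a)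

private noncomputable def sA (a : ℝ) : ℝ := ∑ k, M.δ k / M.r k a

private noncomputable def sB (a : ℝ) : ℝ := ∑ k, (M.δ k / M.r k a) ^ 2

private lemma der_eE (e : Fin m → ℝ) {a : ℝ} (ha : a ∈ Ioo (0 : ℝ) 1) :
    HasDerivAt (eE M e) (-eP M e a) a := by
  have h : HasDerivAt (fun x => ∑ k, e k / M.r k x)
      (∑ k, -(e k * M.δ k / M.r k a ^ 2)) a := by
    refine HasDerivAt.fun_sum fun k _ => ?_
    have hr := (r_pos M k ha).ne'
    have h1 := (hasDerivAt_const a (e k)).fun_div (r_der M k a) hr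
    refine h1.congr_deriv ?_
    ring
  rw [Finset.sum_neg_distrib] at h
  exact h

private lemma der_eP (e : Fin m → ℝ) {a : ℝ} (ha : a ∈ Ioo (0 : ℝ) 1) :
    HasDerivAt (eP M e) (-(2 * eQ M e a)) a := by
  have h : HasDerivAt (fun x => ∑ k, e k * M.δ k / M.r k x ^ 2)
      (∑ k, -(2 * (e k * M.δ k ^ 2 / M.r k a ^ 3))) a := by
    refine HasDerivAt.fun_sum fun k _ => ?_
    have hr := (r_pos M k ha).ne'
    have h1 := (hasDerivAt_const a (e k * M.δ k)).fun_div ((r_der M k a).fun_pow 2)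
      (pow_ne_zero 2 hr)
    refine h1.congr_deriv ?_
    field_simp
    ring
  rw [Finset.sum_neg_distrib, ← Finset.mul_sum] at h
  exact h

private lemma der_sL {a : ℝ} (ha : a ∈ Ioo (0 : ℝ) 1) : HasDerivAt (sL M) (sA M a) a := by
  have h : HasDerivAt (fun x => ∑ k, Real.log (M.r k x)) (∑ k, M.δ k / M.r k a) a :=
    HasDerivAt.fun_sum fun k _ => (r_der M k a).log (r_pos M k ha).ne'
  exact h

private lemma der_sA {a : ℝ} (ha : a ∈ Ioo (0 : ℝ) 1) : HasDerivAt (sA M) (-sB M a) a := by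
  have h : HasDerivAt (fun x => ∑ k, M.δ k / M.r k x) (∑ k, -((M.δ k / M.r k a) ^ 2)) a := by
    refine HasDerivAt.fun_sum fun k _ => ?_
    have hr := (r_pos M k ha).ne'
    have h1 := (hasDerivAt_const a (M.δ k)).fun_div (r_der M k a) hr
    refine h1.congr_deriv ?_
    field_simp
    ring
  rw [Finset.sum_neg_distrib] at h
  exact h

private lemma cont_r (k : Fin m) : Continuous (M.r k) := by
  unfold Modes.r; fun_prop

private lemma cont_eQ (e : Fin m → ℝ) : ContinuousOn (eQ M e) (Ioo 0 1) := by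
  unfold eQ
  refine continuousOn_finsetSum _ fun k _ => ?_
  exact continuousOn_const.div ((cont_r M k).continuousOn.pow 3)
    fun a ha => pow_ne_zero 3 (r_pos M k ha).ne'

private lemma cont_sB : ContinuousOn (sB M) (Ioo 0 1) := by
  unfold sB
  refine continuousOn_finsetSum _ fun k _ => ?_
  exact (continuousOn_const.div (cont_r M k).continuousOn
    fun a ha => (r_pos M k ha).ne').pow 2

/-- the bound for `Q` -/
private lemma eQ_le (e : Fin m → ℝ) (he : ∀ k, 0 ≤ e k) {a : ℝ} (ha : a ∈ Ioo (0 : ℝ) 1) :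
    eQ M e a ≤ (1 / a - 1 / (1 - a)) * eP M e a + 1 / a * (1 / (1 - a)) * eE M e a := by
  unfold eQ eP eE
  rw [Finset.mul_sum, Finset.mul_sum, ← Finset.sum_add_distrib]
  refine Finset.sum_le_sum fun k _ => ?_
  have hr := r_pos M k ha
  obtain ⟨ha0, ha1⟩ := ha
  have ha1' : 0 < 1 - a := by linarith
  have h1 : M.r k a + M.δ k * (0 - a) = M.μ k := by unfold Modes.r Modes.δ; ring
  have h2 : M.r k a + M.δ k * (1 - a) = M.ν k := by unfold Modes.r Modes.δ; ring
  have h3 : 0 ≤ M.r k a - M.δ k * a := by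
    have := M.hμ k
    rw [← h1] at this; linarith
  have h4 : 0 ≤ M.r k a + M.δ k * (1 - a) := by
    rw [h2]; exact M.hν k
  have h5 : 0 ≤ (M.r k a - M.δ k * a) * (M.r k a + M.δ k * (1 - a)) := mul_nonneg h3 h4
  have h6 : (1 / a - 1 / (1 - a)) * (e k * M.δ k / M.r k a ^ 2) +
      1 / a * (1 / (1 - a)) * (e k / M.r k a) - e k * M.δ k ^ 2 / M.r k a ^ 3 =
      e k * ((M.r k a - M.δ k * a) * (M.r k a + M.δ k * (1 - a))) /
        (a * (1 - a) * M.r k a ^ 3) := by
    field_simp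
    ring
  have h7 : 0 ≤ e k * ((M.r k a - M.δ k * a) * (M.r k a + M.δ k * (1 - a))) /
        (a * (1 - a) * M.r k a ^ 3) := by
    have := he k
    positivity
  rw [← h6] at h7
  linarith

/-- the lower bound for `∑ g²` -/
private lemma sB_ge {a : ℝ} (ha : a ∈ Ioo (0 : ℝ) 1) :
    3 * (1 / a) ^ 2 + 3 * (1 / (1 - a)) ^ 2 ≤ sB M a := by
  classical
  obtain ⟨ha0, ha1⟩ := ha
  have ha1' : 0 < 1 - a := by linarith
  have hd : Disjoint (Finset.univ.filter (fun k => M.μ k = 0))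
      (Finset.univ.filter (fun k => M.ν k = 0)) := by
    rw [Finset.disjoint_left]
    intro k hk1 hk2
    rw [Finset.mem_filter] at hk1 hk2
    have := M.hs k
    rw [hk1.2, hk2.2] at this
    norm_num at this
  have h1 : ∑ k ∈ Finset.univ.filter (fun k => M.μ k = 0), (M.δ k / M.r k a) ^ 2 =
      ((Finset.univ.filter (fun k => M.μ k = 0)).card : ℝ) * (1 / a) ^ 2 := by
    rw [Finset.sum_congr rfl (g := fun _ => (1 / a) ^ 2), Finset.sum_const, nsmul_eq_mul]
    intro k hk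
    rw [Finset.mem_filter] at hk
    have h2 : M.ν k = 1 := by have := M.hs k; rw [hk.2] at this; linarith
    unfold Modes.δ Modes.r
    rw [hk.2, h2]; simp
  have h2 : ∑ k ∈ Finset.univ.filter (fun k => M.ν k = 0), (M.δ k / M.r k a) ^ 2 =
      ((Finset.univ.filter (fun k => M.ν k = 0)).card : ℝ) * (1 / (1 - a)) ^ 2 := by
    rw [Finset.sum_congr rfl (g := fun _ => (1 / (1 - a)) ^ 2), Finset.sum_const, nsmul_eq_mul]
    intro k hk
    rw [Finset.mem_filter] at hk
    have h2 : M.μ k = 1 := by have := M.hs k; rw [hk.2] at this; linarith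
    unfold Modes.δ Modes.r
    rw [hk.2, h2]
    simp only [zero_sub, mul_one, mul_zero, add_zero, div_pow, neg_sq, one_pow]
  have h3 : ∑ k ∈ Finset.univ.filter (fun k => M.μ k = 0) ∪
      Finset.univ.filter (fun k => M.ν k = 0), (M.δ k / M.r k a) ^ 2 ≤ sB M a := by
    unfold sB
    exact Finset.sum_le_sum_of_subset_of_nonneg (Finset.subset_univ _) fun k _ _ => sq_nonneg _
  rw [Finset.sum_union hd, h1, h2] at h3
  have h4 : (3 : ℝ) ≤ ((Finset.univ.filter (fun k => M.μ k = 0)).card : ℝ) := by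
    exact_mod_cast M.hμ3
  have h5 : (3 : ℝ) ≤ ((Finset.univ.filter (fun k => M.ν k = 0)).card : ℝ) := by
    exact_mod_cast M.hν3
  have h6 := mul_le_mul_of_nonneg_right h4 (sq_nonneg (1 / a))
  have h7 := mul_le_mul_of_nonneg_right h5 (sq_nonneg (1 / (1 - a)))
  linarith

private lemma sign_aux (E P Q u v : ℝ) (hE : 0 < E) (hQ : Q ≤ (u - v) * P + u * v * E) :
    (P ^ 2 - 2 * (Q * E)) / E ^ 2 + (u ^ 2 + v ^ 2) ≥ 0 := by
  have h1 : 0 ≤ (P ^ 2 - 2 * (Q * E)) + (u ^ 2 + v ^ 2) * E ^ 2 := by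
    have h2 := mul_le_mul_of_nonneg_right hQ hE.le
    nlinarith [sq_nonneg (P - (u - v) * E)]
  have h3 : (P ^ 2 - 2 * (Q * E)) / E ^ 2 + (u ^ 2 + v ^ 2) =
      ((P ^ 2 - 2 * (Q * E)) + (u ^ 2 + v ^ 2) * E ^ 2) / E ^ 2 := by
    field_simp
  rw [h3]
  positivity

/-- logarithm of `H` and its derivatives -/
private noncomputable def lf (e : Fin m → ℝ) (a : ℝ) : ℝ :=
  -(1 / 2) * sL M a - 3 / 2 * Real.log (eE M e a)

private noncomputable def lf1 (e : Fin m → ℝ) (a : ℝ) : ℝ :=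
  -(1 / 2) * sA M a + 3 / 2 * (eP M e a / eE M e a)

private noncomputable def lf2 (e : Fin m → ℝ) (a : ℝ) : ℝ :=
  1 / 2 * sB M a + 3 / 2 * ((eP M e a ^ 2 - 2 * (eQ M e a * eE M e a)) / eE M e a ^ 2)

private lemma der_lf (e : Fin m → ℝ) {a : ℝ} (ha : a ∈ Ioo (0 : ℝ) 1) (hE : 0 < eE M e a) :
    HasDerivAt (lf M e) (lf1 M e a) a := by
  have h := ((der_sL M ha).const_mul (-(1 / 2) : ℝ)).fun_sub
    (((der_eE M e ha).log hE.ne').const_mul (3 / 2 : ℝ))
  refine h.congr_deriv ?_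
  unfold lf1
  ring

private lemma der_lf1 (e : Fin m → ℝ) {a : ℝ} (ha : a ∈ Ioo (0 : ℝ) 1) (hE : 0 < eE M e a) :
    HasDerivAt (lf1 M e) (lf2 M e a) a := by
  have h := ((der_sA M ha).const_mul (-(1 / 2) : ℝ)).fun_add
    ((((der_eP M e ha).fun_div (der_eE M e ha) hE.ne')).const_mul (3 / 2 : ℝ))
  refine h.congr_deriv ?_
  unfold lf2
  ring

private lemma lf2_nonneg (e : Fin m → ℝ) (he : ∀ k, 0 ≤ e k) {a : ℝ} (ha : a ∈ Ioo (0 : ℝ) 1)
    (hE : 0 < eE M e a) : 0 ≤ lf2 M e a := by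
  have h1 := sign_aux (eE M e a) (eP M e a) (eQ M e a) (1 / a) (1 / (1 - a)) hE
    (eQ_le M e he ha)
  have h2 := sB_ge M ha
  unfold lf2
  linarith

private lemma cont_lf2 (e : Fin m → ℝ) (hE : ∀ a ∈ Ioo (0 : ℝ) 1, 0 < eE M e a) :
    ContinuousOn (lf2 M e) (Ioo 0 1) := by
  have c1 : ContinuousOn (eE M e) (Ioo 0 1) :=
    fun a ha => (der_eE M e ha).continuousAt.continuousWithinAt
  have c2 : ContinuousOn (eP M e) (Ioo 0 1) :=
    fun a ha => (der_eP M e ha).continuousAt.continuousWithinAt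
  unfold lf2
  refine (continuousOn_const.mul (cont_sB M)).add (continuousOn_const.mul
    (((c2.pow 2).sub (continuousOn_const.mul ((cont_eQ M e).mul c1))).div (c1.pow 2) ?_))
  intro a ha
  exact pow_ne_zero 2 (hE a ha).ne'

private lemma W_eq {a : ℝ} (ha : a ∈ Ioo (0 : ℝ) 1) :
    M.W a = Real.exp (-(1 / 2) * sL M a) := by
  unfold Modes.W sL
  rw [Finset.mul_sum, Real.exp_sum]
  refine Finset.prod_congr rfl fun k _ => ?_
  rw [Real.rpow_def_of_pos (r_pos M k ha), mul_comm]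

end HconvAux

open HconvAux

/-- convexity of `H` -/
theorem hconvStmt : HconvStmt := by
  intro m M b Y hG a1 ha1 a2 ha2
  obtain ⟨e, he⟩ : ∃ e : Fin m → ℝ, e = fun k => M.res b Y k / (M.r k a1 * M.r k a2) := ⟨_, rfl⟩
  have hres : ∀ k, 0 ≤ M.res b Y k := fun k => by unfold Modes.res; positivity
  have he0 : ∀ k, 0 ≤ e k := by
    intro k
    rw [he]
    exact div_nonneg (hres k) (mul_pos (r_pos M k ha1) (r_pos M k ha2)).le
  have hEE : ∀ a, M.EE b Y a1 a2 a = eE M e a := by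
    intro a
    unfold Modes.EE eE
    refine Finset.sum_congr rfl fun k _ => ?_
    rw [he]
    exact (div_div _ _ _).symm
  have hpos : ∀ a ∈ Ioo (0 : ℝ) 1, 0 < eE M e a := by
    intro a ha
    obtain ⟨⟨k, hk1, hk2⟩, -⟩ := hG
    unfold eE
    refine Finset.sum_pos' (fun j _ => div_nonneg (he0 j) (r_pos M j ha).le)
      ⟨k, Finset.mem_univ k, ?_⟩
    have h1 : M.ν k = 1 := by have := M.hs k; rw [hk1] at this; linarith
    have h2 : M.res b Y k = Y k ^ 2 := by
      unfold Modes.res Modes.δ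
      rw [hk1, h1]; ring
    have h3 : 0 < M.res b Y k := by rw [h2]; positivity
    rw [he]
    exact div_pos (div_pos h3 (mul_pos (r_pos M k ha1) (r_pos M k ha2))) (r_pos M k ha)
  have hHH : ∀ a ∈ Ioo (0 : ℝ) 1, HH M b Y a1 a2 a = Real.exp (lf M e a) := by
    intro a ha
    unfold HH lf
    rw [hEE, W_eq M ha, Real.rpow_def_of_pos (hpos a ha), ← Real.exp_add]
    congr 1
    ring
  refine ⟨fun a ha => by rw [hEE]; exact hpos a ha,
    fun a => Real.exp (lf M e a) * lf1 M e a,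
    fun a => Real.exp (lf M e a) * lf1 M e a * lf1 M e a + Real.exp (lf M e a) * lf2 M e a,
    ?_, ?_⟩
  · have c1 : ContinuousOn (lf M e) (Ioo 0 1) :=
      fun a ha => (der_lf M e ha (hpos a ha)).continuousAt.continuousWithinAt
    have c2 : ContinuousOn (lf1 M e) (Ioo 0 1) :=
      fun a ha => (der_lf1 M e ha (hpos a ha)).continuousAt.continuousWithinAt
    have c3 := cont_lf2 M e hpos
    have c4 : ContinuousOn (fun a => Real.exp (lf M e a)) (Ioo 0 1) :=
      Real.continuous_exp.comp_continuousOn c1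
    exact ((c4.mul c2).mul c2).add (c4.mul c3)
  · intro a ha
    have d1 : HasDerivAt (fun a => Real.exp (lf M e a)) (Real.exp (lf M e a) * lf1 M e a) a :=
      (der_lf M e ha (hpos a ha)).exp
    refine ⟨?_, d1.fun_mul (der_lf1 M e ha (hpos a ha)), ?_⟩
    · refine d1.congr_of_eventuallyEq ?_
      filter_upwards [Ioo_mem_nhds ha.1 ha.2] with x hx using hHH x hx
    · have h1 := lf2_nonneg M e he0 ha (hpos a ha)
      have h2 : Real.exp (lf M e a) * lf1 M e a * lf1 M e a =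
        Real.exp (lf M e a) * (lf1 M e a) ^ 2 := by ring
      have h3 : 0 ≤ Real.exp (lf M e a) * (lf1 M e a) ^ 2 := by positivity
      have h4 : 0 ≤ Real.exp (lf M e a) * lf2 M e a := mul_nonneg (Real.exp_pos _).le h1
      show 0 ≤ Real.exp (lf M e a) * lf1 M e a * lf1 M e a + Real.exp (lf M e a) * lf2 M e a
      rw [h2]
      linarith

end Pool.Agent.Lib.MP_0c1c75_co.KG
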