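import Pool.Agent.Lib.MP_0c1c75_co.KG.Spec

/-!
# Theorem G, module KPT: positivity of the kernel
-/

set_option autoImplicit false

open MeasureTheory Set Filter Topology

namespace Pool.Agent.Lib.MP_0c1c75_co.KG

namespace KPTAux

/-- the exponential of the monomial `l` at the height `h` -/
noncomputable def ee {m N : ℕ} (M : Modes m) (ζ : Fin N → Fin m → ℝ) (Y : Fin m → ℝ)
    (l : Fin N →₀ ℕ) (h : ℝ) : ℝ :=
  Real.exp (-(nn l * h) + ∑ i, (l i : ℝ) * om M ζ Y i)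

/-- `G` -/
noncomputable def GG {m N : ℕ} (M : Modes m) (ζ : Fin N → Fin m → ℝ) (Y : Fin m → ℝ)
    (P : MvPolynomial (Fin N) ℝ) (h : ℝ) : ℝ :=
  ∑ l ∈ P.support, P.coeff l * ee M ζ Y l h

/-- the derivative of `G` -/
noncomputable def GG1 {m N : ℕ} (M : Modes m) (ζ : Fin N → Fin m → ℝ) (Y : Fin m → ℝ)
    (P : MvPolynomial (Fin N) ℝ) (h : ℝ) : ℝ :=
  ∑ l ∈ P.support, P.coeff l * (ee M ζ Y l h * -(nn l))

theorem nn_pos {N : ℕ} {l : Fin N →₀ ℕ} (hl : l ≠ 0) : 0 < nn l := by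
  obtain ⟨i, hi⟩ : ∃ i, l i ≠ 0 := by
    by_contra h
    push Not at h
    exact hl (Finsupp.ext h)
  have h1 : (0 : ℝ) < (l i : ℝ) := by
    exact_mod_cast Nat.pos_of_ne_zero hi
  have h2 : (l i : ℝ) ≤ nn l :=
    Finset.single_le_sum (f := fun i => (l i : ℝ)) (fun j _ => Nat.cast_nonneg _)
      (Finset.mem_univ i)
  linarith

theorem hasDerivAt_ee {m N : ℕ} (M : Modes m) (ζ : Fin N → Fin m → ℝ) (Y : Fin m → ℝ)
    (l : Fin N →₀ ℕ) (h : ℝ) : HasDerivAt (ee M ζ Y l) (ee M ζ Y l h * -(nn l)) h := by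
  have h1 : HasDerivAt (fun h : ℝ => -(nn l * h) + ∑ i, (l i : ℝ) * om M ζ Y i) (-(nn l)) h := by
    have h2 := (((hasDerivAt_id h).const_mul (nn l)).neg).add_const
      (∑ i, (l i : ℝ) * om M ζ Y i)
    rw [mul_one] at h2
    exact h2
  exact h1.exp

theorem hasDerivAt_GG {m N : ℕ} (M : Modes m) (ζ : Fin N → Fin m → ℝ) (Y : Fin m → ℝ)
    (P : MvPolynomial (Fin N) ℝ) (h : ℝ) : HasDerivAt (GG M ζ Y P) (GG1 M ζ Y P h) h := by
  unfold GG GG1
  exact HasDerivAt.fun_sum fun l _ => (hasDerivAt_ee M ζ Y l h).const_mul _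

theorem continuous_GG1 {m N : ℕ} (M : Modes m) (ζ : Fin N → Fin m → ℝ) (Y : Fin m → ℝ)
    (P : MvPolynomial (Fin N) ℝ) : Continuous (GG1 M ζ Y P) := by
  unfold GG1
  refine continuous_finsetSum _ fun l _ => continuous_const.mul (Continuous.mul ?_
    continuous_const)
  exact continuous_iff_continuousAt.2 fun h => (hasDerivAt_ee M ζ Y l h).continuousAt

theorem tendsto_GG {m N : ℕ} (M : Modes m) (ζ : Fin N → Fin m → ℝ) (Y : Fin m → ℝ)
    (P : MvPolynomial (Fin N) ℝ) (hP : P.coeff 0 = 0) :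
    Tendsto (GG M ζ Y P) atTop (𝓝 0) := by
  have h0 : (0 : ℝ) = ∑ l ∈ P.support, P.coeff l * 0 := by simp
  unfold GG
  rw [h0]
  refine tendsto_finsetSum _ fun l hl => Tendsto.const_mul _ ?_
  have hl0 : l ≠ 0 := by
    rintro rfl
    exact (MvPolynomial.mem_support_iff.1 hl) hP
  have hn := nn_pos hl0
  refine Real.tendsto_exp_atBot.comp ?_
  refine tendsto_atBot_add_const_right _ _ ?_
  exact tendsto_neg_atTop_atBot.comp (tendsto_id.const_mul_atTop hn)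

theorem GG_eq {m N : ℕ} (M : Modes m) (ζ : Fin N → Fin m → ℝ) (Y : Fin m → ℝ)
    (P : MvPolynomial (Fin N) ℝ) (h : ℝ) :
    GG M ζ Y P h = MvPolynomial.eval (fun i => Real.exp (-(h - om M ζ Y i))) P := by
  rw [MvPolynomial.eval_eq']
  unfold GG
  refine Finset.sum_congr rfl fun l _ => ?_
  congr 1
  have h1 : ∀ i, Real.exp (-(h - om M ζ Y i)) ^ l i =
      Real.exp ((l i : ℝ) * -(h - om M ζ Y i)) := fun i => (Real.exp_nat_mul _ _).symm
  simp only [h1]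
  rw [← Real.exp_sum]
  unfold ee nn
  congr 1
  rw [Finset.sum_mul, ← Finset.sum_neg_distrib, ← Finset.sum_add_distrib]
  refine Finset.sum_congr rfl fun i _ => ?_
  ring

theorem r_pos {m : ℕ} (M : Modes m) (k : Fin m) {a : ℝ} (ha : a ∈ Ioo (0 : ℝ) 1) :
    0 < M.r k a := by
  have h1 := M.hμ k
  have h2 := M.hν k
  have h3 := M.hs k
  obtain ⟨h4, h5⟩ := ha
  unfold Modes.r
  rcases eq_or_lt_of_le h1 with h6 | h6
  · have h7 : M.ν k = 1 := by linarith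
    rw [← h6, h7]
    linarith
  · have h7 : 0 < (1 - a) * M.μ k := mul_pos (by linarith) h6
    have h8 : 0 ≤ a * M.ν k := mul_nonneg h4.le h2
    linarith

theorem psi_sub_om {m N : ℕ} (M : Modes m) (ζ : Fin N → Fin m → ℝ) (b : Fin m → ℝ) (c : ℝ)
    (h3 : ∀ i, ∑ k, (M.μ k - M.ν k) * ζ i k ^ 2 = 2 * ∑ k, b k * ζ i k + c)
    (Y : Fin m → ℝ) {a : ℝ} (ha : a ∈ Ioo (0 : ℝ) 1) (i : Fin N) :
    M.psi b c Y a - om M ζ Y i =
      ∑ k, M.r k a * ((Y k - a * b k) / M.r k a - ζ i k) ^ 2 := by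
  have h4 : ∀ k, M.r k a * ((Y k - a * b k) / M.r k a - ζ i k) ^ 2 =
      (Y k - a * b k) ^ 2 / M.r k a - 2 * (Y k * ζ i k) + 2 * a * (b k * ζ i k) +
        M.μ k * ζ i k ^ 2 - a * ((M.μ k - M.ν k) * ζ i k ^ 2) := by
    intro k
    have h5 := (r_pos M k ha).ne'
    have h6 : M.μ k * ζ i k ^ 2 - a * ((M.μ k - M.ν k) * ζ i k ^ 2) = M.r k a * ζ i k ^ 2 := by
      unfold Modes.r
      ring
    rw [add_sub_assoc, h6]
    field_simp
    ring
  simp only [h4]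
  rw [Finset.sum_sub_distrib, Finset.sum_add_distrib, Finset.sum_add_distrib,
    Finset.sum_sub_distrib, ← Finset.mul_sum, ← Finset.mul_sum, ← Finset.mul_sum, h3 i]
  unfold Modes.psi om
  ring

theorem om_le {m N : ℕ} (M : Modes m) (ζ : Fin N → Fin m → ℝ) (b : Fin m → ℝ) (c : ℝ)
    (h3 : ∀ i, ∑ k, (M.μ k - M.ν k) * ζ i k ^ 2 = 2 * ∑ k, b k * ζ i k + c)
    (Y : Fin m → ℝ) {a : ℝ} (ha : a ∈ Ioo (0 : ℝ) 1) (i : Fin N) :
    om M ζ Y i ≤ M.psi b c Y a := by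
  have h4 := psi_sub_om M ζ b c h3 Y ha i
  have h5 : 0 ≤ ∑ k, M.r k a * ((Y k - a * b k) / M.r k a - ζ i k) ^ 2 :=
    Finset.sum_nonneg fun k _ => mul_nonneg (r_pos M k ha).le (sq_nonneg _)
  linarith

theorem ae_good {m : ℕ} (M : Modes m) (b : Fin m → ℝ) :
    ∀ᵐ Y : Fin m → ℝ, M.Good b Y := by
  obtain ⟨k, hk⟩ : (Finset.univ.filter (fun k => M.μ k = 0)).Nonempty := by
    rw [← Finset.card_pos]
    have := M.hμ3
    omega
  obtain ⟨k', hk'⟩ : (Finset.univ.filter (fun k => M.ν k = 0)).Nonempty := by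
    rw [← Finset.card_pos]
    have := M.hν3
    omega
  rw [Finset.mem_filter] at hk hk'
  have h1 : ∀ᵐ Y : Fin m → ℝ, Y k ≠ 0 := by
    rw [volume_pi]
    exact Measure.ae_eval_ne (μ := fun _ : Fin m => (volume : Measure ℝ)) k 0
  have h2 : ∀ᵐ Y : Fin m → ℝ, Y k' ≠ b k' := by
    rw [volume_pi]
    exact Measure.ae_eval_ne (μ := fun _ : Fin m => (volume : Measure ℝ)) k' (b k')
  filter_upwards [h1, h2] with Y hY1 hY2
  exact ⟨⟨k, hk.2, hY1⟩, ⟨k', hk'.2, hY2⟩⟩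

theorem kint_sum {m N : ℕ} (M : Modes m) (ζ : Fin N → Fin m → ℝ) (b : Fin m → ℝ) (c : ℝ)
    (P : MvPolynomial (Fin N) ℝ) (Y : Fin m → ℝ) (x : ℝ × ℝ) :
    M.W x.1 * GG1 M ζ Y P (M.psi b c Y x.1 + x.2 ^ 2) =
      -∑ l ∈ P.support, P.coeff l * kint M ζ b c l (Y, x) := by
  unfold GG1 kint ee
  rw [Finset.mul_sum, ← Finset.sum_neg_distrib]
  refine Finset.sum_congr rfl fun l _ => ?_
  ring

end KPTAux

open KPTAux in
theorem kptStmt (hrep : RepStmt) (hml : ML2Stmt) : KPTStmt := by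
  intro m N D D' hNF P hP
  obtain ⟨M, ζ, b, c, h1, h2, h3⟩ := hNF
  have hl0 : ∀ l ∈ P.support, l ≠ 0 := by
    intro l hl h
    rw [h] at hl
    exact (MvPolynomial.mem_support_iff.1 hl) hP.1
  have hr := fun l hl => hrep m N D D' M ζ b c h1 h2 h3 l (hl0 l hl)
  have hint : Integrable (fun x => ∑ l ∈ P.support, P.coeff l * kint M ζ b c l x)
      ((volume : Measure (Fin m → ℝ)).prod (volume.restrict strip)) :=
    integrable_finsetSum _ fun l hl => (hr l hl).1.const_mul _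
  have hLL : LL (((m : ℝ) - 1) / 2) D D' P = Real.pi ^ (-(((m : ℝ) + 1) / 2)) *
      ∫ x, ∑ l ∈ P.support, P.coeff l * kint M ζ b c l x
        ∂((volume : Measure (Fin m → ℝ)).prod (volume.restrict strip)) := by
    rw [integral_finsetSum _ fun l hl => (hr l hl).1.const_mul _, Finset.mul_sum]
    unfold LL
    refine Finset.sum_congr rfl fun l hl => ?_
    rw [(hr l hl).2, integral_const_mul]
    ring
  rw [hLL]
  refine mul_nonneg (Real.rpow_nonneg Real.pi_pos.le _) ?_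
  rw [integral_prod _ hint]
  refine integral_nonneg_of_ae ?_
  filter_upwards [ae_good M b, hint.prod_right_ae] with Y hY hI
  have hG := hml m M b Y c hY (GG M ζ Y P) (GG1 M ζ Y P) (hasDerivAt_GG M ζ Y P)
    (continuous_GG1 M ζ Y P) (by
      intro a ha h hh
      rw [GG_eq]
      refine hP.2 _ fun i => ⟨(Real.exp_pos _).le, ?_⟩
      rw [Real.exp_le_one_iff]
      have := om_le M ζ b c h3 Y ha i
      linarith) (tendsto_GG M ζ Y P hP.1) (by
      have h4 : (fun x : ℝ × ℝ => M.W x.1 * GG1 M ζ Y P (M.psi b c Y x.1 + x.2 ^ 2)) =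
          fun x => -∑ l ∈ P.support, P.coeff l * kint M ζ b c l (Y, x) :=
        funext fun x => kint_sum M ζ b c P Y x
      rw [h4]
      exact hI.neg)
  simp only [kint_sum] at hG
  rw [integral_neg] at hG
  change 0 ≤ ∫ x in strip, ∑ l ∈ P.support, P.coeff l * kint M ζ b c l (Y, x)
  linarith

end Pool.Agent.Lib.MP_0c1c75_co.KG
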