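import Pool.Agent.Lib.MP_0c1c75_co.KG.Spec

/-! Module LAYER: `∫ G' T ≤ 0` (layer cake in `T`). -/

set_option autoImplicit false

open MeasureTheory Set Filter Topology

namespace Pool.Agent.Lib.MP_0c1c75_co.KG

namespace LayerAux

/-- the superlevel sets -/
def AS (T : ℝ → ℝ) (s : ℝ) : Set ℝ := {h | s < T h}

variable {T : ℝ → ℝ} {h0 : ℝ}

theorem gt_of_mem (hT0 : ∀ h, h ≤ h0 → T h = 0) {s h : ℝ} (hs : 0 ≤ s) (hh : h ∈ AS T s) :
    h0 < h := by
  by_contra hc
  have h1 : s < T h := hh
  rw [hT0 h (not_lt.1 hc)] at h1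
  linarith

theorem up (hT0 : ∀ h, h ≤ h0 → T h = 0) (hTm : MonotoneOn T (Ioi h0)) {s h h' : ℝ} (hs : 0 ≤ s)
    (hh : h ∈ AS T s) (hle : h ≤ h') : h' ∈ AS T s := by
  have h1 := gt_of_mem hT0 hs hh
  have h2 : s < T h := hh
  have h3 := hTm (mem_Ioi.2 h1) (mem_Ioi.2 (lt_of_lt_of_le h1 hle)) hle
  exact lt_of_lt_of_le h2 h3

theorem meas_AS (hT0 : ∀ h, h ≤ h0 → T h = 0) (hTn : ∀ h, 0 ≤ T h)
    (hTm : MonotoneOn T (Ioi h0)) (s : ℝ) : MeasurableSet (AS T s) := by
  rcases lt_or_ge s 0 with hs | hs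
  · have h1 : AS T s = univ := by
      ext h
      refine ⟨fun _ => mem_univ _, fun _ => ?_⟩
      exact lt_of_lt_of_le hs (hTn h)
    rw [h1]
    exact MeasurableSet.univ
  · apply OrdConnected.measurableSet
    constructor
    intro x hx y _ z hz
    exact up hT0 hTm hs hx hz.1

theorem meas_T (hT0 : ∀ h, h ≤ h0 → T h = 0) (hTn : ∀ h, 0 ≤ T h)
    (hTm : MonotoneOn T (Ioi h0)) : Measurable T :=
  measurable_of_Ioi fun s => meas_AS hT0 hTn hTm s

theorem int_AS {G G' : ℝ → ℝ} (hG : ∀ h, HasDerivAt G (G' h) h)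
    (hGn : ∀ h, h0 ≤ h → 0 ≤ G h) (hGl : Tendsto G atTop (𝓝 0))
    (hT0 : ∀ h, h ≤ h0 → T h = 0) (hTm : MonotoneOn T (Ioi h0)) {s : ℝ} (hs : 0 < s) :
    ∫ h in AS T s, G' h ≤ 0 := by
  by_cases hint : IntegrableOn G' (AS T s)
  swap
  · rw [integral_undef hint]
  rcases (AS T s).eq_empty_or_nonempty with he | hne
  · rw [he, setIntegral_empty]
  have hbd : BddBelow (AS T s) := ⟨h0, fun h hh => (gt_of_mem hT0 hs.le hh).le⟩
  obtain ⟨c, hc⟩ : ∃ c, c = sInf (AS T s) := ⟨_, rfl⟩
  have hc0 : h0 ≤ c := by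
    rw [hc]
    exact le_csInf hne fun h hh => (gt_of_mem hT0 hs.le hh).le
  have h1 : Ioi c ⊆ AS T s := by
    intro h hh
    have hh' : sInf (AS T s) < h := by
      rw [← hc]
      exact hh
    obtain ⟨a, ha, hah⟩ := exists_lt_of_csInf_lt hne hh'
    exact up hT0 hTm hs.le ha hah.le
  have h2 : AS T s ⊆ Ici c := by
    intro h hh
    rw [mem_Ici, hc]
    exact csInf_le hbd hh
  have h3 : (AS T s : Set ℝ) =ᵐ[volume] Ioi c := by
    apply Filter.EventuallyLE.antisymm
    · exact (HasSubset.Subset.eventuallyLE h2).trans Ioi_ae_eq_Ici.symm.le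
    · exact HasSubset.Subset.eventuallyLE h1
  rw [setIntegral_congr_set h3]
  have h4 : IntegrableOn G' (Ioi c) := hint.mono_set h1
  rw [integral_Ioi_of_hasDerivAt_of_tendsto' (fun x _ => hG x) h4 hGl]
  have := hGn c hc0
  linarith

end LayerAux

open LayerAux in
theorem layerStmt : LayerStmt := by
  intro G G' T h0 hG hG' hGn hGl hT0 hTn hTm hint
  have hTmeas : Measurable T := meas_T hT0 hTn hTm
  obtain ⟨S, hS⟩ : ∃ S : Set (ℝ × ℝ), S = {p | 0 < p.2 ∧ p.2 < T p.1} := ⟨_, rfl⟩
  have hSm : MeasurableSet S := by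
    rw [hS]
    exact (measurableSet_lt measurable_const measurable_snd).inter
      (measurableSet_lt measurable_snd (hTmeas.comp measurable_fst))
  obtain ⟨f, hf⟩ : ∃ f : ℝ → ℝ → ℝ, f = fun h s => (Ioo 0 (T h)).indicator (fun _ => G' h) s :=
    ⟨_, rfl⟩
  have hfS : Function.uncurry f = S.indicator fun p => G' p.1 := by
    funext p
    obtain ⟨h, s⟩ := p
    rw [hf, hS]
    simp only [Function.uncurry, indicator, mem_Ioo, mem_setOf_eq]
  have hmeas : AEStronglyMeasurable (Function.uncurry f) (volume.prod volume) := by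
    rw [hfS]
    exact ((hG'.comp continuous_fst).stronglyMeasurable.indicator hSm).aestronglyMeasurable
  have hin : ∀ h, ∫ s, f h s = G' h * T h := by
    intro h
    rw [hf]
    simp only
    rw [integral_indicator measurableSet_Ioo, setIntegral_const, smul_eq_mul, measureReal_def,
      Real.volume_Ioo, sub_zero, ENNReal.toReal_ofReal (hTn h), mul_comm]
  have hnorm : ∀ h, ∫ s, ‖f h s‖ = ‖G' h * T h‖ := by
    intro h
    rw [hf]
    simp only
    have h1 : ∀ s, ‖(Ioo 0 (T h)).indicator (fun _ => G' h) s‖ =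
        (Ioo 0 (T h)).indicator (fun _ => ‖G' h‖) s := by
      intro s
      rw [norm_indicator_eq_indicator_norm]
    simp only [h1]
    rw [integral_indicator measurableSet_Ioo, setIntegral_const, smul_eq_mul, measureReal_def,
      Real.volume_Ioo, sub_zero, ENNReal.toReal_ofReal (hTn h), norm_mul,
      Real.norm_of_nonneg (hTn h), mul_comm]
  have hI : Integrable (Function.uncurry f) (volume.prod volume) := by
    rw [integrable_prod_iff hmeas]
    constructor
    · refine ae_of_all _ fun h => ?_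
      change Integrable (fun s => f h s) volume
      rw [hf]
      simp only
      rw [integrable_indicator_iff measurableSet_Ioo]
      exact integrableOn_const (by rw [Real.volume_Ioo]; exact ENNReal.ofReal_ne_top)
    · change Integrable (fun h => ∫ s, ‖f h s‖) volume
      simp only [hnorm]
      exact hint.norm
  have hsw := integral_integral_swap hI
  have h1 : ∫ h, G' h * T h = ∫ h, ∫ s, f h s := by
    simp only [hin]
  rw [h1, hsw]
  apply integral_nonpos
  intro s
  change ∫ h, f h s ≤ 0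
  rcases le_or_gt s 0 with hs | hs
  · have h2 : ∀ h, f h s = 0 := by
      intro h
      rw [hf]
      simp only
      rw [indicator_of_notMem]
      exact fun h3 => absurd h3.1 (not_lt.2 hs)
    simp only [h2, integral_zero, le_refl]
  · have h2 : ∀ h, f h s = (AS T s).indicator G' h := by
      intro h
      rw [hf]
      simp only
      by_cases h3 : s < T h
      · rw [indicator_of_mem (show s ∈ Ioo 0 (T h) from ⟨hs, h3⟩),
          indicator_of_mem (show h ∈ AS T s from h3)]
      · rw [indicator_of_notMem (fun h4 => h3 h4.2),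
          indicator_of_notMem (show h ∉ AS T s from fun h4 => h3 h4)]
    simp only [h2]
    rw [integral_indicator (meas_AS hT0 hTn hTm s)]
    exact int_AS hG hGn hGl hT0 hTm hs

end Pool.Agent.Lib.MP_0c1c75_co.KG
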