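import Pool.Agent.Lib.MP_0c1c75_co.KG.Spec

/-!
# Module ML2: assembly of the analytic core
-/

set_option autoImplicit false

open MeasureTheory Set Filter Topology

namespace Pool.Agent.Lib.MP_0c1c75_co.KG

namespace ML2Aux

variable {m : ℕ} (M : Modes m)

lemma r_continuous (k : Fin m) : Continuous (M.r k) := by
  unfold Modes.r
  fun_prop

lemma W_cont (hr : ∀ k, ∀ a ∈ Ioo (0 : ℝ) 1, 0 < M.r k a) : ContinuousOn M.W (Ioo 0 1) := by
  unfold Modes.W
  apply continuousOn_finsetProd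
  intro k _
  exact ContinuousOn.rpow_const (r_continuous M k).continuousOn
    (fun a ha => Or.inl (ne_of_gt (hr k a ha)))

lemma W_nonneg (hr : ∀ k, ∀ a ∈ Ioo (0 : ℝ) 1, 0 < M.r k a) : ∀ a ∈ Ioo (0 : ℝ) 1, 0 ≤ M.W a := by
  intro a ha
  unfold Modes.W
  exact Finset.prod_nonneg fun k _ => Real.rpow_nonneg (hr k a ha).le _

end ML2Aux

open ML2Aux in
theorem ml2Stmt (hpsi : PsiStmt) (hroots : RootsStmt) (htder : TderStmt) (htsub : TsubStmt)
    (hco : CoareaStmt) (hlay : LayerStmt) : ML2Stmt := by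
  intro m M b Y c hG G G' hder hcont hpos hlim hint
  obtain ⟨hr, hd1, hd2, hgood⟩ := hpsi m M b Y c
  obtain ⟨hpos2, hlim0, hlim1⟩ := hgood hG
  obtain ⟨a0, A1, A2, ha0, hmin, hA⟩ := hroots (M.psi b c Y) (M.psi1 b c Y) (M.psi2 b Y) hd1 hd2
    hpos2 hlim0 hlim1
  have hfc : ContinuousOn (M.psi b c Y) (Ioo 0 1) := fun a ha =>
    (hd1 a ha).continuousAt.continuousWithinAt
  obtain ⟨hI, hE⟩ := hco M.W (M.psi b c Y) G' (W_cont M hr) hfc (W_nonneg M hr) hcont hint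
  rw [hE]
  have hset : ∀ h, M.psi b c Y a0 < h →
      {a | a ∈ Ioo (0 : ℝ) 1 ∧ M.psi b c Y a < h} = Ioo (A1 h) (A2 h) := by
    intro h hh
    obtain ⟨h1, h2, h3, h4, h5, h6, h7, h8, h9, h10, h11⟩ := hA h hh
    ext a
    constructor
    · rintro ⟨ha, hlt⟩
      exact (h11 a ha).1 hlt
    · rintro ⟨ha1, ha2⟩
      have ha : a ∈ Ioo (0 : ℝ) 1 := ⟨lt_trans h1 ha1, lt_trans ha2 h4⟩
      exact ⟨ha, (h11 a ha).2 ⟨ha1, ha2⟩⟩
  have hsetE : ∀ h, h ≤ M.psi b c Y a0 → {a | a ∈ Ioo (0 : ℝ) 1 ∧ M.psi b c Y a < h} = ∅ := by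
    intro h hh
    ext a
    constructor
    · rintro ⟨ha, hlt⟩
      exact absurd (lt_of_lt_of_le hlt hh) (not_lt.mpr (hmin a ha))
    · intro ha
      exact ha.elim
  refine hlay G G' (fun h => ∫ a in {a | a ∈ Ioo (0 : ℝ) 1 ∧ M.psi b c Y a < h},
      M.W a * (h - M.psi b c Y a) ^ (-(1 / 2) : ℝ)) (M.psi b c Y a0) hder hcont
    (fun h hh => hpos a0 ha0 h hh) hlim ?_ ?_ ?_ hI
  · intro h hh
    simp only [hsetE h hh, Measure.restrict_empty, integral_zero_measure]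
  · intro h
    rcases le_or_gt h (M.psi b c Y a0) with hh | hh
    · simp only [hsetE h hh, Measure.restrict_empty, integral_zero_measure, le_refl]
    · simp only [hset h hh]
      obtain ⟨h1, h2, h3, h4, h5, h6, h7, h8, h9, h10, h11⟩ := hA h hh
      apply setIntegral_nonneg measurableSet_Ioo
      intro a ha
      have ha' : a ∈ Ioo (0 : ℝ) 1 := ⟨lt_trans h1 ha.1, lt_trans ha.2 h4⟩
      refine mul_nonneg (W_nonneg M hr a ha') (Real.rpow_nonneg ?_ _)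
      have := (h11 a ha').2 ⟨ha.1, ha.2⟩
      linarith
  · have hmono := htder m M b Y c hG (M.psi b c Y a0) A1 A2 (by
      intro h hh
      obtain ⟨h1, h2, h3, h4, h5, h6, h7, h8, h9, h10, h11⟩ := hA h hh
      exact ⟨h1, lt_trans h2 h3, h4, h5, h6, h9, h10, h7, h8⟩)
    refine hmono.congr ?_
    intro h hh
    have hh' : M.psi b c Y a0 < h := hh
    obtain ⟨h1, h2, h3, h4, h5, h6, h7, h8, h9, h10, h11⟩ := hA h hh'
    simp only [hset h hh']
    exact ((htsub m M b Y c hG (A1 h) (A2 h) h h1 (lt_trans h2 h3) h4 h5 h6).2).symm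

end Pool.Agent.Lib.MP_0c1c75_co.KG
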