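import Pool.Agent.Lib.MP_0c1c75_co.KG.Spec

set_option autoImplicit false

open MeasureTheory Set Filter Topology

namespace Pool.Agent.Lib.MP_0c1c75_co.KG

namespace PsiAux

variable {m : ℕ} (M : Modes m) (b Y : Fin m → ℝ) (c : ℝ)

private lemma rpos (k : Fin m) {a : ℝ} (ha : a ∈ Ioo (0 : ℝ) 1) : 0 < M.r k a := by
  obtain ⟨h0, h1⟩ := ha
  have h2 := M.hμ k
  have h3 := M.hν k
  have h4 := M.hs k
  unfold Modes.r
  rcases h2.lt_or_eq with h | h
  · have : 0 < (1 - a) * M.μ k := mul_pos (by linarith) h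
    have h5 : 0 ≤ a * M.ν k := mul_nonneg h0.le h3
    linarith
  · have h6 : M.ν k = 1 := by linarith
    rw [← h, h6]
    linarith

private lemma hr (k : Fin m) (a : ℝ) : HasDerivAt (M.r k) (M.δ k) a := by
  have h1 : HasDerivAt (fun a : ℝ => (1 - a) * M.μ k + a * M.ν k)
      (-1 * M.μ k + 1 * M.ν k) a :=
    (((hasDerivAt_id a).const_sub 1).mul_const _).add ((hasDerivAt_id a).mul_const _)
  have h2 : M.δ k = -1 * M.μ k + 1 * M.ν k := by
    unfold Modes.δ
    ring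
  rw [h2]
  exact h1

private lemma hu (k : Fin m) (a : ℝ) : HasDerivAt (fun a : ℝ => Y k - a * b k) (-b k) a := by
  simpa using ((hasDerivAt_id a).mul_const (b k)).const_sub (Y k)

private lemma key (k : Fin m) (a : ℝ) :
    b k * M.r k a + M.δ k * (Y k - a * b k) = Y k * M.δ k + b k * M.μ k := by
  have h4 := M.hs k
  unfold Modes.r Modes.δ
  ring

private lemma q1 {u r : ℝ → ℝ} {u' r' a : ℝ} (h1 : HasDerivAt u u' a) (h2 : HasDerivAt r r' a)
    (h0 : r a ≠ 0) : HasDerivAt (fun a => u a ^ 2 / r a)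
      ((2 * u a * u' * r a - u a ^ 2 * r') / r a ^ 2) a := by
  have h := (h1.fun_pow 2).fun_div h2 h0
  simpa using h

private lemma q2 {u r : ℝ → ℝ} {u' r' a β d : ℝ} (h1 : HasDerivAt u u' a)
    (h2 : HasDerivAt r r' a) (h0 : r a ≠ 0) :
    HasDerivAt (fun a => -(2 * β * u a) / r a - d * u a ^ 2 / r a ^ 2)
      ((-(2 * β * u') * r a - -(2 * β * u a) * r') / r a ^ 2 -
        (d * (2 * u a * u') * r a ^ 2 - d * u a ^ 2 * (2 * r a * r')) / (r a ^ 2) ^ 2) a := by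
  have h := ((h1.const_mul (2 * β)).fun_neg.fun_div h2 h0).fun_sub
    (((h1.fun_pow 2).const_mul d).fun_div (h2.fun_pow 2) (pow_ne_zero 2 h0))
  simpa using h

private lemma d1 {a : ℝ} (ha : a ∈ Ioo (0 : ℝ) 1) :
    HasDerivAt (M.psi b c Y) (M.psi1 b c Y a) a := by
  have h1 : HasDerivAt (fun a : ℝ => ∑ k, (Y k - a * b k) ^ 2 / M.r k a)
      (∑ k, (-(2 * b k * (Y k - a * b k)) / M.r k a -
        M.δ k * (Y k - a * b k) ^ 2 / M.r k a ^ 2)) a := by
    apply HasDerivAt.fun_sum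
    intro k _
    have h0 := (rpos M k ha).ne'
    refine (q1 (hu b Y k a) (hr M k a) h0).congr_deriv ?_
    field_simp
  have h2 : HasDerivAt (fun a : ℝ => c * a) c a := by
    simpa using (hasDerivAt_id a).const_mul c
  exact h1.sub h2

private lemma d2 {a : ℝ} (ha : a ∈ Ioo (0 : ℝ) 1) :
    HasDerivAt (M.psi1 b c Y) (M.psi2 b Y a) a := by
  have h1 : HasDerivAt (fun a : ℝ => ∑ k, (-(2 * b k * (Y k - a * b k)) / M.r k a -
        M.δ k * (Y k - a * b k) ^ 2 / M.r k a ^ 2))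
      (∑ k, 2 * M.res b Y k / M.r k a ^ 3) a := by
    apply HasDerivAt.fun_sum
    intro k _
    have h0 := (rpos M k ha).ne'
    have h3 := key M b Y k a
    have h5 : M.res b Y k = (b k * M.r k a + M.δ k * (Y k - a * b k)) ^ 2 := by
      rw [h3]
      rfl
    rw [h5]
    refine (q2 (β := b k) (d := M.δ k) (hu b Y k a) (hr M k a) h0).congr_deriv ?_
    field_simp
    ring
  have h2 := h1.sub_const c
  exact h2

private lemma pos2 (hG : M.Good b Y) {a : ℝ} (ha : a ∈ Ioo (0 : ℝ) 1) :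
    0 < M.psi2 b Y a := by
  obtain ⟨⟨k, hk, hY⟩, -⟩ := hG
  unfold Modes.psi2
  apply Finset.sum_pos'
  · intro j _
    have h0 := rpos M j ha
    unfold Modes.res
    positivity
  · refine ⟨k, Finset.mem_univ _, ?_⟩
    have h0 := rpos M k ha
    have h1 : M.res b Y k = Y k ^ 2 := by
      have h4 := M.hs k
      unfold Modes.res Modes.δ
      have h5 : M.ν k = 1 := by linarith
      rw [hk, h5]
      ring
    rw [h1]
    have : 0 < Y k ^ 2 := by positivity
    positivity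

private lemma low (k : Fin m) {a : ℝ} (ha : a ∈ Ioo (0 : ℝ) 1) :
    (Y k - a * b k) ^ 2 * (M.r k a)⁻¹ + (-|c|) ≤ M.psi b c Y a := by
  have h1 : (Y k - a * b k) ^ 2 / M.r k a ≤ ∑ k, (Y k - a * b k) ^ 2 / M.r k a := by
    apply Finset.single_le_sum (f := fun k => (Y k - a * b k) ^ 2 / M.r k a) _
      (Finset.mem_univ k)
    intro j _
    have h0 := rpos M j ha
    positivity
  have h2 : c * a ≤ |c| := by
    calc c * a ≤ |c * a| := le_abs_self _
      _ = |c| * a := by rw [abs_mul, abs_of_pos ha.1]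
      _ ≤ |c| * 1 := mul_le_mul_of_nonneg_left ha.2.le (abs_nonneg c)
      _ = |c| := mul_one _
  rw [div_eq_mul_inv] at h1
  unfold Modes.psi
  linarith

private lemma lim0 (hG : M.Good b Y) : Tendsto (M.psi b c Y) (𝓝[>] 0) atTop := by
  obtain ⟨⟨k, hk, hY⟩, -⟩ := hG
  have h4 := M.hs k
  have h5 : M.ν k = 1 := by linarith
  have h1 : Tendsto (fun a : ℝ => (Y k - a * b k) ^ 2) (𝓝[>] 0) (𝓝 (Y k ^ 2)) := by
    have : Tendsto (fun a : ℝ => (Y k - a * b k) ^ 2) (𝓝 0) (𝓝 ((Y k - 0 * b k) ^ 2)) :=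
      Continuous.tendsto (by fun_prop) 0
    simpa using this.mono_left nhdsWithin_le_nhds
  have h2 : Tendsto (fun a : ℝ => (Y k - a * b k) ^ 2 * a⁻¹) (𝓝[>] 0) atTop :=
    h1.pos_mul_atTop (by positivity) tendsto_inv_nhdsGT_zero
  have h3 := tendsto_atTop_add_const_right (𝓝[>] (0 : ℝ)) (-|c|) h2
  refine tendsto_atTop_mono' _ ?_ h3
  have hmem : Ioo (0 : ℝ) 1 ∈ 𝓝[>] (0 : ℝ) := Ioo_mem_nhdsGT one_pos
  filter_upwards [hmem] with a ha
  have h6 : M.r k a = a := by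
    unfold Modes.r
    rw [hk, h5]
    ring
  have h7 := low M b Y c k ha
  rw [h6] at h7
  exact h7

private lemma lim1 (hG : M.Good b Y) : Tendsto (M.psi b c Y) (𝓝[<] 1) atTop := by
  obtain ⟨-, ⟨k, hk, hY⟩⟩ := hG
  have h4 := M.hs k
  have h5 : M.μ k = 1 := by linarith
  have h1 : Tendsto (fun a : ℝ => (Y k - a * b k) ^ 2) (𝓝[<] 1) (𝓝 ((Y k - b k) ^ 2)) := by
    have : Tendsto (fun a : ℝ => (Y k - a * b k) ^ 2) (𝓝 1) (𝓝 ((Y k - 1 * b k) ^ 2)) :=
      Continuous.tendsto (by fun_prop) 1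
    simpa using this.mono_left nhdsWithin_le_nhds
  have h8 : Tendsto (fun a : ℝ => 1 - a) (𝓝[<] 1) (𝓝[>] 0) := by
    apply tendsto_nhdsWithin_of_tendsto_nhds_of_eventually_within
    · have : Tendsto (fun a : ℝ => 1 - a) (𝓝 1) (𝓝 (1 - 1)) :=
        Continuous.tendsto (by fun_prop) 1
      simpa using this.mono_left nhdsWithin_le_nhds
    · filter_upwards [self_mem_nhdsWithin] with a ha
      simp only [mem_Iio] at ha
      simp only [mem_Ioi]
      linarith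
  have hYb : 0 < (Y k - b k) ^ 2 := by
    have : Y k - b k ≠ 0 := sub_ne_zero.2 hY
    positivity
  have h2 : Tendsto (fun a : ℝ => (Y k - a * b k) ^ 2 * (1 - a)⁻¹) (𝓝[<] 1) atTop :=
    h1.pos_mul_atTop hYb (tendsto_inv_nhdsGT_zero.comp h8)
  have h3 := tendsto_atTop_add_const_right (𝓝[<] (1 : ℝ)) (-|c|) h2
  refine tendsto_atTop_mono' _ ?_ h3
  have hmem : Ioo (0 : ℝ) 1 ∈ 𝓝[<] (1 : ℝ) := Ioo_mem_nhdsLT one_pos
  filter_upwards [hmem] with a ha
  have h6 : M.r k a = 1 - a := by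
    unfold Modes.r
    rw [hk, h5]
    ring
  have h7 := low M b Y c k ha
  rw [h6] at h7
  exact h7

end PsiAux

theorem psiStmt : PsiStmt := fun _ M b Y c =>
  ⟨fun k _ ha => PsiAux.rpos M k ha, fun _ ha => PsiAux.d1 M b Y c ha,
    fun _ ha => PsiAux.d2 M b Y c ha, fun hG => ⟨fun _ ha => PsiAux.pos2 M b Y hG ha,
      PsiAux.lim0 M b Y c hG, PsiAux.lim1 M b Y c hG⟩⟩

end Pool.Agent.Lib.MP_0c1c75_co.KG
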