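import Pool.Agent.Lib.MP_0c1c75_co.KG.Spec

set_option autoImplicit false

open MeasureTheory Set Filter Topology

namespace Pool.Agent.Lib.MP_0c1c75_co.KG

namespace RepAux

private lemma rpos {m : ℕ} (M : Modes m) (k : Fin m) {a : ℝ} (ha : a ∈ Ioo (0 : ℝ) 1) :
    0 < M.r k a := by
  obtain ⟨h0, h1⟩ := ha
  have h2 := M.hμ k
  have h3 := M.hν k
  have h4 := M.hs k
  unfold Modes.r
  rcases h2.lt_or_eq with h | h
  · have : 0 < (1 - a) * M.μ k := mul_pos (by linarith) h
    have h5 : 0 ≤ a * M.ν k := mul_nonneg h0.le h3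
    linarith
  · have h6 : M.ν k = 1 := by linarith
    rw [← h, h6]
    linarith

private lemma nn_nonneg {N : ℕ} (l : Fin N →₀ ℕ) : 0 ≤ nn l :=
  Finset.sum_nonneg fun _ _ => Nat.cast_nonneg _

private lemma kint_nonneg {m N : ℕ} (M : Modes m) (ζ : Fin N → Fin m → ℝ) (b : Fin m → ℝ) (c : ℝ)
    (l : Fin N →₀ ℕ) (x : (Fin m → ℝ) × (ℝ × ℝ)) (hx : x.2.1 ∈ Ioo (0 : ℝ) 1) :
    0 ≤ kint M ζ b c l x := by
  unfold kint
  apply mul_nonneg
  · unfold Modes.W
    exact Finset.prod_nonneg fun k _ => Real.rpow_nonneg (rpos M k hx).le _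
  · exact mul_nonneg (nn_nonneg l) (Real.exp_pos _).le

private lemma r_meas {m : ℕ} (M : Modes m) (k : Fin m) : Measurable (M.r k) := by
  unfold Modes.r
  fun_prop

private lemma W_meas {m : ℕ} (M : Modes m) : Measurable M.W := by
  unfold Modes.W
  exact Finset.measurable_prod _ fun k _ => (r_meas M k).pow_const _

private lemma kint_meas {m N : ℕ} (M : Modes m) (ζ : Fin N → Fin m → ℝ) (b : Fin m → ℝ) (c : ℝ)
    (l : Fin N →₀ ℕ) : Measurable (kint M ζ b c l) := by
  have h1 : Measurable (fun x : (Fin m → ℝ) × (ℝ × ℝ) => M.W x.2.1) :=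
    (W_meas M).comp (measurable_fst.comp measurable_snd)
  have h2 : Measurable (fun x : (Fin m → ℝ) × (ℝ × ℝ) => M.psi b c x.1 x.2.1) := by
    unfold Modes.psi
    apply Measurable.sub
    · apply Finset.measurable_sum
      intro k _
      apply Measurable.div
      · fun_prop
      · exact (r_meas M k).comp (measurable_fst.comp measurable_snd)
    · fun_prop
  have h3 : Measurable (fun x : (Fin m → ℝ) × (ℝ × ℝ) => ∑ i, (l i : ℝ) * om M ζ x.1 i) := by
    unfold om
    fun_prop
  have h4 : Measurable (fun x : (Fin m → ℝ) × (ℝ × ℝ) => x.2.2 ^ 2) := by fun_prop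
  unfold kint
  exact h1.mul (measurable_const.mul
    (Real.measurable_exp.comp ((measurable_const.mul (h2.add h4)).neg.add h3)))

/-- `(a, (Y, v)) ↦ (Y, (a, v))` -/
private def eqv (m : ℕ) : ℝ × ((Fin m → ℝ) × ℝ) ≃ᵐ (Fin m → ℝ) × (ℝ × ℝ) :=
  (MeasurableEquiv.prodAssoc.symm.trans
    (MeasurableEquiv.prodCongr MeasurableEquiv.prodComm (MeasurableEquiv.refl ℝ))).trans
    MeasurableEquiv.prodAssoc

private lemma eqv_apply (m : ℕ) (x : ℝ × ((Fin m → ℝ) × ℝ)) : eqv m x = (x.2.1, (x.1, x.2.2)) :=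
  rfl

private lemma eqv_mp (m : ℕ) (μ : Measure ℝ) [SigmaFinite μ] :
    MeasurePreserving (eqv m) (μ.prod ((volume : Measure (Fin m → ℝ)).prod volume))
      ((volume : Measure (Fin m → ℝ)).prod (μ.prod volume)) := by
  have h1 : MeasurePreserving (MeasurableEquiv.prodAssoc : (ℝ × (Fin m → ℝ)) × ℝ ≃ᵐ _)
      ((μ.prod (volume : Measure (Fin m → ℝ))).prod (volume : Measure ℝ))
      (μ.prod ((volume : Measure (Fin m → ℝ)).prod volume)) :=
    measurePreserving_prodAssoc _ _ _
  have h2 : MeasurePreserving (MeasurableEquiv.prodAssoc : ((Fin m → ℝ) × ℝ) × ℝ ≃ᵐ _)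
      (((volume : Measure (Fin m → ℝ)).prod μ).prod (volume : Measure ℝ))
      ((volume : Measure (Fin m → ℝ)).prod (μ.prod volume)) :=
    measurePreserving_prodAssoc _ _ _
  have h3 : MeasurePreserving (Prod.swap : ℝ × (Fin m → ℝ) → (Fin m → ℝ) × ℝ)
      (μ.prod (volume : Measure (Fin m → ℝ))) ((volume : Measure (Fin m → ℝ)).prod μ) :=
    Measure.measurePreserving_swap
  have h4 := h3.prod (MeasurePreserving.id (volume : Measure ℝ))
  exact h2.comp (h4.comp (h1.symm _))

end RepAux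

open RepAux in
theorem repStmt (hA : RepAStmt) : RepStmt := by
  intro m N D D' M ζ b c h1 h2 h3 l hl
  have hA' := hA m N D D' M ζ b c h1 h2 h3 l hl
  have hst : (volume : Measure (ℝ × ℝ)).restrict strip =
      ((volume : Measure ℝ).restrict (Ioo 0 1)).prod volume := by
    rw [strip, Measure.volume_eq_prod, ← Measure.prod_restrict, Measure.restrict_univ]
  rw [hst]
  set μ := (volume : Measure ℝ).restrict (Ioo 0 1) with hμ
  set C : ℝ := Real.pi ^ (((m : ℝ) + 1) / 2) with hC
  set K : ℝ := nn l ^ (-(((m : ℝ) - 1) / 2)) with hK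
  have hmp := eqv_mp m μ
  have hfm := kint_meas M ζ b c l
  have hgm : Measurable (kint M ζ b c l ∘ eqv m) := hfm.comp (eqv m).measurable
  have hcont : Continuous fun a : ℝ =>
      C * (K * Real.exp (-((1 - a) * qq D l + a * qq D' l) / nn l)) := by fun_prop
  have hg : Integrable (kint M ζ b c l ∘ eqv m)
      (μ.prod ((volume : Measure (Fin m → ℝ)).prod volume)) := by
    rw [integrable_prod_iff hgm.aestronglyMeasurable]
    constructor
    · rw [hμ, ae_restrict_iff' measurableSet_Ioo]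
      exact Filter.Eventually.of_forall fun a ha => (hA' a ha).1
    · have h5 : IntegrableOn (fun a : ℝ =>
          C * (K * Real.exp (-((1 - a) * qq D l + a * qq D' l) / nn l))) (Ioo 0 1) :=
        (hcont.integrableOn_Icc (a := 0) (b := 1)).mono_set Ioo_subset_Icc_self
      refine IntegrableOn.congr_fun h5 (fun a ha => ?_) measurableSet_Ioo
      change _ = ∫ y : (Fin m → ℝ) × ℝ, ‖kint M ζ b c l (y.1, (a, y.2))‖
      rw [← (hA' a ha).2]
      refine integral_congr_ae (Filter.Eventually.of_forall fun y => ?_)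
      exact (Real.norm_of_nonneg (kint_nonneg M ζ b c l (y.1, (a, y.2)) ha)).symm
  have hf : Integrable (kint M ζ b c l) ((volume : Measure (Fin m → ℝ)).prod (μ.prod volume)) :=
    (hmp.integrable_comp hfm.aestronglyMeasurable).1 hg
  refine ⟨hf, ?_⟩
  have h6 : ∫ x, kint M ζ b c l x ∂((volume : Measure (Fin m → ℝ)).prod (μ.prod volume)) =
      ∫ x, (kint M ζ b c l ∘ eqv m) x
        ∂(μ.prod ((volume : Measure (Fin m → ℝ)).prod volume)) :=
    (hmp.integral_comp' (kint M ζ b c l)).symm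
  rw [h6, integral_prod _ hg]
  have h7 : ∫ a, ∫ y, (kint M ζ b c l ∘ eqv m) (a, y)
      ∂((volume : Measure (Fin m → ℝ)).prod volume) ∂μ =
      ∫ a in Ioo (0 : ℝ) 1, C * (K * Real.exp (-((1 - a) * qq D l + a * qq D' l) / nn l)) := by
    rw [hμ]
    exact setIntegral_congr_fun measurableSet_Ioo fun a ha => (hA' a ha).2
  rw [h7, integral_const_mul, integral_const_mul]
  unfold mw
  rw [intervalIntegral.integral_of_le zero_le_one, integral_Ioc_eq_integral_Ioo, ← hK]
  have h8 : Real.pi ^ (-(((m : ℝ) + 1) / 2)) * C = 1 := by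
    rw [hC, ← Real.rpow_add Real.pi_pos]
    simp
  rw [← mul_assoc, h8, one_mul]

end Pool.Agent.Lib.MP_0c1c75_co.KG
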