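import Pool.Agent.Lib.MP_0c1c75_co.KG.Spec

/-!
MP_0c1c75_co, KG/RepA: the kernel representation for a fixed parameter.
-/

set_option autoImplicit false

open MeasureTheory Set Filter Topology

namespace Pool.Agent.Lib.MP_0c1c75_co.KG

namespace RepAAux

variable {N m : ℕ}

private lemma nn_pos {l : Fin N →₀ ℕ} (hl : l ≠ 0) : 0 < nn l := by
  unfold nn
  obtain ⟨i, hi⟩ : ∃ i, l i ≠ 0 := by
    by_contra h
    push Not at h
    exact hl (Finsupp.ext h)
  refine Finset.sum_pos' (fun i _ => Nat.cast_nonneg _) ⟨i, Finset.mem_univ i, ?_⟩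
  exact_mod_cast Nat.pos_of_ne_zero hi

private lemma r_pos (M : Modes m) (k : Fin m) {a : ℝ} (ha : a ∈ Ioo (0 : ℝ) 1) :
    0 < M.r k a := by
  obtain ⟨h0, h1⟩ := ha
  have hμ := M.hμ k
  have hν := M.hν k
  have hs := M.hs k
  unfold Modes.r
  rcases lt_or_eq_of_le hμ with h | h
  · have h2 : 0 < (1 - a) * M.μ k := mul_pos (by linarith) h
    have h3 : 0 ≤ a * M.ν k := mul_nonneg h0.le hν
    linarith
  · have h2 : M.ν k = 1 := by linarith
    rw [← h, h2]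
    linarith

/-- first moment -/
private noncomputable def S1 (ζ : Fin N → Fin m → ℝ) (l : Fin N →₀ ℕ) (k : Fin m) : ℝ :=
  ∑ i, (l i : ℝ) * ζ i k

/-- second moment -/
private noncomputable def S2 (ζ : Fin N → Fin m → ℝ) (l : Fin N →₀ ℕ) (k : Fin m) : ℝ :=
  ∑ i, (l i : ℝ) * ζ i k ^ 2

private lemma dbl (ζ : Fin N → Fin m → ℝ) (l : Fin N →₀ ℕ) (k : Fin m) :
    ∑ i, ∑ j, (l i : ℝ) * (l j : ℝ) * (ζ i k - ζ j k) ^ 2 =
      2 * (nn l * S2 ζ l k - S1 ζ l k ^ 2) := by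
  have h1 : ∀ i, ∑ j, (l i : ℝ) * (l j : ℝ) * (ζ i k - ζ j k) ^ 2 =
      nn l * ((l i : ℝ) * ζ i k ^ 2) - 2 * ((l i : ℝ) * ζ i k) * S1 ζ l k +
        (l i : ℝ) * S2 ζ l k := by
    intro i
    have h2 : ∀ j, (l i : ℝ) * (l j : ℝ) * (ζ i k - ζ j k) ^ 2 =
        (l j : ℝ) * ((l i : ℝ) * ζ i k ^ 2) - 2 * ((l i : ℝ) * ζ i k) * ((l j : ℝ) * ζ j k) +
          (l i : ℝ) * ((l j : ℝ) * ζ j k ^ 2) := fun j => by ring
    simp only [h2, Finset.sum_add_distrib, Finset.sum_sub_distrib]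
    rw [← Finset.sum_mul, ← Finset.mul_sum, ← Finset.mul_sum]
    rfl
  simp only [h1, Finset.sum_add_distrib, Finset.sum_sub_distrib]
  rw [← Finset.mul_sum, ← Finset.sum_mul, ← Finset.sum_mul, ← Finset.mul_sum]
  have h3 : ∑ i, (l i : ℝ) = nn l := rfl
  have h4 : ∑ i, (l i : ℝ) * ζ i k ^ 2 = S2 ζ l k := rfl
  have h5 : ∑ i, (l i : ℝ) * ζ i k = S1 ζ l k := rfl
  rw [h3, h4, h5]
  ring

private lemma qq_eq (D : Fin N → Fin N → ℝ) (w : Fin m → ℝ) (ζ : Fin N → Fin m → ℝ)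
    (h : ∀ i j, D i j = ∑ k, w k * (ζ i k - ζ j k) ^ 2) (l : Fin N →₀ ℕ) :
    qq D l = ∑ k, w k * (nn l * S2 ζ l k - S1 ζ l k ^ 2) := by
  unfold qq
  have h1 : ∀ i j, (l i : ℝ) * (l j : ℝ) * D i j =
      ∑ k, w k * ((l i : ℝ) * (l j : ℝ) * (ζ i k - ζ j k) ^ 2) := by
    intro i j
    rw [h i j, Finset.mul_sum]
    exact Finset.sum_congr rfl fun k _ => by ring
  simp only [h1]
  rw [Finset.sum_congr rfl fun i _ => Finset.sum_comm, Finset.sum_comm, Finset.mul_sum]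
  refine Finset.sum_congr rfl fun k _ => ?_
  simp only [← Finset.mul_sum]
  rw [dbl]
  ring

/-- the centre of the Gaussian in the coordinate `k` -/
private noncomputable def cn (M : Modes m) (ζ : Fin N → Fin m → ℝ) (b : Fin m → ℝ)
    (l : Fin N →₀ ℕ) (a : ℝ) (k : Fin m) : ℝ :=
  a * b k + M.r k a * (S1 ζ l k / nn l)

/-- the exponent -/
private lemma expo {D D' : Fin N → Fin N → ℝ} (M : Modes m) (ζ : Fin N → Fin m → ℝ)
    (b : Fin m → ℝ) (c : ℝ) (h1 : ∀ i j, D i j = ∑ k, M.μ k * (ζ i k - ζ j k) ^ 2)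
    (h2 : ∀ i j, D' i j = ∑ k, M.ν k * (ζ i k - ζ j k) ^ 2)
    (h3 : ∀ i, ∑ k, (M.μ k - M.ν k) * ζ i k ^ 2 = 2 * ∑ k, b k * ζ i k + c)
    {l : Fin N →₀ ℕ} (hl : l ≠ 0) {a : ℝ} (ha : a ∈ Ioo (0 : ℝ) 1) (Y : Fin m → ℝ) (v : ℝ) :
    -(nn l * (M.psi b c Y a + v ^ 2)) + ∑ i, (l i : ℝ) * om M ζ Y i =
      -((1 - a) * qq D l + a * qq D' l) / nn l +
        (∑ k, -(nn l / M.r k a) * (Y k - cn M ζ b l a k) ^ 2 + -nn l * v ^ 2) := by
  have hn := nn_pos hl
  have hc : nn l * c = ∑ k, ((M.μ k - M.ν k) * S2 ζ l k - 2 * b k * S1 ζ l k) := by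
    have h4 : ∑ i, (l i : ℝ) * ∑ k, (M.μ k - M.ν k) * ζ i k ^ 2 =
        ∑ k, (M.μ k - M.ν k) * S2 ζ l k := by
      simp only [Finset.mul_sum]
      rw [Finset.sum_comm]
      refine Finset.sum_congr rfl fun k _ => ?_
      unfold S2
      rw [Finset.mul_sum]
      exact Finset.sum_congr rfl fun i _ => by ring
    have h5 : ∑ i, (l i : ℝ) * (2 * ∑ k, b k * ζ i k + c) =
        ∑ k, 2 * b k * S1 ζ l k + nn l * c := by
      have h6 : ∀ i, (l i : ℝ) * (2 * ∑ k, b k * ζ i k + c) =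
          ∑ k, 2 * b k * ((l i : ℝ) * ζ i k) + (l i : ℝ) * c := by
        intro i
        rw [mul_add, Finset.mul_sum, Finset.mul_sum]
        congr 1
        exact Finset.sum_congr rfl fun k _ => by ring
      simp only [h6, Finset.sum_add_distrib]
      rw [Finset.sum_comm, ← Finset.sum_mul]
      congr 1
      refine Finset.sum_congr rfl fun k _ => ?_
      rw [← Finset.mul_sum]
      rfl
    have h7 : ∑ i, (l i : ℝ) * ∑ k, (M.μ k - M.ν k) * ζ i k ^ 2 =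
        ∑ i, (l i : ℝ) * (2 * ∑ k, b k * ζ i k + c) :=
      Finset.sum_congr rfl fun i _ => by rw [h3 i]
    rw [Finset.sum_sub_distrib]
    linarith
  have ho : ∑ i, (l i : ℝ) * om M ζ Y i =
      ∑ k, (2 * Y k * S1 ζ l k - M.μ k * S2 ζ l k) := by
    have h4 : ∀ i, (l i : ℝ) * om M ζ Y i =
        ∑ k, (2 * Y k * ((l i : ℝ) * ζ i k) - M.μ k * ((l i : ℝ) * ζ i k ^ 2)) := by
      intro i
      unfold om
      rw [Finset.sum_sub_distrib, mul_sub, Finset.mul_sum, Finset.mul_sum, Finset.mul_sum]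
      congr 1
      · exact Finset.sum_congr rfl fun k _ => by ring
      · exact Finset.sum_congr rfl fun k _ => by ring
    simp only [h4]
    rw [Finset.sum_comm]
    refine Finset.sum_congr rfl fun k _ => ?_
    rw [Finset.sum_sub_distrib, ← Finset.mul_sum, ← Finset.mul_sum]
    rfl
  have hq : (1 - a) * qq D l + a * qq D' l =
      ∑ k, M.r k a * (nn l * S2 ζ l k - S1 ζ l k ^ 2) := by
    rw [qq_eq D M.μ ζ h1 l, qq_eq D' M.ν ζ h2 l, Finset.mul_sum, Finset.mul_sum,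
      ← Finset.sum_add_distrib]
    refine Finset.sum_congr rfl fun k _ => ?_
    unfold Modes.r
    ring
  have hterm : ∀ k, -(nn l * ((Y k - a * b k) ^ 2 / M.r k a)) +
      a * ((M.μ k - M.ν k) * S2 ζ l k - 2 * b k * S1 ζ l k) +
      (2 * Y k * S1 ζ l k - M.μ k * S2 ζ l k) =
      -(M.r k a * (nn l * S2 ζ l k - S1 ζ l k ^ 2)) / nn l +
        -(nn l / M.r k a) * (Y k - cn M ζ b l a k) ^ 2 := by
    intro k
    have hr := r_pos M k ha
    have hr' : M.r k a = (1 - a) * M.μ k + a * M.ν k := rfl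
    unfold cn
    obtain ⟨r, hr2⟩ : ∃ r, r = M.r k a := ⟨_, rfl⟩
    rw [← hr2] at hr hr' ⊢
    have h8 : a * ((M.μ k - M.ν k) * S2 ζ l k - 2 * b k * S1 ζ l k) +
        (2 * Y k * S1 ζ l k - M.μ k * S2 ζ l k) =
        2 * (Y k - a * b k) * S1 ζ l k - r * S2 ζ l k := by
      rw [hr']
      ring
    rw [add_assoc, h8]
    field_simp
    ring
  have hpsi : -(nn l * (M.psi b c Y a + v ^ 2)) =
      ∑ k, (-(nn l * ((Y k - a * b k) ^ 2 / M.r k a)) +
        a * ((M.μ k - M.ν k) * S2 ζ l k - 2 * b k * S1 ζ l k)) + -nn l * v ^ 2 := by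
    unfold Modes.psi
    rw [Finset.sum_add_distrib, ← Finset.mul_sum, ← hc, Finset.sum_neg_distrib,
      ← Finset.mul_sum]
    ring
  rw [hpsi, ho, hq]
  have h9 : -(∑ k, M.r k a * (nn l * S2 ζ l k - S1 ζ l k ^ 2)) / nn l =
      ∑ k, -(M.r k a * (nn l * S2 ζ l k - S1 ζ l k ^ 2)) / nn l := by
    rw [← Finset.sum_neg_distrib, Finset.sum_div]
  rw [h9, ← add_assoc, ← Finset.sum_add_distrib, ← Finset.sum_congr rfl fun k _ => hterm k,
    Finset.sum_add_distrib (g := fun k => 2 * Y k * S1 ζ l k - M.μ k * S2 ζ l k)]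
  ring

/-- the integral of a Gaussian -/
private lemma gauss1 {t : ℝ} (ht : 0 < t) (s : ℝ) :
    Integrable (fun y : ℝ => Real.exp (-t * (y - s) ^ 2)) ∧
    ∫ y : ℝ, Real.exp (-t * (y - s) ^ 2) = √(Real.pi / t) := by
  refine ⟨(integrable_exp_neg_mul_sq ht).comp_sub_right s, ?_⟩
  rw [integral_sub_right_eq_self (fun y : ℝ => Real.exp (-t * y ^ 2)) s, integral_gaussian]

private lemma powers (M : Modes m) {a n : ℝ} (ha : a ∈ Ioo (0 : ℝ) 1) (hn : 0 < n) :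
    M.W a * n * ((∏ k, √(Real.pi / (n / M.r k a))) * √(Real.pi / n)) =
      Real.pi ^ (((m : ℝ) + 1) / 2) * n ^ (-(((m : ℝ) - 1) / 2)) := by
  have hπ := Real.pi_pos
  have h0 : (0 : ℝ) < Real.pi / n := div_pos hπ hn
  have h1 : M.W a * ∏ k, √(Real.pi / (n / M.r k a)) = √(Real.pi / n) ^ m := by
    unfold Modes.W
    rw [← Finset.prod_mul_distrib, Finset.prod_congr rfl (g := fun _ => √(Real.pi / n)),
      Finset.prod_const, Finset.card_univ, Fintype.card_fin]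
    intro k _
    have hr := r_pos M k ha
    have h2 : Real.pi / (n / M.r k a) = Real.pi / n * M.r k a := by field_simp
    rw [h2, Real.sqrt_mul h0.le, Real.sqrt_eq_rpow (M.r k a), mul_left_comm,
      ← Real.rpow_add hr]
    norm_num
  have h3 : M.W a * n * ((∏ k, √(Real.pi / (n / M.r k a))) * √(Real.pi / n)) =
      n * (√(Real.pi / n) ^ m * √(Real.pi / n)) := by
    rw [← h1]
    ring
  have h4 : √(Real.pi / n) ^ m * √(Real.pi / n) = (Real.pi / n) ^ (((m : ℝ) + 1) / 2) := by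
    rw [← pow_succ, Real.sqrt_eq_rpow, ← Real.rpow_natCast, ← Real.rpow_mul h0.le]
    congr 1
    push_cast
    ring
  rw [h3, h4, Real.div_rpow hπ.le hn.le]
  have h5 : n ^ (-(((m : ℝ) - 1) / 2)) = n / n ^ (((m : ℝ) + 1) / 2) := by
    have h6 : -(((m : ℝ) - 1) / 2) = 1 - ((m : ℝ) + 1) / 2 := by ring
    rw [h6, Real.rpow_sub hn, Real.rpow_one]
  rw [h5]
  ring

end RepAAux

open RepAAux in
theorem repAStmt : RepAStmt := by
  intro m N D D' M ζ b c h1 h2 h3 l hl a ha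
  have hn := nn_pos hl
  obtain ⟨C, hC⟩ : ∃ C, C = Real.exp (-((1 - a) * qq D l + a * qq D' l) / nn l) := ⟨_, rfl⟩
  have hf : (fun x : (Fin m → ℝ) × ℝ => kint M ζ b c l (x.1, (a, x.2))) =
      fun x => (M.W a * nn l * C) *
        ((∏ k, Real.exp (-(nn l / M.r k a) * (x.1 k - cn M ζ b l a k) ^ 2)) *
          Real.exp (-nn l * (x.2 - 0) ^ 2)) := by
    funext x
    unfold kint
    simp only
    rw [expo M ζ b c h1 h2 h3 hl ha x.1 x.2, Real.exp_add, Real.exp_add, Real.exp_sum, ← hC,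
      sub_zero]
    ring
  have hg : ∀ k, Integrable (fun y : ℝ => Real.exp (-(nn l / M.r k a) *
      (y - cn M ζ b l a k) ^ 2)) := fun k => (gauss1 (div_pos hn (r_pos M k ha)) _).1
  have hp : Integrable (fun Y : Fin m → ℝ => ∏ k, Real.exp (-(nn l / M.r k a) *
      (Y k - cn M ζ b l a k) ^ 2)) :=
    Integrable.fintype_prod (f := fun k (y : ℝ) => Real.exp (-(nn l / M.r k a) *
      (y - cn M ζ b l a k) ^ 2)) hg
  have hv := gauss1 hn 0
  rw [hf]
  refine ⟨(Integrable.mul_prod hp hv.1).const_mul _, ?_⟩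
  rw [integral_const_mul, Measure.volume_eq_prod, integral_prod_mul
    (fun Y : Fin m → ℝ => ∏ k, Real.exp (-(nn l / M.r k a) * (Y k - cn M ζ b l a k) ^ 2))
    (fun v : ℝ => Real.exp (-nn l * (v - 0) ^ 2)), hv.2,
    integral_fintype_prod_volume_eq_prod (f := fun k (y : ℝ) => Real.exp (-(nn l / M.r k a) *
      (y - cn M ζ b l a k) ^ 2)),
    Finset.prod_congr rfl fun k _ => (gauss1 (div_pos hn (r_pos M k ha)) _).2, ← hC]
  have h5 := powers M ha hn
  calc M.W a * nn l * C * ((∏ k, √(Real.pi / (nn l / M.r k a))) * √(Real.pi / nn l)) =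
      C * (M.W a * nn l * ((∏ k, √(Real.pi / (nn l / M.r k a))) * √(Real.pi / nn l))) := by ring
    _ = _ := by
      rw [h5]
      ring

end Pool.Agent.Lib.MP_0c1c75_co.KG
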