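import Pool.Agent.Lib.MP_0c1c75_co.KG.Spec

/-!
# The two roots of a strictly convex function on `(0,1)`
-/

set_option autoImplicit false

open Set Filter Topology

namespace Pool.Agent.Lib.MP_0c1c75_co.KG

namespace RootsAux

private lemma cont_anti {f A : ℝ → ℝ} {p q h0 : ℝ} (hf : StrictAntiOn f (Ioo p q))
    (hA : ∀ h, h0 < h → A h ∈ Ioo p q ∧ f (A h) = h) :
    ∀ h, h0 < h → ContinuousAt A h := by
  intro h hh
  obtain ⟨⟨hp, hq⟩, he⟩ := hA h hh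
  have hev : ∀ᶠ k in 𝓝 h, h0 < k := lt_mem_nhds hh
  refine tendsto_order.2 ⟨?_, ?_⟩
  · intro l hl
    have hl' : max l ((p + A h) / 2) ∈ Ioo p q :=
      ⟨lt_of_lt_of_le (by linarith) (le_max_right _ _), max_lt (hl.trans hq) (by linarith)⟩
    have hl2 : max l ((p + A h) / 2) < A h := max_lt hl (by linarith)
    have h1 : h < f (max l ((p + A h) / 2)) := by
      have := hf hl' ⟨hp, hq⟩ hl2
      rwa [he] at this
    filter_upwards [hev, gt_mem_nhds h1] with k hk0 hk1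
    obtain ⟨hk, hke⟩ := hA k hk0
    have h2 : f (A k) < f (max l ((p + A h) / 2)) := by rw [hke]; exact hk1
    have h3 := (hf.lt_iff_gt hk hl').1 h2
    exact lt_of_le_of_lt (le_max_left _ _) h3
  · intro u hu
    have hu' : min u ((A h + q) / 2) ∈ Ioo p q :=
      ⟨lt_min (hp.trans hu) (by linarith), lt_of_le_of_lt (min_le_right _ _) (by linarith)⟩
    have hu2 : A h < min u ((A h + q) / 2) := lt_min hu (by linarith)
    have h1 : f (min u ((A h + q) / 2)) < h := by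
      have := hf ⟨hp, hq⟩ hu' hu2
      rwa [he] at this
    filter_upwards [hev, lt_mem_nhds h1] with k hk0 hk1
    obtain ⟨hk, hke⟩ := hA k hk0
    have h2 : f (min u ((A h + q) / 2)) < f (A k) := by rw [hke]; exact hk1
    have h3 := (hf.lt_iff_gt hu' hk).1 h2
    exact lt_of_lt_of_le h3 (min_le_left _ _)

private lemma cont_mono {f A : ℝ → ℝ} {p q h0 : ℝ} (hf : StrictMonoOn f (Ioo p q))
    (hA : ∀ h, h0 < h → A h ∈ Ioo p q ∧ f (A h) = h) :
    ∀ h, h0 < h → ContinuousAt A h := by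
  intro h hh
  obtain ⟨⟨hp, hq⟩, he⟩ := hA h hh
  have hev : ∀ᶠ k in 𝓝 h, h0 < k := lt_mem_nhds hh
  refine tendsto_order.2 ⟨?_, ?_⟩
  · intro l hl
    have hl' : max l ((p + A h) / 2) ∈ Ioo p q :=
      ⟨lt_of_lt_of_le (by linarith) (le_max_right _ _), max_lt (hl.trans hq) (by linarith)⟩
    have hl2 : max l ((p + A h) / 2) < A h := max_lt hl (by linarith)
    have h1 : f (max l ((p + A h) / 2)) < h := by
      have := hf hl' ⟨hp, hq⟩ hl2
      rwa [he] at this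
    filter_upwards [hev, lt_mem_nhds h1] with k hk0 hk1
    obtain ⟨hk, hke⟩ := hA k hk0
    have h2 : f (max l ((p + A h) / 2)) < f (A k) := by rw [hke]; exact hk1
    have h3 := (hf.lt_iff_lt hl' hk).1 h2
    exact lt_of_le_of_lt (le_max_left _ _) h3
  · intro u hu
    have hu' : min u ((A h + q) / 2) ∈ Ioo p q :=
      ⟨lt_min (hp.trans hu) (by linarith), lt_of_le_of_lt (min_le_right _ _) (by linarith)⟩
    have hu2 : A h < min u ((A h + q) / 2) := lt_min hu (by linarith)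
    have h1 : h < f (min u ((A h + q) / 2)) := by
      have := hf ⟨hp, hq⟩ hu' hu2
      rwa [he] at this
    filter_upwards [hev, gt_mem_nhds h1] with k hk0 hk1
    obtain ⟨hk, hke⟩ := hA k hk0
    have h2 : f (A k) < f (min u ((A h + q) / 2)) := by rw [hke]; exact hk1
    have h3 := (hf.lt_iff_lt hk hu').1 h2
    exact lt_of_lt_of_le h3 (min_le_left _ _)

private lemma exists_min {f : ℝ → ℝ} (hf : ContinuousOn f (Ioo 0 1))
    (h0 : Tendsto f (𝓝[>] 0) atTop) (h1 : Tendsto f (𝓝[<] 1) atTop) :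
    ∃ a0 ∈ Ioo (0 : ℝ) 1, ∀ a ∈ Ioo (0 : ℝ) 1, f a0 ≤ f a := by
  obtain ⟨u, hu0, hu⟩ := mem_nhdsGT_iff_exists_Ioo_subset.1 (h0.eventually_ge_atTop (f (1 / 2)))
  obtain ⟨l, hl1, hl⟩ := mem_nhdsLT_iff_exists_Ioo_subset.1 (h1.eventually_ge_atTop (f (1 / 2)))
  simp only [mem_Ioi] at hu0
  simp only [mem_Iio] at hl1
  have hpq : Icc (min (u / 2) (1 / 4)) (max ((l + 1) / 2) (3 / 4)) ⊆ Ioo (0 : ℝ) 1 := by
    intro x hx
    refine ⟨lt_of_lt_of_le (lt_min (by linarith) (by norm_num)) hx.1,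
      lt_of_le_of_lt hx.2 (max_lt (by linarith) (by norm_num))⟩
  have hne : (1 / 2 : ℝ) ∈ Icc (min (u / 2) (1 / 4)) (max ((l + 1) / 2) (3 / 4)) :=
    ⟨(min_le_right _ _).trans (by norm_num), le_trans (by norm_num) (le_max_right _ _)⟩
  obtain ⟨a0, ha0, hmin⟩ := isCompact_Icc.exists_isMinOn ⟨_, hne⟩ (hf.mono hpq)
  refine ⟨a0, hpq ha0, fun a ha => ?_⟩
  have hhalf : f a0 ≤ f (1 / 2) := hmin hne
  by_cases h2 : a < min (u / 2) (1 / 4)
  · have h3 : a < u := lt_of_lt_of_le h2 ((min_le_left _ _).trans (by linarith))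
    exact hhalf.trans (hu ⟨ha.1, h3⟩)
  · by_cases h3 : max ((l + 1) / 2) (3 / 4) < a
    · have h4 : l < a := lt_of_le_of_lt (le_trans (by linarith) (le_max_left _ _)) h3
      exact hhalf.trans (hl ⟨h4, ha.2⟩)
    · exact hmin ⟨not_lt.1 h2, not_lt.1 h3⟩

end RootsAux

open RootsAux

/-- the two roots -/
theorem rootsStmt : RootsStmt := by
  intro f f1 f2 hf hf1 hf2 hlim0 hlim1
  have hcf : ContinuousOn f (Ioo 0 1) := fun a ha => (hf a ha).continuousAt.continuousWithinAt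
  have hcf1 : ContinuousOn f1 (Ioo 0 1) := fun a ha => (hf1 a ha).continuousAt.continuousWithinAt
  have hmono1 : StrictMonoOn f1 (Ioo 0 1) := by
    refine strictMonoOn_of_deriv_pos (convex_Ioo 0 1) hcf1 ?_
    intro x hx
    rw [interior_Ioo] at hx
    rw [(hf1 x hx).deriv]
    exact hf2 x hx
  obtain ⟨a0, ha0, hmin⟩ := exists_min hcf hlim0 hlim1
  have hz : f1 a0 = 0 := by
    have hloc : IsLocalMin f a0 := by
      filter_upwards [Ioo_mem_nhds ha0.1 ha0.2] with a ha using hmin a ha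
    exact hloc.hasDerivAt_eq_zero (hf a0 ha0)
  have hneg : ∀ a ∈ Ioo (0 : ℝ) a0, f1 a < 0 := by
    intro a ha
    rw [← hz]
    exact hmono1 ⟨ha.1, ha.2.trans ha0.2⟩ ha0 ha.2
  have hpos : ∀ a ∈ Ioo a0 (1 : ℝ), 0 < f1 a := by
    intro a ha
    rw [← hz]
    exact hmono1 ha0 ⟨ha0.1.trans ha.1, ha.2⟩ ha.1
  have hanti : StrictAntiOn f (Ioc 0 a0) := by
    refine strictAntiOn_of_deriv_neg (convex_Ioc 0 a0)
      (hcf.mono fun x hx => ⟨hx.1, lt_of_le_of_lt hx.2 ha0.2⟩) ?_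
    intro x hx
    rw [interior_Ioc] at hx
    rw [(hf x ⟨hx.1, hx.2.trans ha0.2⟩).deriv]
    exact hneg x hx
  have hmon : StrictMonoOn f (Ico a0 1) := by
    refine strictMonoOn_of_deriv_pos (convex_Ico a0 1)
      (hcf.mono fun x hx => ⟨lt_of_lt_of_le ha0.1 hx.1, hx.2⟩) ?_
    intro x hx
    rw [interior_Ico] at hx
    rw [(hf x ⟨ha0.1.trans hx.1, hx.2⟩).deriv]
    exact hpos x hx
  have hex1 : ∀ h, f a0 < h → ∃ x, x ∈ Ioo (0 : ℝ) a0 ∧ f x = h := by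
    intro h hh
    have h1 : ∀ᶠ x in 𝓝[>] (0 : ℝ), h < f x ∧ x ∈ Ioo (0 : ℝ) a0 :=
      (hlim0.eventually_gt_atTop h).and (Ioo_mem_nhdsGT ha0.1)
    obtain ⟨x, hx1, hx2⟩ := h1.exists
    have hc : ContinuousOn f (Icc x a0) :=
      hcf.mono fun y hy => ⟨lt_of_lt_of_le hx2.1 hy.1, lt_of_le_of_lt hy.2 ha0.2⟩
    obtain ⟨y, hy, hye⟩ := intermediate_value_Icc' hx2.2.le hc ⟨hh.le, hx1.le⟩
    refine ⟨y, ⟨lt_of_lt_of_le hx2.1 hy.1, lt_of_le_of_ne hy.2 ?_⟩, hye⟩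
    rintro rfl
    exact hh.ne hye
  have hex2 : ∀ h, f a0 < h → ∃ x, x ∈ Ioo a0 (1 : ℝ) ∧ f x = h := by
    intro h hh
    have h1 : ∀ᶠ x in 𝓝[<] (1 : ℝ), h < f x ∧ x ∈ Ioo a0 (1 : ℝ) :=
      (hlim1.eventually_gt_atTop h).and (Ioo_mem_nhdsLT ha0.2)
    obtain ⟨x, hx1, hx2⟩ := h1.exists
    have hc : ContinuousOn f (Icc a0 x) :=
      hcf.mono fun y hy => ⟨lt_of_lt_of_le ha0.1 hy.1, lt_of_le_of_lt hy.2 hx2.2⟩
    obtain ⟨y, hy, hye⟩ := intermediate_value_Icc hx2.1.le hc ⟨hh.le, hx1.le⟩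
    refine ⟨y, ⟨lt_of_le_of_ne hy.1 ?_, lt_of_le_of_lt hy.2 hx2.2⟩, hye⟩
    rintro rfl
    exact hh.ne hye
  choose! A1 hA1 using hex1
  choose! A2 hA2 using hex2
  have hc1 := cont_anti (hanti.mono Ioo_subset_Ioc_self) hA1
  have hc2 := cont_mono (hmon.mono Ioo_subset_Ico_self) hA2
  refine ⟨a0, A1, A2, ha0, hmin, fun h hh => ?_⟩
  obtain ⟨h1, e1⟩ := hA1 h hh
  obtain ⟨h2, e2⟩ := hA2 h hh
  refine ⟨h1.1, h1.2, h2.1, h2.2, e1, e2, hneg _ h1, hpos _ h2, ?_, ?_, ?_⟩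
  · refine HasDerivAt.of_local_left_inverse (hc1 h hh) (hf _ ⟨h1.1, h1.2.trans ha0.2⟩)
      (hneg _ h1).ne ?_
    filter_upwards [lt_mem_nhds hh] with k hk using (hA1 k hk).2
  · refine HasDerivAt.of_local_left_inverse (hc2 h hh) (hf _ ⟨ha0.1.trans h2.1, h2.2⟩)
      (hpos _ h2).ne' ?_
    filter_upwards [lt_mem_nhds hh] with k hk using (hA2 k hk).2
  · intro a ha
    rcases le_or_gt a a0 with hle | hgt
    · constructor
      · intro hlt
        rw [← e1] at hlt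
        exact ⟨(hanti.lt_iff_gt ⟨ha.1, hle⟩ ⟨h1.1, h1.2.le⟩).1 hlt, lt_of_le_of_lt hle h2.1⟩
      · rintro ⟨hlt, -⟩
        have := hanti ⟨h1.1, h1.2.le⟩ ⟨ha.1, hle⟩ hlt
        rwa [e1] at this
    · constructor
      · intro hlt
        rw [← e2] at hlt
        exact ⟨h1.2.trans hgt, (hmon.lt_iff_lt ⟨hgt.le, ha.2⟩ ⟨h2.1.le, h2.2⟩).1 hlt⟩
      · rintro ⟨-, hlt⟩
        have := hmon ⟨hgt.le, ha.2⟩ ⟨h2.1.le, h2.2⟩ hlt
        rwa [e2] at this

end Pool.Agent.Lib.MP_0c1c75_co.KG
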