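import Pool.Agent.Lib.MP_0c1c75_co.KG.Spec

/-!
# Module STEP: from polynomials to balls
-/

set_option autoImplicit false

open MeasureTheory Set Filter Topology

namespace Pool.Agent.Lib.MP_0c1c75_co.KG

namespace StepAux

/-- the approximations for one radius -/
theorem gfun (hA : StepAStmt) (ρ : ℝ) : ∃ (g : ℕ → Polynomial ℝ) (C : ℝ),
    (∀ n, (g n).eval 0 = 0) ∧
    (∀ n, ∀ z ∈ Icc (0 : ℝ) 1, 0 ≤ (g n).eval z ∧ (g n).eval z ≤ 1 ∧
      (g n).eval z ≤ C * z ∧ 0 ≤ (Polynomial.derivative (g n)).eval z) ∧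
    ∀ t : ℝ, 0 ≤ t → t ≠ ρ →
      Tendsto (fun n => (g n).eval (Real.exp (-t ^ 2))) atTop (𝓝 (if t ≤ ρ then 1 else 0)) := by
  rcases le_or_gt ρ 0 with hρ | hρ
  · refine ⟨fun _ => 0, 0, fun n => by simp, fun n z hz => by simp, ?_⟩
    intro t ht hne
    have h1 : ¬ t ≤ ρ := fun h => hne (le_antisymm h (hρ.trans ht))
    simp [h1]
  · have hθ : Real.exp (-ρ ^ 2) ∈ Ioo (0 : ℝ) 1 := ⟨Real.exp_pos _, by
      rw [Real.exp_lt_one_iff]
      nlinarith⟩
    obtain ⟨g, h0, h1, h2, h3⟩ := hA _ hθ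
    refine ⟨g, 2 / Real.exp (-ρ ^ 2), h0, h1, ?_⟩
    intro t ht hne
    have hz : Real.exp (-t ^ 2) ∈ Icc (0 : ℝ) 1 := ⟨(Real.exp_pos _).le, by
      rw [Real.exp_le_one_iff]
      nlinarith⟩
    by_cases h : t ≤ ρ
    · rw [if_pos h]
      have hlt : t < ρ := lt_of_le_of_ne h hne
      exact h3 _ hz (Real.exp_lt_exp.mpr (by nlinarith))
    · rw [if_neg h]
      have h' : ρ < t := not_le.mp h
      exact h2 _ hz (Real.exp_lt_exp.mpr (by nlinarith))

theorem zz_mem {d N : ℕ} (p : Fin N → E d) (x : E d) (i : Fin N) :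
    zz p x i ∈ Icc (0 : ℝ) 1 := by
  refine ⟨(Real.exp_pos _).le, ?_⟩
  show Real.exp (-‖x - p i‖ ^ 2) ≤ 1
  rw [Real.exp_le_one_iff]
  nlinarith [sq_nonneg ‖x - p i‖]

theorem eval_aeval {N : ℕ} (z : Fin N → ℝ) (i : Fin N) (f : Polynomial ℝ) :
    MvPolynomial.eval z (Polynomial.aeval (MvPolynomial.X i : MvPolynomial (Fin N) ℝ) f) =
      f.eval (z i) := by
  induction f using Polynomial.induction_on' with
  | add p q hp hq => rw [map_add, map_add, hp, hq, Polynomial.eval_add]
  | monomial n a =>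
    rw [Polynomial.aeval_monomial, map_mul, map_pow, MvPolynomial.eval_X, Polynomial.eval_monomial,
      MvPolynomial.algebraMap_eq, MvPolynomial.eval_C]

theorem limval (hg : GaussStmt) {d N : ℕ} (hd : 0 < d) (p : Fin N → E d) (r : Fin N → ℝ)
    (g : Fin N → ℕ → Polynomial ℝ) (C : Fin N → ℝ)
    (h1 : ∀ i n, ∀ z ∈ Icc (0 : ℝ) 1, 0 ≤ (g i n).eval z ∧ (g i n).eval z ≤ 1 ∧
      (g i n).eval z ≤ C i * z ∧ 0 ≤ (Polynomial.derivative (g i n)).eval z)
    (h2 : ∀ i (t : ℝ), 0 ≤ t → t ≠ r i →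
      Tendsto (fun n => (g i n).eval (Real.exp (-t ^ 2))) atTop (𝓝 (if t ≤ r i then 1 else 0)))
    (Φ : (Fin N → ℝ) → ℝ) (hΦ : Continuous Φ)
    (hb : ∀ y : Fin N → ℝ, (∀ i, y i ∈ Icc (0 : ℝ) 1) → |Φ y| ≤ ∑ i, y i)
    (P : ℕ → MvPolynomial (Fin N) ℝ) (hP0 : ∀ n, (P n).coeff 0 = 0)
    (hP : ∀ n z, MvPolynomial.eval z (P n) = Φ (fun i => (g i n).eval (z i))) :
    Tendsto (fun n => val d (DD p) (P n)) atTop
      (𝓝 (∫ x : E d, Φ (fun i => if ‖x - p i‖ ≤ r i then 1 else 0))) := by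
  have hv : (fun n => val d (DD p) (P n)) =
      fun n => ∫ x : E d, MvPolynomial.eval (zz p x) (P n) := by
    funext n
    exact ((hg d N p (P n) (hP0 n)).2).symm
  rw [hv]
  haveI : Nonempty (Fin d) := ⟨⟨0, hd⟩⟩
  refine tendsto_integral_of_dominated_convergence (fun x => ∑ i, C i * zz p x i) ?_ ?_ ?_ ?_
  · exact fun n => (hg d N p (P n) (hP0 n)).1.aestronglyMeasurable
  · refine integrable_finset_sum _ fun i _ => Integrable.const_mul ?_ _
    have h3 := (hg d N p (MvPolynomial.X i) (MvPolynomial.coeff_zero_X i)).1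
    refine h3.congr (Eventually.of_forall fun x => ?_)
    show MvPolynomial.eval (zz p x) (MvPolynomial.X i) = zz p x i
    rw [MvPolynomial.eval_X]
  · intro n
    refine Eventually.of_forall fun x => ?_
    rw [Real.norm_eq_abs, hP]
    refine (hb _ fun i => ?_).trans (Finset.sum_le_sum fun i _ => ?_)
    · exact ⟨(h1 i n _ (zz_mem p x i)).1, (h1 i n _ (zz_mem p x i)).2.1⟩
    · exact (h1 i n _ (zz_mem p x i)).2.2.1
  · have hs : ∀ᵐ x : E d, ∀ i, x ∉ Metric.sphere (p i) (r i) := by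
      rw [ae_all_iff]
      intro i
      have h4 : volume (Metric.sphere (p i) (r i)) = 0 := Measure.addHaar_sphere _ _ _
      exact measure_eq_zero_iff_ae_notMem.mp h4
    filter_upwards [hs] with x hx
    have h5 : (fun n => MvPolynomial.eval (zz p x) (P n)) =
        fun n => Φ (fun i => (g i n).eval (zz p x i)) := by
      funext n
      exact hP n _
    rw [h5]
    refine (hΦ.tendsto _).comp ?_
    rw [tendsto_pi_nhds]
    intro i
    refine h2 i ‖x - p i‖ (norm_nonneg _) fun h => hx i ?_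
    rw [mem_sphere_iff_norm]
    exact h

theorem prod_bound {N : ℕ} (hN : 0 < N) (y : Fin N → ℝ) (hy : ∀ i, y i ∈ Icc (0 : ℝ) 1) :
    |∏ i, y i| ≤ ∑ i, y i := by
  rw [abs_of_nonneg (Finset.prod_nonneg fun i _ => (hy i).1)]
  have i0 : Fin N := ⟨0, hN⟩
  rw [← Finset.mul_prod_erase Finset.univ y (Finset.mem_univ i0)]
  have h1 : ∏ i ∈ Finset.univ.erase i0, y i ≤ 1 :=
    Finset.prod_le_one (fun i _ => (hy i).1) fun i _ => (hy i).2
  calc y i0 * ∏ i ∈ Finset.univ.erase i0, y i ≤ y i0 * 1 :=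
        mul_le_mul_of_nonneg_left h1 (hy i0).1
    _ = y i0 := mul_one _
    _ ≤ ∑ i, y i := Finset.single_le_sum (fun i _ => (hy i).1) (Finset.mem_univ i0)

theorem one_sub_bound {N : ℕ} (y : Fin N → ℝ) (hy : ∀ i, y i ∈ Icc (0 : ℝ) 1)
    (s : Finset (Fin N)) : 1 - ∑ i ∈ s, y i ≤ ∏ i ∈ s, (1 - y i) ∧ ∏ i ∈ s, (1 - y i) ≤ 1 := by
  classical
  induction s using Finset.induction_on with
  | empty => simp
  | insert a s ha ih =>
    rw [Finset.sum_insert ha, Finset.prod_insert ha]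
    have h1 := (hy a).1
    have h2 := (hy a).2
    have h3 : 0 ≤ ∏ i ∈ s, (1 - y i) := Finset.prod_nonneg fun i _ => sub_nonneg.mpr (hy i).2
    constructor
    · nlinarith [ih.1, ih.2]
    · nlinarith [ih.1, ih.2]

theorem union_bound {N : ℕ} (y : Fin N → ℝ) (hy : ∀ i, y i ∈ Icc (0 : ℝ) 1) :
    |∏ i, (1 - y i) - 1| ≤ ∑ i, y i := by
  obtain ⟨h1, h2⟩ := one_sub_bound y hy Finset.univ
  rw [abs_le]
  constructor
  · linarith
  · have h3 : 0 ≤ ∑ i, y i := Finset.sum_nonneg fun i _ => (hy i).1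
    linarith

theorem int_inter {d N : ℕ} (p : Fin N → E d) (r : Fin N → ℝ) :
    ∫ x : E d, ∏ i, (if ‖x - p i‖ ≤ r i then (1 : ℝ) else 0) =
      volume.real (⋂ i, Metric.closedBall (p i) (r i)) := by
  have hm : MeasurableSet (⋂ i, Metric.closedBall (p i) (r i)) :=
    MeasurableSet.iInter fun i => Metric.isClosed_closedBall.measurableSet
  rw [← integral_indicator_one hm]
  congr 1
  funext x
  by_cases hx : ∀ i, ‖x - p i‖ ≤ r i
  · rw [Finset.prod_eq_one fun i _ => if_pos (hx i), indicator_of_mem]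
    · rfl
    · exact mem_iInter.mpr fun i => mem_closedBall_iff_norm.mpr (hx i)
  · obtain ⟨i, hi⟩ := not_forall.mp hx
    rw [Finset.prod_eq_zero (Finset.mem_univ i) (if_neg hi), indicator_of_notMem]
    intro h
    exact hi (mem_closedBall_iff_norm.mp (mem_iInter.mp h i))

theorem int_union {d N : ℕ} (p : Fin N → E d) (r : Fin N → ℝ) :
    ∫ x : E d, (∏ i, (1 - (if ‖x - p i‖ ≤ r i then (1 : ℝ) else 0)) - 1) =
      -volume.real (⋃ i, Metric.closedBall (p i) (r i)) := by
  have hm : MeasurableSet (⋃ i, Metric.closedBall (p i) (r i)) :=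
    MeasurableSet.iUnion fun i => Metric.isClosed_closedBall.measurableSet
  rw [← integral_indicator_one hm, ← integral_neg]
  congr 1
  funext x
  by_cases hx : ∃ i, ‖x - p i‖ ≤ r i
  · obtain ⟨i, hi⟩ := hx
    have h1 : (1 : ℝ) - (if ‖x - p i‖ ≤ r i then (1 : ℝ) else 0) = 0 := by
      rw [if_pos hi, sub_self]
    rw [Finset.prod_eq_zero (Finset.mem_univ i) h1, indicator_of_mem]
    · simp
    · exact mem_iUnion.mpr ⟨i, mem_closedBall_iff_norm.mpr hi⟩
  · have hx' := not_exists.mp hx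
    rw [Finset.prod_eq_one, indicator_of_notMem]
    · simp
    · intro h
      obtain ⟨i, hi⟩ := mem_iUnion.mp h
      exact hx' i (mem_closedBall_iff_norm.mp hi)
    · intro i _
      rw [if_neg (hx' i), sub_zero]

end StepAux

/-- **Module STEP** -/
theorem stepStmt (hg : GaussStmt) (hA : StepAStmt) (hB : StepBStmt) : StepStmt := by
  intro d N p q hd hKP r
  choose g C g0 g1 g2 using fun i => StepAux.gfun hA (r i)
  have hB' := fun n => hB N (fun i => g i n) (fun i => g0 i n) (fun i z hz =>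
    ⟨(g1 i n z hz).1, (g1 i n z hz).2.1, (g1 i n z hz).2.2.2⟩)
  constructor
  · rcases Nat.eq_zero_or_pos N with rfl | hN
    · rw [iInter_of_empty, iInter_of_empty]
    · have hSM : ∀ n, SM (∏ i, Polynomial.aeval (MvPolynomial.X i : MvPolynomial (Fin N) ℝ)
          (g i n)) := fun n => (hB' n).1 hN
      have hev : ∀ n z, MvPolynomial.eval z (∏ i, Polynomial.aeval
          (MvPolynomial.X i : MvPolynomial (Fin N) ℝ) (g i n)) =
          (fun y : Fin N → ℝ => ∏ i, y i) (fun i => (g i n).eval (z i)) := by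
        intro n z
        rw [map_prod]
        exact Finset.prod_congr rfl fun i _ => StepAux.eval_aeval z i _
      have hcont : Continuous (fun y : Fin N → ℝ => ∏ i, y i) :=
        continuous_finset_prod _ fun i _ => continuous_apply i
      have hp := StepAux.limval hg hd p r g C g1 g2 (fun y => ∏ i, y i) hcont
        (fun y hy => StepAux.prod_bound hN y hy) _ (fun n => (hSM n).1) hev
      have hq := StepAux.limval hg hd q r g C g1 g2 (fun y => ∏ i, y i) hcont
        (fun y hy => StepAux.prod_bound hN y hy) _ (fun n => (hSM n).1) hev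
      have hle := le_of_tendsto_of_tendsto' hp hq fun n => hKP _ (hSM n)
      rw [StepAux.int_inter, StepAux.int_inter] at hle
      have i0 : Fin N := ⟨0, hN⟩
      have hf : ∀ p' : Fin N → E d, volume (⋂ i, Metric.closedBall (p' i) (r i)) ≠ ⊤ := fun p' =>
        ((measure_mono (iInter_subset _ i0)).trans_lt measure_closedBall_lt_top).ne
      exact (ENNReal.toReal_le_toReal (hf p) (hf q)).mp hle
  · have hSM : ∀ n, SM (∏ i, (1 - Polynomial.aeval (MvPolynomial.X i : MvPolynomial (Fin N) ℝ)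
        (g i n)) - 1) := fun n => (hB' n).2
    have hev : ∀ n z, MvPolynomial.eval z (∏ i, (1 - Polynomial.aeval
        (MvPolynomial.X i : MvPolynomial (Fin N) ℝ) (g i n)) - 1) =
        (fun y : Fin N → ℝ => ∏ i, (1 - y i) - 1) (fun i => (g i n).eval (z i)) := by
      intro n z
      rw [map_sub, map_one, map_prod]
      refine congrArg (fun t : ℝ => t - 1) (Finset.prod_congr rfl fun i _ => ?_)
      rw [map_sub, map_one, StepAux.eval_aeval]
    have hcont : Continuous (fun y : Fin N → ℝ => ∏ i, (1 - y i) - 1) :=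
      (continuous_finset_prod _ fun i _ => continuous_const.sub (continuous_apply i)).sub
        continuous_const
    have hp := StepAux.limval hg hd p r g C g1 g2 (fun y => ∏ i, (1 - y i) - 1) hcont
      (fun y hy => StepAux.union_bound y hy) _ (fun n => (hSM n).1) hev
    have hq := StepAux.limval hg hd q r g C g1 g2 (fun y => ∏ i, (1 - y i) - 1) hcont
      (fun y hy => StepAux.union_bound y hy) _ (fun n => (hSM n).1) hev
    have hle := le_of_tendsto_of_tendsto' hp hq fun n => hKP _ (hSM n)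
    rw [StepAux.int_union, StepAux.int_union, neg_le_neg_iff] at hle
    have hf : ∀ p' : Fin N → E d, volume (⋃ i, Metric.closedBall (p' i) (r i)) ≠ ⊤ := by
      intro p'
      refine ((measure_iUnion_fintype_le _ _).trans_lt ?_).ne
      exact ENNReal.sum_lt_top.mpr fun i _ => measure_closedBall_lt_top
    exact (ENNReal.toReal_le_toReal (hf q) (hf p)).mp hle

end Pool.Agent.Lib.MP_0c1c75_co.KG
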