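import Pool.Agent.Lib.MP_0c1c75_co.KG.Spec

/-!
# Theorem G, module STEPA: polynomials which approximate a step
-/

set_option autoImplicit false

open Set Filter Topology

namespace Pool.Agent.Lib.MP_0c1c75_co.KG

namespace StepAAux

/-- the exponent -/
noncomputable def kk (θ : ℝ) (n : ℕ) : ℕ := ⌈(θ ^ (n + 1))⁻¹⌉₊

/-- the polynomial -/
noncomputable def gg (θ : ℝ) (n : ℕ) : Polynomial ℝ :=
  1 - (1 - Polynomial.X ^ (n + 1)) ^ kk θ n

theorem eval_gg (θ : ℝ) (n : ℕ) (z : ℝ) : (gg θ n).eval z = 1 - (1 - z ^ (n + 1)) ^ kk θ n := by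
  simp [gg]

theorem deriv_gg (θ : ℝ) (n : ℕ) (z : ℝ) (h0 : 0 ≤ z) (h1 : z ≤ 1) :
    0 ≤ (Polynomial.derivative (gg θ n)).eval z := by
  have h2 : Polynomial.derivative (gg θ n) = Polynomial.C (kk θ n : ℝ) *
      (1 - Polynomial.X ^ (n + 1)) ^ (kk θ n - 1) *
        (Polynomial.C ((n + 1 : ℕ) : ℝ) * Polynomial.X ^ n) := by
    rw [gg, Polynomial.derivative_sub, Polynomial.derivative_one, Polynomial.derivative_pow,
      Polynomial.derivative_sub, Polynomial.derivative_one, Polynomial.derivative_X_pow]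
    simp only [Nat.add_sub_cancel]
    ring
  have h3 : 0 ≤ 1 - z ^ (n + 1) := sub_nonneg.2 (pow_le_one₀ h0 h1)
  rw [h2]
  simp only [Polynomial.eval_mul, Polynomial.eval_C, Polynomial.eval_pow, Polynomial.eval_sub,
    Polynomial.eval_one, Polynomial.eval_X]
  positivity

theorem kk_ge (θ : ℝ) (n : ℕ) : (θ ^ (n + 1))⁻¹ ≤ (kk θ n : ℝ) := Nat.le_ceil _

theorem kk_le {θ : ℝ} (h0 : 0 < θ) (h1 : θ < 1) (n : ℕ) : (kk θ n : ℝ) ≤ 2 * (θ ^ (n + 1))⁻¹ := by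
  have h2 : 0 < θ ^ (n + 1) := pow_pos h0 _
  have h3 : 1 ≤ (θ ^ (n + 1))⁻¹ := (one_le_inv₀ h2).2 (pow_le_one₀ h0.le h1.le)
  have h4 := (Nat.ceil_lt_add_one (inv_nonneg.2 h2.le)).le
  unfold kk
  linarith

theorem gg_le {θ : ℝ} (h0 : 0 < θ) (h1 : θ < 1) (n : ℕ) {z : ℝ} (hz : z ∈ Icc (0 : ℝ) 1) :
    (gg θ n).eval z ≤ 2 * (z / θ) ^ (n + 1) := by
  have h2 : 0 ≤ z ^ (n + 1) := pow_nonneg hz.1 _
  have h3 : z ^ (n + 1) ≤ 1 := pow_le_one₀ hz.1 hz.2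
  have h4 := one_add_mul_le_pow (a := -z ^ (n + 1)) (by linarith) (kk θ n)
  have h5 := mul_le_mul_of_nonneg_right (kk_le h0 h1 n) h2
  have h6 : 2 * (θ ^ (n + 1))⁻¹ * z ^ (n + 1) = 2 * (z / θ) ^ (n + 1) := by
    rw [div_pow]
    ring
  have h7 : (1 : ℝ) + -z ^ (n + 1) = 1 - z ^ (n + 1) := by ring
  rw [h7] at h4
  rw [eval_gg]
  linarith

end StepAAux

open StepAAux in
theorem stepAStmt : StepAStmt := by
  intro θ hθ
  obtain ⟨h0, h1⟩ := hθ
  have hz0 : ∀ n, ∀ z ∈ Icc (0 : ℝ) 1, 0 ≤ (gg θ n).eval z := by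
    intro n z hz
    rw [eval_gg, sub_nonneg]
    exact pow_le_one₀ (sub_nonneg.2 (pow_le_one₀ hz.1 hz.2))
      (by linarith [pow_nonneg hz.1 (n + 1)])
  have hz1 : ∀ n, ∀ z ∈ Icc (0 : ℝ) 1, (gg θ n).eval z ≤ 1 := by
    intro n z hz
    rw [eval_gg]
    have := pow_nonneg (sub_nonneg.2 (pow_le_one₀ hz.1 hz.2) : 0 ≤ 1 - z ^ (n + 1)) (kk θ n)
    linarith
  refine ⟨gg θ, fun n => ?_, fun n z hz => ⟨hz0 n z hz, hz1 n z hz, ?_, ?_⟩, fun z hz hlt => ?_,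
    fun z hz hlt => ?_⟩
  · rw [eval_gg, zero_pow (Nat.succ_ne_zero n), sub_zero, one_pow, sub_self]
  · rcases le_or_gt z θ with h | h
    · have h2 : z / θ ≤ 1 := (div_le_one h0).2 h
      have h3 : (z / θ) ^ (n + 1) ≤ z / θ :=
        pow_le_of_le_one (div_nonneg hz.1 h0.le) h2 (Nat.succ_ne_zero n)
      have h4 := gg_le h0 h1 n hz
      have h5 : 2 / θ * z = 2 * (z / θ) := by ring
      rw [h5]
      linarith
    · have h2 : 1 ≤ z / θ := (one_le_div h0).2 h.le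
      have h5 : 2 / θ * z = 2 * (z / θ) := by ring
      have h6 := hz1 n z hz
      rw [h5]
      linarith
  · exact deriv_gg θ n z hz.1 hz.2
  · have h2 : z / θ < 1 := (div_lt_one h0).2 hlt
    have h3 : Tendsto (fun n : ℕ => 2 * (z / θ) ^ (n + 1)) atTop (𝓝 (2 * 0)) :=
      ((tendsto_pow_atTop_nhds_zero_of_lt_one (div_nonneg hz.1 h0.le) h2).comp
        (tendsto_add_atTop_nat 1)).const_mul 2
    rw [mul_zero] at h3
    exact squeeze_zero (fun n => hz0 n z hz) (fun n => gg_le h0 h1 n hz) h3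
  · have h2 : 1 < z / θ := (one_lt_div h0).2 hlt
    have h3 : Tendsto (fun n : ℕ => (z / θ) ^ (n + 1)) atTop atTop :=
      (tendsto_pow_atTop_atTop_of_one_lt h2).comp (tendsto_add_atTop_nat 1)
    have h4 : Tendsto (fun n : ℕ => 1 - Real.exp (-(z / θ) ^ (n + 1))) atTop (𝓝 (1 - 0)) :=
      (Real.tendsto_exp_neg_atTop_nhds_zero.comp h3).const_sub 1
    rw [sub_zero] at h4
    refine tendsto_of_tendsto_of_tendsto_of_le_of_le h4 tendsto_const_nhds (fun n => ?_)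
      fun n => hz1 n z hz
    have h5 : 0 ≤ 1 - z ^ (n + 1) := sub_nonneg.2 (pow_le_one₀ hz.1 hz.2)
    have h6 : 1 - z ^ (n + 1) ≤ Real.exp (-z ^ (n + 1)) := by
      have := Real.add_one_le_exp (-z ^ (n + 1))
      linarith
    have h7 : (1 - z ^ (n + 1)) ^ kk θ n ≤ Real.exp (-(z / θ) ^ (n + 1)) := by
      refine (pow_le_pow_left₀ h5 h6 _).trans ?_
      rw [← Real.exp_nat_mul]
      refine Real.exp_le_exp.2 ?_
      have h8 := mul_le_mul_of_nonneg_right (kk_ge θ n) (pow_nonneg hz.1 (n + 1))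
      have h9 : (θ ^ (n + 1))⁻¹ * z ^ (n + 1) = (z / θ) ^ (n + 1) := by
        rw [div_pow]
        ring
      rw [h9] at h8
      linarith
    show 1 - Real.exp (-(z / θ) ^ (n + 1)) ≤ (gg θ n).eval z
    rw [eval_gg]
    linarith

end Pool.Agent.Lib.MP_0c1c75_co.KG
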