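import Pool.Agent.Lib.MP_0c1c75_co.KG.Spec

/-!
# Theorem G, module STEPB: the two supermodular polynomials
-/

set_option autoImplicit false

open Set

namespace Pool.Agent.Lib.MP_0c1c75_co.KG

namespace StepBAux

variable {N : ℕ}

/-- the polynomial `g (X k)` -/
noncomputable abbrev ev (k : Fin N) (p : Polynomial ℝ) : MvPolynomial (Fin N) ℝ :=
  Polynomial.aeval (MvPolynomial.X k : MvPolynomial (Fin N) ℝ) p

theorem pd_ev (i k : Fin N) (p : Polynomial ℝ) :
    MvPolynomial.pderiv i (ev k p) =
      ev k (Polynomial.derivative p) * MvPolynomial.pderiv i (MvPolynomial.X k) := by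
  induction p using Polynomial.induction_on' with
  | add p q hp hq => simp only [ev, map_add, add_mul] at hp hq ⊢; rw [hp, hq]
  | monomial n a =>
    simp only [ev, Polynomial.aeval_monomial, Polynomial.derivative_monomial]
    rw [Derivation.leibniz, Derivation.leibniz_pow, Derivation.map_algebraMap, smul_zero, add_zero,
      map_mul, map_natCast]
    simp only [smul_eq_mul, nsmul_eq_mul]
    ring

theorem pd_ev_self (k : Fin N) (p : Polynomial ℝ) :
    MvPolynomial.pderiv k (ev k p) = ev k (Polynomial.derivative p) := by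
  rw [pd_ev, MvPolynomial.pderiv_X_self, mul_one]

theorem pd_ev_ne {i k : Fin N} (h : i ≠ k) (p : Polynomial ℝ) :
    MvPolynomial.pderiv i (ev k p) = 0 := by
  rw [pd_ev, MvPolynomial.pderiv_X_of_ne h.symm, mul_zero]

theorem eval_ev (z : Fin N → ℝ) (k : Fin N) (p : Polynomial ℝ) :
    MvPolynomial.eval z (ev k p) = p.eval (z k) := by
  rw [ev, Polynomial.aeval_def, Polynomial.hom_eval₂, MvPolynomial.eval_X]
  have h : (MvPolynomial.eval z).comp (algebraMap ℝ (MvPolynomial (Fin N) ℝ)) = RingHom.id ℝ := by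
    ext r
    simp
  rw [h, Polynomial.eval₂_id]

theorem pd_prod (G : Fin N → Polynomial ℝ) (j : Fin N) (s : Finset (Fin N)) (hj : j ∈ s) :
    MvPolynomial.pderiv j (∏ k ∈ s, ev k (G k)) =
      (∏ k ∈ s.erase j, ev k (G k)) * ev j (Polynomial.derivative (G j)) := by
  have h0 : ∀ t : Finset (Fin N), j ∉ t →
      MvPolynomial.pderiv j (∏ k ∈ t, ev k (G k)) = 0 := by
    intro t
    induction t using Finset.induction_on with
    | empty => intro _; simp
    | insert a t ha ih =>
      intro h
      rw [Finset.mem_insert, not_or] at h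
      rw [Finset.prod_insert ha, Derivation.leibniz, ih h.2, pd_ev_ne h.1, smul_zero, smul_zero,
        add_zero]
  rw [← Finset.mul_prod_erase s _ hj, Derivation.leibniz, h0 _ (Finset.notMem_erase j s),
    pd_ev_self, smul_zero, zero_add, smul_eq_mul]

theorem eval_pd2 (G : Fin N → Polynomial ℝ) {i j : Fin N} (hij : i ≠ j) (z : Fin N → ℝ) :
    MvPolynomial.eval z (MvPolynomial.pderiv i (MvPolynomial.pderiv j (∏ k, ev k (G k)))) =
      (∏ k ∈ (Finset.univ.erase j).erase i, (G k).eval (z k)) *
        ((Polynomial.derivative (G i)).eval (z i) * (Polynomial.derivative (G j)).eval (z j)) := by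
  rw [pd_prod G j _ (Finset.mem_univ j), Derivation.leibniz, pd_ev_ne hij,
    pd_prod G i _ (Finset.mem_erase.2 ⟨hij, Finset.mem_univ i⟩), smul_zero, zero_add, smul_eq_mul,
    map_mul, map_mul, map_prod, eval_ev, eval_ev]
  simp only [eval_ev]
  ring

theorem coeff_zero (F : MvPolynomial (Fin N) ℝ) : F.coeff 0 = MvPolynomial.eval 0 F := by
  rw [MvPolynomial.eval_zero, MvPolynomial.constantCoeff_eq]

end StepBAux

open StepBAux in
theorem stepBStmt : StepBStmt := by
  intro N g h0 hg
  refine ⟨fun hN => ⟨?_, fun i j hij z hz => ?_⟩, ?_, fun i j hij z hz => ?_⟩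
  · rw [coeff_zero, map_prod]
    exact Finset.prod_eq_zero (Finset.mem_univ ⟨0, hN⟩) ((eval_ev 0 _ _).trans (h0 _))
  · rw [eval_pd2 g hij z]
    exact mul_nonneg (Finset.prod_nonneg fun k _ => (hg k _ (hz k)).1)
      (mul_nonneg (hg i _ (hz i)).2.2 (hg j _ (hz j)).2.2)
  · rw [coeff_zero, map_sub, map_prod, map_one, sub_eq_zero]
    refine Finset.prod_eq_one fun k _ => ?_
    rw [map_sub, map_one, sub_eq_self]
    exact (eval_ev 0 _ _).trans (h0 k)
  · have h1 : (∏ k, (1 - Polynomial.aeval (MvPolynomial.X k : MvPolynomial (Fin N) ℝ) (g k))) =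
        ∏ k, ev k (1 - g k) := by
      refine Finset.prod_congr rfl fun k _ => ?_
      rw [ev, map_sub, map_one]
    rw [h1, map_sub, Derivation.map_one_eq_zero, sub_zero, eval_pd2 (fun k => 1 - g k) hij z]
    simp only [Polynomial.derivative_sub, Polynomial.derivative_one, zero_sub, Polynomial.eval_neg,
      neg_mul_neg, Polynomial.eval_sub, Polynomial.eval_one]
    exact mul_nonneg (Finset.prod_nonneg fun k _ => sub_nonneg.2 (hg k _ (hz k)).2.1)
      (mul_nonneg (hg i _ (hz i)).2.2 (hg j _ (hz j)).2.2)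

end Pool.Agent.Lib.MP_0c1c75_co.KG
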