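import Pool.Agent.Lib.MP_0c1c75_co.KG.GaussInt
import Pool.Agent.Lib.MP_0c1c75_co.KG.Diff
import Pool.Agent.Lib.MP_0c1c75_co.KG.RepA
import Pool.Agent.Lib.MP_0c1c75_co.KG.Rep
import Pool.Agent.Lib.MP_0c1c75_co.KG.Psi
import Pool.Agent.Lib.MP_0c1c75_co.KG.Ddi
import Pool.Agent.Lib.MP_0c1c75_co.KG.Roots
import Pool.Agent.Lib.MP_0c1c75_co.KG.Hconv
import Pool.Agent.Lib.MP_0c1c75_co.KG.Tder
import Pool.Agent.Lib.MP_0c1c75_co.KG.Tsub
import Pool.Agent.Lib.MP_0c1c75_co.KG.Coarea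
import Pool.Agent.Lib.MP_0c1c75_co.KG.Layer
import Pool.Agent.Lib.MP_0c1c75_co.KG.ML2
import Pool.Agent.Lib.MP_0c1c75_co.KG.KPT
import Pool.Agent.Lib.MP_0c1c75_co.KG.Nfg
import Pool.Agent.Lib.MP_0c1c75_co.KG.Core
import Pool.Agent.Lib.MP_0c1c75_co.KG.StepA
import Pool.Agent.Lib.MP_0c1c75_co.KG.StepB
import Pool.Agent.Lib.MP_0c1c75_co.KG.Step

/-!
Theorem G': the final assembly.
-/

set_option autoImplicit false

open MeasureTheory Set Filter Topology

namespace Pool.Agent.Lib.MP_0c1c75_co.KG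

theorem ml2All : ML2Stmt :=
  ml2Stmt psiStmt rootsStmt (tderStmt psiStmt ddiStmt hconvStmt)
    (tsubStmt psiStmt ddiStmt hconvStmt) coareaStmt layerStmt

theorem kptAll : KPTStmt := kptStmt (repStmt repAStmt) ml2All

theorem coreAll : CoreStmt := coreStmt diffStmt kptAll

theorem finalStmt : FinalStmt := by
  intro d N p q a a' c hd hcon hspan hquad r
  exact stepStmt gaussStmt stepAStmt stepBStmt d N p q (by omega)
    (coreAll d N p q hcon (nfgStmt d N p q a a' c hd hspan hquad)) r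

end Pool.Agent.Lib.MP_0c1c75_co.KG
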