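import Pool.Agent.Lib.MP_0c1c75_co.KG.Spec

/-!
# Coarea formula for `f(a) + v²`
-/

set_option autoImplicit false

open MeasureTheory Set Filter Topology

namespace Pool.Agent.Lib.MP_0c1c75_co.KG

namespace CoareaAux

open ENNReal

/-- the density -/
noncomputable def dens (c h : ℝ) : ENNReal :=
  (Ioi c).indicator (fun h => ENNReal.ofReal ((h - c) ^ (-(1 / 2) : ℝ))) h

theorem half (c : ℝ) (F : ℝ → ENNReal) :
    ∫⁻ h in Ioi c, ENNReal.ofReal ((h - c) ^ (-(1 / 2) : ℝ)) * F h =
      ∫⁻ v in Ioi (0 : ℝ), 2 * F (c + v ^ 2) := by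
  have himg : (fun v : ℝ => c + v ^ 2) '' Ioi 0 = Ioi c := by
    ext h
    constructor
    · rintro ⟨v, hv, rfl⟩
      have : 0 < v ^ 2 := pow_pos hv 2
      show c < c + v ^ 2
      linarith
    · intro hh
      have hh' : 0 < h - c := sub_pos.mpr hh
      refine ⟨Real.sqrt (h - c), Real.sqrt_pos.mpr hh', ?_⟩
      show c + Real.sqrt (h - c) ^ 2 = h
      rw [Real.sq_sqrt hh'.le]
      ring
  have hder : ∀ x ∈ Ioi (0 : ℝ), HasDerivWithinAt (fun v : ℝ => c + v ^ 2) (2 * x) (Ioi 0) x := by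
    intro x _
    have h1 : HasDerivAt (fun v : ℝ => c + v ^ 2) (2 * x) x := by
      have h2 := (hasDerivAt_pow 2 x).const_add c
      simpa using h2
    exact h1.hasDerivWithinAt
  have hinj : InjOn (fun v : ℝ => c + v ^ 2) (Ioi 0) := by
    intro x hx y hy hxy
    have h1 : x ^ 2 = y ^ 2 := by
      have : c + x ^ 2 = c + y ^ 2 := hxy
      linarith
    exact (pow_left_inj₀ (le_of_lt hx) (le_of_lt hy) two_ne_zero).mp h1
  have key := lintegral_image_eq_lintegral_abs_deriv_mul measurableSet_Ioi hder hinj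
    (fun h => ENNReal.ofReal ((h - c) ^ (-(1 / 2) : ℝ)) * F h)
  rw [himg] at key
  rw [key]
  refine setLIntegral_congr_fun measurableSet_Ioi fun v hv => ?_
  have hv' : (0 : ℝ) < v := hv
  have e1 : c + v ^ 2 - c = v ^ 2 := by ring
  have e2 : (v ^ 2) ^ (-(1 / 2) : ℝ) = v⁻¹ := by
    rw [← Real.rpow_natCast v 2, ← Real.rpow_mul hv'.le, ← Real.rpow_neg_one]
    norm_num
  show ENNReal.ofReal |2 * v| * (ENNReal.ofReal ((c + v ^ 2 - c) ^ (-(1 / 2) : ℝ)) * F (c + v ^ 2)) =
    2 * F (c + v ^ 2)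
  rw [e1, e2, ← mul_assoc, ← ENNReal.ofReal_mul (abs_nonneg _), abs_of_pos (by positivity)]
  congr 1
  have e3 : 2 * v * v⁻¹ = 2 := by
    field_simp
  rw [e3]
  norm_num

theorem line (c : ℝ) (F : ℝ → ENNReal) :
    ∫⁻ v, F (c + v ^ 2) = ∫⁻ h, dens c h * F h := by
  have h1 : ∫⁻ h, dens c h * F h =
      ∫⁻ h in Ioi c, ENNReal.ofReal ((h - c) ^ (-(1 / 2) : ℝ)) * F h := by
    rw [← lintegral_indicator measurableSet_Ioi]
    refine lintegral_congr fun h => ?_
    by_cases hh : h ∈ Ioi c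
    · rw [dens, indicator_of_mem hh, indicator_of_mem hh]
    · rw [dens, indicator_of_notMem hh, indicator_of_notMem hh, zero_mul]
  rw [h1, half]
  have h2 : ∫⁻ v in Iio (0 : ℝ), F (c + v ^ 2) = ∫⁻ v in Ioi (0 : ℝ), F (c + v ^ 2) := by
    have hmp : MeasurePreserving (fun x : ℝ => -x) volume volume := Measure.measurePreserving_neg volume
    have h3 := hmp.setLIntegral_comp_preimage_emb (MeasurableEquiv.neg ℝ).measurableEmbedding
      (fun v => F (c + v ^ 2)) (Iio 0)
    have h4 : (fun x : ℝ => -x) ⁻¹' Iio 0 = Ioi 0 := by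
      ext x
      simp
    rw [h4] at h3
    rw [← h3]
    refine lintegral_congr fun v => ?_
    rw [neg_sq]
  have h5 : ∫⁻ v, F (c + v ^ 2) = (∫⁻ v in Ioi (0 : ℝ), F (c + v ^ 2)) +
      (∫⁻ v in Iio (0 : ℝ), F (c + v ^ 2)) := by
    have h6 := lintegral_add_compl (μ := volume) (fun v => F (c + v ^ 2))
      (measurableSet_Ioi (a := (0 : ℝ)))
    rw [compl_Ioi] at h6
    rw [← h6]
    congr 1
    exact setLIntegral_congr Iio_ae_eq_Iic.symm
  rw [h5, h2, lintegral_const_mul' 2 _ (by norm_num), two_mul]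

theorem meas_dens : Measurable fun p : ℝ × ℝ => dens p.1 p.2 := by
  have h1 : (fun p : ℝ × ℝ => dens p.1 p.2) = {p : ℝ × ℝ | p.1 < p.2}.indicator
      fun p => ENNReal.ofReal ((p.2 - p.1) ^ (-(1 / 2) : ℝ)) := by
    funext p
    by_cases hp : p.1 < p.2
    · rw [dens, indicator_of_mem (show p.2 ∈ Ioi p.1 from hp),
        indicator_of_mem (show p ∈ {p : ℝ × ℝ | p.1 < p.2} from hp)]
    · rw [dens, indicator_of_notMem (show p.2 ∉ Ioi p.1 from hp),
        indicator_of_notMem (show p ∉ {p : ℝ × ℝ | p.1 < p.2} from hp)]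
  rw [h1]
  refine Measurable.indicator ?_ (measurableSet_lt measurable_fst measurable_snd)
  exact ((measurable_snd.sub measurable_fst).pow_const _).ennreal_ofReal

/-- the map `(a, v) ↦ (a, f a + v²)` and its image measure -/
theorem map_eq (f : ℝ → ℝ) (hf : Measurable f) (μ : Measure ℝ) [SFinite μ] :
    (μ.prod volume).map (fun x : ℝ × ℝ => (x.1, f x.1 + x.2 ^ 2)) =
      (μ.prod volume).withDensity fun x => dens (f x.1) x.2 := by
  have hΦ : Measurable fun x : ℝ × ℝ => (x.1, f x.1 + x.2 ^ 2) :=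
    measurable_fst.prodMk ((hf.comp measurable_fst).add (measurable_snd.pow_const 2))
  have hd : Measurable fun x : ℝ × ℝ => dens (f x.1) x.2 :=
    meas_dens.comp ((hf.comp measurable_fst).prodMk measurable_snd)
  refine Measure.ext fun s hs => ?_
  rw [Measure.map_apply hΦ hs, withDensity_apply _ hs, ← lintegral_indicator hs,
    ← lintegral_indicator_one (hΦ hs), lintegral_prod _ ?_, lintegral_prod _ ?_]
  · refine lintegral_congr fun a => ?_
    have h1 := line (f a) (fun h => s.indicator 1 (a, h))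
    have h2 : ∫⁻ v, ((fun x : ℝ × ℝ => (x.1, f x.1 + x.2 ^ 2)) ⁻¹' s).indicator
        (1 : ℝ × ℝ → ENNReal) (a, v) = ∫⁻ v, s.indicator 1 (a, f a + v ^ 2) := rfl
    rw [h2, h1]
    refine lintegral_congr fun h => ?_
    by_cases hh : (a, h) ∈ s
    · rw [indicator_of_mem hh, indicator_of_mem hh]
      exact mul_one _
    · rw [indicator_of_notMem hh, indicator_of_notMem hh]
      exact mul_zero _
  · exact (hd.indicator hs).aemeasurable
  · exact (measurable_one.indicator (hΦ hs)).aemeasurable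

end CoareaAux

open CoareaAux

theorem coareaStmt : CoareaStmt := by
  intro W f g hW hf hW0 hg hint
  classical
  -- measurable versions
  let W1 : ℝ → ℝ := (Ioo (0 : ℝ) 1).indicator W
  let f1 : ℝ → ℝ := (Ioo (0 : ℝ) 1).indicator f
  have hW1 : Measurable W1 := by
    have h := hW.measurable_piecewise (continuous_const (y := (0 : ℝ))).continuousOn measurableSet_Ioo
    have e : (Ioo (0 : ℝ) 1).piecewise W (fun _ => (0 : ℝ)) = W1 := Set.piecewise_eq_indicator
    rw [e] at h
    exact h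
  have hf1 : Measurable f1 := by
    have h := hf.measurable_piecewise (continuous_const (y := (0 : ℝ))).continuousOn measurableSet_Ioo
    have e : (Ioo (0 : ℝ) 1).piecewise f (fun _ => (0 : ℝ)) = f1 := Set.piecewise_eq_indicator
    rw [e] at h
    exact h
  have eW : ∀ a ∈ Ioo (0 : ℝ) 1, W1 a = W a := fun a ha => indicator_of_mem ha _
  have ef : ∀ a ∈ Ioo (0 : ℝ) 1, f1 a = f a := fun a ha => indicator_of_mem ha _
  let μ : Measure ℝ := volume.restrict (Ioo (0 : ℝ) 1)
  have hstrip : (volume : Measure (ℝ × ℝ)).restrict strip = μ.prod volume := by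
    rw [strip, Measure.volume_eq_prod, ← Measure.prod_restrict, Measure.restrict_univ]
  have hsm : MeasurableSet strip := measurableSet_Ioo.prod MeasurableSet.univ
  let Φ : ℝ × ℝ → ℝ × ℝ := fun x => (x.1, f1 x.1 + x.2 ^ 2)
  have hΦ : Measurable Φ :=
    measurable_fst.prodMk ((hf1.comp measurable_fst).add (measurable_snd.pow_const 2))
  let H : ℝ × ℝ → ℝ := fun x => W1 x.1 * g x.2
  have hH : Measurable H := (hW1.comp measurable_fst).mul (hg.measurable.comp measurable_snd)
  let D : ℝ × ℝ → ENNReal := fun x => dens (f1 x.1) x.2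
  have hD : Measurable D := meas_dens.comp ((hf1.comp measurable_fst).prodMk measurable_snd)
  have hDtop : ∀ x, D x < ⊤ := by
    intro x
    show (Ioi (f1 x.1)).indicator (fun h => ENNReal.ofReal ((h - f1 x.1) ^ (-(1 / 2) : ℝ))) x.2 < ⊤
    by_cases hx : x.2 ∈ Ioi (f1 x.1)
    · rw [indicator_of_mem hx]
      exact ENNReal.ofReal_lt_top
    · rw [indicator_of_notMem hx]
      exact ENNReal.zero_lt_top
  have hmap : (μ.prod volume).map Φ = (μ.prod volume).withDensity D := map_eq f1 hf1 μ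
  have hpt : ∀ x ∈ strip, W x.1 * g (f x.1 + x.2 ^ 2) = H (Φ x) := by
    intro x hx
    show W x.1 * g (f x.1 + x.2 ^ 2) = W1 x.1 * g (f1 x.1 + x.2 ^ 2)
    rw [eW x.1 hx.1, ef x.1 hx.1]
  have hint1 : Integrable (fun x => H (Φ x)) (μ.prod volume) := by
    rw [← hstrip]
    exact IntegrableOn.congr_fun hint hpt hsm
  have hint2 : Integrable H ((μ.prod volume).map Φ) :=
    (integrable_map_measure hH.aestronglyMeasurable hΦ.aemeasurable).mpr hint1
  rw [hmap] at hint2
  let K : ℝ × ℝ → ℝ := fun x => (D x).toReal * H x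
  have hK : Integrable K (μ.prod volume) :=
    (integrable_withDensity_iff_integrable_smul' hD (Filter.Eventually.of_forall hDtop)).mp hint2
  have hKint : ∫ x in strip, W x.1 * g (f x.1 + x.2 ^ 2) = ∫ x, K x ∂(μ.prod volume) := by
    rw [setIntegral_congr_fun hsm hpt, hstrip,
      ← integral_map hΦ.aemeasurable hH.aestronglyMeasurable, hmap,
      integral_withDensity_eq_integral_toReal_smul hD (Filter.Eventually.of_forall hDtop)]
    rfl
  have hinner : ∀ h : ℝ, ∫ a, K (a, h) ∂μ = g h * ∫ a in {a | a ∈ Ioo (0 : ℝ) 1 ∧ f a < h},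
      W a * (h - f a) ^ (-(1 / 2) : ℝ) := by
    intro h
    have hms : MeasurableSet {a : ℝ | f1 a < h} := measurableSet_lt hf1 measurable_const
    have hset : {a | a ∈ Ioo (0 : ℝ) 1 ∧ f a < h} = Ioo (0 : ℝ) 1 ∩ {a : ℝ | f1 a < h} := by
      ext a
      constructor
      · rintro ⟨h1, h2⟩
        refine ⟨h1, ?_⟩
        show f1 a < h
        rw [ef a h1]
        exact h2
      · rintro ⟨h1, h2⟩
        refine ⟨h1, ?_⟩
        have h3 : f1 a < h := h2
        rw [ef a h1] at h3
        exact h3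
    rw [hset, ← integral_const_mul]
    have h1 : ∀ a, K (a, h) = {a : ℝ | f1 a < h}.indicator
        (fun a => g h * (W1 a * (h - f1 a) ^ (-(1 / 2) : ℝ))) a := by
      intro a
      show (dens (f1 a) h).toReal * (W1 a * g h) = _
      by_cases ha : f1 a < h
      · rw [indicator_of_mem (show a ∈ {a : ℝ | f1 a < h} from ha), dens,
          indicator_of_mem (show h ∈ Ioi (f1 a) from ha),
          ENNReal.toReal_ofReal (Real.rpow_nonneg (sub_nonneg.mpr ha.le) _)]
        ring
      · rw [indicator_of_notMem (show a ∉ {a : ℝ | f1 a < h} from ha), dens,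
          indicator_of_notMem (show h ∉ Ioi (f1 a) from ha), ENNReal.toReal_zero, zero_mul]
    rw [integral_congr_ae (Filter.Eventually.of_forall h1)]
    show ∫ a in Ioo (0 : ℝ) 1, {a : ℝ | f1 a < h}.indicator
        (fun a => g h * (W1 a * (h - f1 a) ^ (-(1 / 2) : ℝ))) a = _
    rw [setIntegral_indicator hms]
    refine setIntegral_congr_fun (measurableSet_Ioo.inter hms) fun a ha => ?_
    show g h * (W1 a * (h - f1 a) ^ (-(1 / 2) : ℝ)) = g h * (W a * (h - f a) ^ (-(1 / 2) : ℝ))
    rw [eW a ha.1, ef a ha.1]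
  constructor
  · have h1 := hK.integral_prod_right
    refine h1.congr (Filter.Eventually.of_forall fun h => ?_)
    exact hinner h
  · rw [hKint, integral_prod_symm K hK]
    exact integral_congr_ae (Filter.Eventually.of_forall fun h => hinner h)

end Pool.Agent.Lib.MP_0c1c75_co.KG
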