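import Pool.Agent.Lib.MP_0c1c75_co.KG.Spec

/-!
MP_0c1c75_co, KG/GaussInt: the integral of a polynomial in Gaussian functions.
-/

set_option autoImplicit false

open MeasureTheory Set Filter Topology

namespace Pool.Agent.Lib.MP_0c1c75_co.KG

namespace GaussIntAux

variable {N d : ℕ}

private lemma nn_pos {l : Fin N →₀ ℕ} (hl : l ≠ 0) : 0 < nn l := by
  unfold nn
  obtain ⟨i, hi⟩ : ∃ i, l i ≠ 0 := by
    by_contra h
    push Not at h
    exact hl (Finsupp.ext h)
  refine Finset.sum_pos' (fun i _ => Nat.cast_nonneg _) ⟨i, Finset.mem_univ i, ?_⟩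
  exact_mod_cast Nat.pos_of_ne_zero hi

/-- the centre of mass -/
private noncomputable def cen (p : Fin N → E d) (l : Fin N →₀ ℕ) : E d :=
  (nn l)⁻¹ • ∑ i, (l i : ℝ) • p i

private lemma cen_sum (p : Fin N → E d) {l : Fin N →₀ ℕ} (hl : l ≠ 0) :
    ∑ i, (l i : ℝ) • (p i - cen p l) = 0 := by
  have hn := nn_pos hl
  have h1 : ∑ i, (l i : ℝ) • (p i - cen p l) =
      ∑ i, (l i : ℝ) • p i - (∑ i, (l i : ℝ)) • cen p l := by
    rw [Finset.sum_smul, ← Finset.sum_sub_distrib]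
    exact Finset.sum_congr rfl fun i _ => smul_sub _ _ _
  have h2 : (∑ i, (l i : ℝ)) = nn l := rfl
  rw [h1, h2, cen, smul_smul, mul_inv_cancel₀ hn.ne', one_smul, sub_self]

/-- completing the square -/
private lemma square (p : Fin N → E d) {l : Fin N →₀ ℕ} (hl : l ≠ 0) (x : E d) :
    ∑ i, (l i : ℝ) * ‖x - p i‖ ^ 2 = nn l * ‖x - cen p l‖ ^ 2 + qq (DD p) l / nn l := by
  have hn := nn_pos hl
  obtain ⟨y, hy⟩ : ∃ y : Fin N → E d, y = fun i => p i - cen p l := ⟨_, rfl⟩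
  obtain ⟨w, hw⟩ : ∃ w : E d, w = x - cen p l := ⟨_, rfl⟩
  have hs : ∑ i, (l i : ℝ) • y i = 0 := by
    rw [hy]
    exact cen_sum p hl
  have h1 : ∀ i, ‖x - p i‖ ^ 2 = ‖w‖ ^ 2 - 2 * inner ℝ w (y i) + ‖y i‖ ^ 2 := by
    intro i
    have h2 : x - p i = w - y i := by
      rw [hw, hy]
      exact (sub_sub_sub_cancel_right x (p i) (cen p l)).symm
    rw [h2, norm_sub_sq_real]
  have h3 : ∑ i, (l i : ℝ) * ‖x - p i‖ ^ 2 =
      nn l * ‖w‖ ^ 2 + ∑ i, (l i : ℝ) * ‖y i‖ ^ 2 := by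
    have h4 : ∑ i, (l i : ℝ) * inner ℝ w (y i) = 0 := by
      have h5 : inner ℝ w (∑ i, (l i : ℝ) • y i) = ∑ i, (l i : ℝ) * inner ℝ w (y i) := by
        rw [inner_sum]
        exact Finset.sum_congr rfl fun i _ => by rw [real_inner_smul_right]
      rw [← h5, hs, inner_zero_right]
    have h6 : ∀ i, (l i : ℝ) * ‖x - p i‖ ^ 2 = (l i : ℝ) * ‖w‖ ^ 2 -
        2 * ((l i : ℝ) * inner ℝ w (y i)) + (l i : ℝ) * ‖y i‖ ^ 2 := by
      intro i
      rw [h1 i]
      ring
    simp only [h6, Finset.sum_add_distrib, Finset.sum_sub_distrib, ← Finset.mul_sum,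
      ← Finset.sum_mul, h4]
    unfold nn
    ring
  have h7 : qq (DD p) l = nn l * ∑ i, (l i : ℝ) * ‖y i‖ ^ 2 := by
    have h8 : ∀ i j, DD p i j = ‖y i‖ ^ 2 - 2 * inner ℝ (y i) (y j) + ‖y j‖ ^ 2 := by
      intro i j
      unfold DD
      have h9 : p i - p j = y i - y j := by
        rw [hy]
        exact (sub_sub_sub_cancel_right (p i) (p j) (cen p l)).symm
      rw [h9, norm_sub_sq_real]
    have h10 : ∀ i, ∑ j, (l j : ℝ) * inner ℝ (y i) (y j) = 0 := by
      intro i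
      have h5 : inner ℝ (y i) (∑ j, (l j : ℝ) • y j) = ∑ j, (l j : ℝ) * inner ℝ (y i) (y j) := by
        rw [inner_sum]
        exact Finset.sum_congr rfl fun j _ => by rw [real_inner_smul_right]
      rw [← h5, hs, inner_zero_right]
    have h11 : ∀ i, ∑ j, (l i : ℝ) * (l j : ℝ) * DD p i j =
        nn l * ((l i : ℝ) * ‖y i‖ ^ 2) + (l i : ℝ) * ∑ j, (l j : ℝ) * ‖y j‖ ^ 2 := by
      intro i
      have h12 : ∀ j, (l i : ℝ) * (l j : ℝ) * DD p i j = (l j : ℝ) * ((l i : ℝ) * ‖y i‖ ^ 2) -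
          2 * (l i : ℝ) * ((l j : ℝ) * inner ℝ (y i) (y j)) + (l i : ℝ) * ((l j : ℝ) * ‖y j‖ ^ 2) := by
        intro j
        rw [h8 i j]
        ring
      simp only [h12, Finset.sum_add_distrib, Finset.sum_sub_distrib]
      rw [← Finset.sum_mul, ← Finset.mul_sum, ← Finset.mul_sum, h10 i]
      unfold nn
      ring
    unfold qq
    simp only [h11, Finset.sum_add_distrib]
    rw [← Finset.mul_sum, ← Finset.sum_mul]
    unfold nn
    ring
  rw [h3, h7, ← hw]
  field_simp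

private lemma gauss_int {n : ℝ} (hn : 0 < n) (c : E d) :
    Integrable (fun x : E d => Real.exp (-n * ‖x - c‖ ^ 2)) ∧
    ∫ x : E d, Real.exp (-n * ‖x - c‖ ^ 2) = (Real.pi / n) ^ ((d : ℝ) / 2) := by
  have h1 : Integrable (fun x : E d => Real.exp (-n * ‖x‖ ^ 2)) := by
    have h2 := (GaussianFourier.integrable_cexp_neg_mul_sq_norm_add (V := E d)
      (b := (n : ℂ)) (by simpa using hn) 0 0).norm
    refine h2.congr (Filter.Eventually.of_forall fun x => ?_)
    simp only [Complex.norm_exp]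
    congr 1
    simp [← Complex.ofReal_pow, ← Complex.ofReal_neg, ← Complex.ofReal_mul]
  refine ⟨h1.comp_sub_right c, ?_⟩
  rw [integral_sub_right_eq_self (fun x : E d => Real.exp (-n * ‖x‖ ^ 2)) c,
    GaussianFourier.integral_rexp_neg_mul_sq_norm hn, finrank_euclideanSpace_fin]

private lemma mono (p : Fin N → E d) {l : Fin N →₀ ℕ} (hl : l ≠ 0) (x : E d) :
    ∏ i, zz p x i ^ l i =
      Real.exp (-(qq (DD p) l) / nn l) * Real.exp (-nn l * ‖x - cen p l‖ ^ 2) := by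
  have h1 : ∏ i, zz p x i ^ l i = Real.exp (-∑ i, (l i : ℝ) * ‖x - p i‖ ^ 2) := by
    rw [← Finset.sum_neg_distrib, Real.exp_sum]
    refine Finset.prod_congr rfl fun i _ => ?_
    unfold zz
    rw [← Real.exp_nat_mul]
    congr 1
    ring
  rw [h1, square p hl x, ← Real.exp_add]
  congr 1
  ring

end GaussIntAux

open GaussIntAux in
theorem gaussStmt : GaussStmt := by
  intro d N p F hF
  have h0 : ∀ l ∈ F.support, l ≠ 0 := by
    rintro l hl rfl
    exact (MvPolynomial.mem_support_iff.1 hl) hF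
  have h1 : (fun x : E d => MvPolynomial.eval (zz p x) F) = fun x => ∑ l ∈ F.support,
      F.coeff l * (Real.exp (-(qq (DD p) l) / nn l) *
        Real.exp (-nn l * ‖x - cen p l‖ ^ 2)) := by
    funext x
    rw [MvPolynomial.eval_eq']
    exact Finset.sum_congr rfl fun l hl => by rw [mono p (h0 l hl) x]
  have h2 : ∀ l ∈ F.support, Integrable (fun x : E d => F.coeff l *
      (Real.exp (-(qq (DD p) l) / nn l) * Real.exp (-nn l * ‖x - cen p l‖ ^ 2))) := fun l hl =>
    (((gauss_int (nn_pos (h0 l hl)) (cen p l)).1).const_mul _).const_mul _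
  rw [h1]
  refine ⟨integrable_finsetSum _ h2, ?_⟩
  rw [integral_finsetSum _ h2]
  unfold val
  refine Finset.sum_congr rfl fun l hl => ?_
  rw [integral_const_mul, integral_const_mul, (gauss_int (nn_pos (h0 l hl)) (cen p l)).2]
  unfold gv
  ring

end Pool.Agent.Lib.MP_0c1c75_co.KG
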