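import Mathlib

/-!
# Theorem G (Kneser-Poulsen for `N = d + 4` balls in every dimension, and the quadric class in
# dimension three): specification

Everything is reduced to polynomials `F` in the functions `z_i = exp (-|x - p_i|^2)`.
`D i j` is always the squared distance of the points `i` and `j`.
-/

set_option autoImplicit false

open MeasureTheory Set Filter Topology

namespace Pool.Agent.Lib.MP_0c1c75_co.KG

/-- Euclidean space -/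
abbrev E (d : ℕ) := EuclideanSpace ℝ (Fin d)

/-! ## Polynomials -/

section poly

variable {N : ℕ}

/-- total exponent -/
def nn (l : Fin N →₀ ℕ) : ℝ := ∑ i, (l i : ℝ)

/-- `∑_{i<j} l_i l_j D_ij` for symmetric `D` with zero diagonal -/
noncomputable def qq (D : Fin N → Fin N → ℝ) (l : Fin N →₀ ℕ) : ℝ :=
  (1 / 2) * ∑ i, ∑ j, (l i : ℝ) * (l j : ℝ) * D i j

/-- the integral of the monomial `z^l` over `E d` -/
noncomputable def gv (d : ℕ) (D : Fin N → Fin N → ℝ) (l : Fin N →₀ ℕ) : ℝ :=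
  (Real.pi / nn l) ^ ((d : ℝ) / 2) * Real.exp (-(qq D l) / nn l)

/-- the integral of the polynomial `F` over `E d` -/
noncomputable def val (d : ℕ) (D : Fin N → Fin N → ℝ) (F : MvPolynomial (Fin N) ℝ) : ℝ :=
  ∑ l ∈ F.support, F.coeff l * gv d D l

/-- the kernel functional on monomials -/
noncomputable def mw (κ : ℝ) (D D' : Fin N → Fin N → ℝ) (l : Fin N →₀ ℕ) : ℝ :=
  (nn l) ^ (-κ) *
    ∫ a in (0 : ℝ)..1, Real.exp (-((1 - a) * qq D l + a * qq D' l) / nn l)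

/-- the kernel functional -/
noncomputable def LL (κ : ℝ) (D D' : Fin N → Fin N → ℝ) (P : MvPolynomial (Fin N) ℝ) : ℝ :=
  ∑ l ∈ P.support, P.coeff l * mw κ D D' l

/-- nonnegative on the cube, no constant term -/
def Pos0 (P : MvPolynomial (Fin N) ℝ) : Prop :=
  P.coeff 0 = 0 ∧ ∀ z : Fin N → ℝ, (∀ k, z k ∈ Icc (0 : ℝ) 1) → 0 ≤ MvPolynomial.eval z P

/-- supermodular on the cube, no constant term -/
def SM (F : MvPolynomial (Fin N) ℝ) : Prop :=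
  F.coeff 0 = 0 ∧ ∀ i j, i ≠ j → ∀ z : Fin N → ℝ, (∀ k, z k ∈ Icc (0 : ℝ) 1) →
    0 ≤ MvPolynomial.eval z (MvPolynomial.pderiv i (MvPolynomial.pderiv j F))

/-- the point `z(x)` -/
noncomputable def zz {d : ℕ} (p : Fin N → E d) (x : E d) : Fin N → ℝ :=
  fun i => Real.exp (-‖x - p i‖ ^ 2)

/-- squared distances -/
noncomputable def DD {d : ℕ} (p : Fin N → E d) : Fin N → Fin N → ℝ :=
  fun i j => ‖p i - p j‖ ^ 2

/-- contraction -/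
def Contr {d : ℕ} (p q : Fin N → E d) : Prop := ∀ i j, dist (q i) (q j) ≤ dist (p i) (p j)

/-- the inequality for all supermodular polynomials -/
def KP {d : ℕ} (p q : Fin N → E d) : Prop :=
  ∀ F : MvPolynomial (Fin N) ℝ, SM F → val d (DD p) F ≤ val d (DD q) F

end poly

/-- Module GAUSS. Completing the square: `∑ l_i |x-p_i|² = n |x-c|² + (1/n) qq D l`, `c` the mean;
then `GaussianFourier.integral_rexp_neg_mul_sq_norm` (or the product of 1-dimensional integrals). -/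
def GaussStmt : Prop :=
  ∀ (d N : ℕ) (p : Fin N → E d) (F : MvPolynomial (Fin N) ℝ), F.coeff 0 = 0 →
    Integrable (fun x : E d => MvPolynomial.eval (zz p x) F) ∧
    ∫ x : E d, MvPolynomial.eval (zz p x) F = val d (DD p) F

/-- Module DIFF. On a monomial `l ≠ 0` with `n = nn l`, `A = qq D l`, `B = qq D' l`:
`(π/n)^{d/2} (e^{-B/n} - e^{-A/n}) = π^{d/2} n^{-1-d/2} (A-B) ∫_0^1 e^{-((1-a)A+aB)/n} da`, and
`A - B = ½ ∑∑ l_i l_j (D i j - D' i j)`; for `i ≠ j` the coefficient of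
`X i * X j * pderiv i (pderiv j F)` at `l` is `l_i l_j F_l`; the diagonal terms vanish. -/
def DiffStmt : Prop :=
  ∀ (d N : ℕ) (D D' : Fin N → Fin N → ℝ), (∀ i, D i i = 0) → (∀ i, D' i i = 0) →
    ∀ F : MvPolynomial (Fin N) ℝ, F.coeff 0 = 0 →
    val d D' F - val d D F = Real.pi ^ ((d : ℝ) / 2) * ((1 / 2) * ∑ i, ∑ j, (D i j - D' i j) *
      LL (1 + (d : ℝ) / 2) D D' (MvPolynomial.X i * MvPolynomial.X j *
        MvPolynomial.pderiv i (MvPolynomial.pderiv j F)))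

/-! ## Normal form -/

/-- the modes: `r_k(a) = (1-a) μ_k + a ν_k`, `μ_k + ν_k = 1`, at least three `μ_k = 0`, at least
three `ν_k = 0` -/
structure Modes (m : ℕ) where
  μ : Fin m → ℝ
  ν : Fin m → ℝ
  hμ : ∀ k, 0 ≤ μ k
  hν : ∀ k, 0 ≤ ν k
  hs : ∀ k, μ k + ν k = 1
  hμ3 : 3 ≤ (Finset.univ.filter (fun k => μ k = 0)).card
  hν3 : 3 ≤ (Finset.univ.filter (fun k => ν k = 0)).card

namespace Modes

variable {m : ℕ} (M : Modes m)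

/-- `r_k(a)` -/
def r (k : Fin m) (a : ℝ) : ℝ := (1 - a) * M.μ k + a * M.ν k

/-- slope of `r_k` -/
def δ (k : Fin m) : ℝ := M.ν k - M.μ k

/-- `W(a) = ∏ r_k(a)^{-1/2}` -/
noncomputable def W (a : ℝ) : ℝ := ∏ k, (M.r k a) ^ (-(1 / 2) : ℝ)

/-- `ψ(a) = ∑ (Y_k - a b_k)² / r_k(a) - c a` -/
noncomputable def psi (b : Fin m → ℝ) (c : ℝ) (Y : Fin m → ℝ) (a : ℝ) : ℝ :=
  ∑ k, (Y k - a * b k) ^ 2 / M.r k a - c * a

/-- derivative of `ψ` -/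
noncomputable def psi1 (b : Fin m → ℝ) (c : ℝ) (Y : Fin m → ℝ) (a : ℝ) : ℝ :=
  ∑ k, (-(2 * b k * (Y k - a * b k)) / M.r k a -
    M.δ k * (Y k - a * b k) ^ 2 / M.r k a ^ 2) - c

/-- the residue `(Y_k δ_k + b_k μ_k)²` -/
def res (b Y : Fin m → ℝ) (k : Fin m) : ℝ := (Y k * M.δ k + b k * M.μ k) ^ 2

/-- second derivative of `ψ` -/
noncomputable def psi2 (b : Fin m → ℝ) (Y : Fin m → ℝ) (a : ℝ) : ℝ :=
  ∑ k, 2 * M.res b Y k / M.r k a ^ 3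

/-- second divided difference of `ψ` at `a1, a2, a` -/
noncomputable def EE (b : Fin m → ℝ) (Y : Fin m → ℝ) (a1 a2 a : ℝ) : ℝ :=
  ∑ k, M.res b Y k / (M.r k a1 * M.r k a2 * M.r k a)

/-- `Y` is not degenerate: `ψ → ∞` at both ends of `(0,1)` -/
def Good (b Y : Fin m → ℝ) : Prop := (∃ k, M.μ k = 0 ∧ Y k ≠ 0) ∧ (∃ k, M.ν k = 0 ∧ Y k ≠ b k)

end Modes

/-- normal form of a pair of configurations with squared distances `D`, `D'` -/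
def NF (m N : ℕ) (D D' : Fin N → Fin N → ℝ) : Prop :=
  ∃ (M : Modes m) (ζ : Fin N → Fin m → ℝ) (b : Fin m → ℝ) (c : ℝ),
    (∀ i j, D i j = ∑ k, M.μ k * (ζ i k - ζ j k) ^ 2) ∧
    (∀ i j, D' i j = ∑ k, M.ν k * (ζ i k - ζ j k) ^ 2) ∧
    (∀ i, ∑ k, (M.μ k - M.ν k) * ζ i k ^ 2 = 2 * ∑ k, b k * ζ i k + c)

/-- THEOREM KPT (positivity of the kernel), assembled from REP and ML2. -/
def KPTStmt : Prop :=
  ∀ (m N : ℕ) (D D' : Fin N → Fin N → ℝ), NF m N D D' → ∀ P : MvPolynomial (Fin N) ℝ, Pos0 P →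
    0 ≤ LL (((m : ℝ) - 1) / 2) D D' P

/-! ## The kernel representation -/

/-- `ω_i(Y) = 2 ∑ Y_k ζ_ik - ∑ μ_k ζ_ik²` -/
def om {m N : ℕ} (M : Modes m) (ζ : Fin N → Fin m → ℝ) (Y : Fin m → ℝ) (i : Fin N) : ℝ :=
  2 * ∑ k, Y k * ζ i k - ∑ k, M.μ k * ζ i k ^ 2

/-- integrand of the kernel representation of `mw`; `x = (Y, (a, v))` -/
noncomputable def kint {m N : ℕ} (M : Modes m) (ζ : Fin N → Fin m → ℝ) (b : Fin m → ℝ) (c : ℝ)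
    (l : Fin N →₀ ℕ) (x : (Fin m → ℝ) × (ℝ × ℝ)) : ℝ :=
  M.W x.2.1 * (nn l * Real.exp (-(nn l * (M.psi b c x.1 x.2.1 + x.2.2 ^ 2)) +
    ∑ i, (l i : ℝ) * om M ζ x.1 i))

/-- the domain `a ∈ (0,1)`, `v ∈ ℝ` -/
def strip : Set (ℝ × ℝ) := Ioo 0 1 ×ˢ univ

/-- Module REPA. For fixed `a ∈ (0,1)` substitute `Y_k = r_k(a) X_k + a b_k`:
`∑_k (Y_k - a b_k)²/r_k - c a - 2 ∑ Y_k ζ_ik + ∑ μ_k ζ_ik² = ∑_k r_k (X_k - ζ_ik)²` by the third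
condition of `NF`; 1-dimensional Gaussians in every `Y_k`, one more for `v`:
`∫ dY exp(..) = ∏ r_k · ∏ (π/(n r_k))^{1/2} · exp(-((1-a) qq D l + a qq D' l)/n)`. -/
def RepAStmt : Prop :=
  ∀ (m N : ℕ) (D D' : Fin N → Fin N → ℝ) (M : Modes m) (ζ : Fin N → Fin m → ℝ) (b : Fin m → ℝ)
    (c : ℝ),
    (∀ i j, D i j = ∑ k, M.μ k * (ζ i k - ζ j k) ^ 2) →
    (∀ i j, D' i j = ∑ k, M.ν k * (ζ i k - ζ j k) ^ 2) →
    (∀ i, ∑ k, (M.μ k - M.ν k) * ζ i k ^ 2 = 2 * ∑ k, b k * ζ i k + c) →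
    ∀ l : Fin N →₀ ℕ, l ≠ 0 → ∀ a ∈ Ioo (0 : ℝ) 1,
      Integrable (fun x : (Fin m → ℝ) × ℝ => kint M ζ b c l (x.1, (a, x.2))) ∧
      ∫ x : (Fin m → ℝ) × ℝ, kint M ζ b c l (x.1, (a, x.2)) =
        Real.pi ^ (((m : ℝ) + 1) / 2) * (nn l ^ (-(((m : ℝ) - 1) / 2)) *
          Real.exp (-((1 - a) * qq D l + a * qq D' l) / nn l))

/-- Module REP: REPA + Tonelli (`kint ≥ 0`). -/
def RepStmt : Prop :=
  ∀ (m N : ℕ) (D D' : Fin N → Fin N → ℝ) (M : Modes m) (ζ : Fin N → Fin m → ℝ) (b : Fin m → ℝ)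
    (c : ℝ),
    (∀ i j, D i j = ∑ k, M.μ k * (ζ i k - ζ j k) ^ 2) →
    (∀ i j, D' i j = ∑ k, M.ν k * (ζ i k - ζ j k) ^ 2) →
    (∀ i, ∑ k, (M.μ k - M.ν k) * ζ i k ^ 2 = 2 * ∑ k, b k * ζ i k + c) →
    ∀ l : Fin N →₀ ℕ, l ≠ 0 →
      Integrable (kint M ζ b c l) ((volume : Measure (Fin m → ℝ)).prod (volume.restrict strip)) ∧
      mw (((m : ℝ) - 1) / 2) D D' l = Real.pi ^ (-(((m : ℝ) + 1) / 2)) *
        ∫ x, kint M ζ b c l x ∂((volume : Measure (Fin m → ℝ)).prod (volume.restrict strip))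

/-- Module ML2 (the analytic core), assembled from the modules below. -/
def ML2Stmt : Prop :=
  ∀ (m : ℕ) (M : Modes m) (b Y : Fin m → ℝ) (c : ℝ), M.Good b Y →
    ∀ G G' : ℝ → ℝ, (∀ h, HasDerivAt G (G' h) h) → Continuous G' →
      (∀ a ∈ Ioo (0 : ℝ) 1, ∀ h, M.psi b c Y a ≤ h → 0 ≤ G h) → Tendsto G atTop (𝓝 0) →
      IntegrableOn (fun x : ℝ × ℝ => M.W x.1 * G' (M.psi b c Y x.1 + x.2 ^ 2)) strip →
      ∫ x in strip, M.W x.1 * G' (M.psi b c Y x.1 + x.2 ^ 2) ≤ 0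

/-! ## The analytic core -/

/-- Module PSI. Derivatives and limits of `ψ`. The second derivative of `(Y-ab)²/r` is
`2 (Yδ+bμ)²/r³`. -/
def PsiStmt : Prop :=
  ∀ (m : ℕ) (M : Modes m) (b Y : Fin m → ℝ) (c : ℝ),
    (∀ k, ∀ a ∈ Ioo (0 : ℝ) 1, 0 < M.r k a) ∧
    (∀ a ∈ Ioo (0 : ℝ) 1, HasDerivAt (M.psi b c Y) (M.psi1 b c Y a) a) ∧
    (∀ a ∈ Ioo (0 : ℝ) 1, HasDerivAt (M.psi1 b c Y) (M.psi2 b Y a) a) ∧
    (M.Good b Y → (∀ a ∈ Ioo (0 : ℝ) 1, 0 < M.psi2 b Y a) ∧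
      Tendsto (M.psi b c Y) (𝓝[>] 0) atTop ∧ Tendsto (M.psi b c Y) (𝓝[<] 1) atTop)

/-- Module DDI. The divided difference identity (algebra, for every `k` separately). -/
def DdiStmt : Prop :=
  ∀ (m : ℕ) (M : Modes m) (b Y : Fin m → ℝ) (c : ℝ),
    ∀ a1 ∈ Ioo (0 : ℝ) 1, ∀ a2 ∈ Ioo (0 : ℝ) 1, ∀ a ∈ Ioo (0 : ℝ) 1, a1 ≠ a2 →
      ∀ h, M.psi b c Y a1 = h → M.psi b c Y a2 = h →
        h - M.psi b c Y a = (a - a1) * (a2 - a) * M.EE b Y a1 a2 a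

/-- Module ROOTS. A strictly convex function on `(0,1)` which tends to infinity at both ends:
minimum and the two inverse branches with their derivatives. -/
def RootsStmt : Prop :=
  ∀ f f1 f2 : ℝ → ℝ, (∀ a ∈ Ioo (0 : ℝ) 1, HasDerivAt f (f1 a) a) →
    (∀ a ∈ Ioo (0 : ℝ) 1, HasDerivAt f1 (f2 a) a) → (∀ a ∈ Ioo (0 : ℝ) 1, 0 < f2 a) →
    Tendsto f (𝓝[>] 0) atTop → Tendsto f (𝓝[<] 1) atTop →
    ∃ (a0 : ℝ) (A1 A2 : ℝ → ℝ), a0 ∈ Ioo (0 : ℝ) 1 ∧ (∀ a ∈ Ioo (0 : ℝ) 1, f a0 ≤ f a) ∧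
      ∀ h, f a0 < h → 0 < A1 h ∧ A1 h < a0 ∧ a0 < A2 h ∧ A2 h < 1 ∧ f (A1 h) = h ∧
        f (A2 h) = h ∧ f1 (A1 h) < 0 ∧ 0 < f1 (A2 h) ∧
        HasDerivAt A1 (f1 (A1 h))⁻¹ h ∧ HasDerivAt A2 (f1 (A2 h))⁻¹ h ∧
        ∀ a ∈ Ioo (0 : ℝ) 1, (f a < h ↔ A1 h < a ∧ a < A2 h)

/-- `H = W E^{-3/2}` -/
noncomputable def HH {m : ℕ} (M : Modes m) (b Y : Fin m → ℝ) (a1 a2 a : ℝ) : ℝ :=
  M.W a * (M.EE b Y a1 a2 a) ^ (-(3 / 2) : ℝ)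

/-- Module HCONV. `H'' ≥ 0`. With `g_k = δ_k/r_k ∈ [-1/(1-a), 1/a]`, `π_k` the weights of `E`:
`(log H)'' = ½ ∑ g_k² - (3/2) (2⟨g²⟩ - ⟨g⟩²)`, `(g - 1/a)(g + 1/(1-a)) ≤ 0` gives
`2⟨g²⟩ - ⟨g⟩² ≤ 1/a² + 1/(1-a)²`, and three `g_k` are `1/a`, three are `-1/(1-a)`. -/
def HconvStmt : Prop :=
  ∀ (m : ℕ) (M : Modes m) (b Y : Fin m → ℝ), M.Good b Y →
    ∀ a1 ∈ Ioo (0 : ℝ) 1, ∀ a2 ∈ Ioo (0 : ℝ) 1,
      (∀ a ∈ Ioo (0 : ℝ) 1, 0 < M.EE b Y a1 a2 a) ∧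
      ∃ H1 H2 : ℝ → ℝ, ContinuousOn H2 (Ioo 0 1) ∧
        ∀ a ∈ Ioo (0 : ℝ) 1, HasDerivAt (HH M b Y a1 a2) (H1 a) a ∧ HasDerivAt H1 (H2 a) a ∧
          0 ≤ H2 a

/-- the intermediate point `a1 cos² φ + a2 sin² φ` -/
noncomputable def aph (a1 a2 φ : ℝ) : ℝ := a1 * Real.cos φ ^ 2 + a2 * Real.sin φ ^ 2

/-- `T` as a function of the two roots: `2 ∫_0^{π/2} W E^{-1/2} dφ` -/
noncomputable def TT {m : ℕ} (M : Modes m) (b Y : Fin m → ℝ) (a1 a2 : ℝ) : ℝ :=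
  2 * ∫ φ in (0 : ℝ)..(Real.pi / 2),
    M.W (aph a1 a2 φ) * (M.EE b Y a1 a2 (aph a1 a2 φ)) ^ (-(1 / 2) : ℝ)

/-- Module TDER. `T(h) = TT (A1 h) (A2 h)` has a derivative `≥ 0`.
With `m = (a1+a2)/2`, `w = (a2-a1)/2`, `σ = a - m`, `Π = w² - σ²`, `Γ = H E`, `' = d/dh`,
`τ = m' + w' σ / w`: on `(0, π/2)`
`2 ∂_h Γ = ∂_φ (Q/√Π) + H'' Π / w²`, `Q = Γ τ - ½ H σ/w² - ½ H' Π/w²`, `∂_φ = 2 √Π ∂_a`,
and `Q/√Π → 0` at both ends. -/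
def TderStmt : Prop :=
  ∀ (m : ℕ) (M : Modes m) (b Y : Fin m → ℝ) (c : ℝ), M.Good b Y →
    ∀ (h0 : ℝ) (A1 A2 : ℝ → ℝ),
      (∀ h, h0 < h → 0 < A1 h ∧ A1 h < A2 h ∧ A2 h < 1 ∧ M.psi b c Y (A1 h) = h ∧
        M.psi b c Y (A2 h) = h ∧
        HasDerivAt A1 (M.psi1 b c Y (A1 h))⁻¹ h ∧ HasDerivAt A2 (M.psi1 b c Y (A2 h))⁻¹ h ∧
        M.psi1 b c Y (A1 h) < 0 ∧ 0 < M.psi1 b c Y (A2 h)) →
      MonotoneOn (fun h => TT M b Y (A1 h) (A2 h)) (Ioi h0)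

/-- Module TSUB. The substitution `a = a1 cos² φ + a2 sin² φ`. -/
def TsubStmt : Prop :=
  ∀ (m : ℕ) (M : Modes m) (b Y : Fin m → ℝ) (c : ℝ), M.Good b Y →
    ∀ a1 a2 h : ℝ, 0 < a1 → a1 < a2 → a2 < 1 → M.psi b c Y a1 = h → M.psi b c Y a2 = h →
      IntegrableOn (fun a => M.W a * (h - M.psi b c Y a) ^ (-(1 / 2) : ℝ)) (Ioo a1 a2) ∧
      ∫ a in Ioo a1 a2, M.W a * (h - M.psi b c Y a) ^ (-(1 / 2) : ℝ) = TT M b Y a1 a2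

/-- Module COAREA. `∫∫ W(a) g(f(a)+v²) dv da = ∫ g(h) T(h) dh`, `T(h) = ∫_{f<h} W (h-f)^{-1/2}`
(for fixed `a` substitute `h = f(a) + v²` on `v > 0` and on `v < 0`, then Fubini). -/
def CoareaStmt : Prop :=
  ∀ (W f g : ℝ → ℝ), ContinuousOn W (Ioo 0 1) → ContinuousOn f (Ioo 0 1) →
    (∀ a ∈ Ioo (0 : ℝ) 1, 0 ≤ W a) → Continuous g →
    IntegrableOn (fun x : ℝ × ℝ => W x.1 * g (f x.1 + x.2 ^ 2)) strip →
    Integrable (fun h => g h * ∫ a in {a | a ∈ Ioo (0 : ℝ) 1 ∧ f a < h},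
      W a * (h - f a) ^ (-(1 / 2) : ℝ)) ∧
    ∫ x in strip, W x.1 * g (f x.1 + x.2 ^ 2) =
      ∫ h, g h * ∫ a in {a | a ∈ Ioo (0 : ℝ) 1 ∧ f a < h}, W a * (h - f a) ^ (-(1 / 2) : ℝ)

/-- Module LAYER. `∫ G' T ≤ 0` for `G ≥ 0` on `(h0, ∞)`, `G → 0`, `T ≥ 0` nondecreasing, `T = 0` on
`(-∞, h0]` (layer cake in `T`). -/
def LayerStmt : Prop :=
  ∀ (G G' T : ℝ → ℝ) (h0 : ℝ), (∀ h, HasDerivAt G (G' h) h) → Continuous G' →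
    (∀ h, h0 ≤ h → 0 ≤ G h) → Tendsto G atTop (𝓝 0) → (∀ h, h ≤ h0 → T h = 0) →
    (∀ h, 0 ≤ T h) → MonotoneOn T (Ioi h0) → Integrable (fun h => G' h * T h) →
    ∫ h, G' h * T h ≤ 0

/-! ## Normal forms -/

/-- Module NFQ. The quadric class in dimension three: `m = 6`, `ζ_i = (p_i - a, q_i - a')`, `b = 0`,
`μ = (1,1,1,0,0,0)`, `ν = (0,0,0,1,1,1)`. -/
def NfqStmt : Prop :=
  ∀ (N : ℕ) (p q : Fin N → E 3) (a a' : E 3) (c : ℝ),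
    (∀ i, ‖p i - a‖ ^ 2 - ‖q i - a'‖ ^ 2 = c) → NF 6 N (DD p) (DD q)

/-- Module NFG. Every dimension. Choose a subspace `V ⊇ span {(p_i - p_j, q_i - q_j)}` of
`E^d × E^d` (with the `L²` product, e.g. `WithLp 2 (E d × E d)`) of dimension exactly `d + 3`
(`≤ 2 d`), and an orthonormal basis `e_k`, `k < d + 3`, of `V` which diagonalises the symmetric form
`⟨x₁, y₁⟩` (eigenvector basis of the self-adjoint operator `P_V ∘ (x ↦ (x₁, 0))` on `V`).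
`μ_k = ‖(e_k)₁‖²`, `ν_k = ‖(e_k)₂‖² = 1 - μ_k`; `⟨(e_k)₁, (e_l)₁⟩ = ⟨(e_k)₂, (e_l)₂⟩ = 0` for
`k ≠ l`, so at most `d` of the `μ_k` are not zero, and at most `d` of the `ν_k`.
`ζ_ik = ⟨e_k, (p_i - p_0, q_i - q_0)⟩` and, with the hypothesis,
`∑_k (μ_k - ν_k) ζ_ik² = |p_i - p_0|² - |q_i - q_0|² = 2 ∑_k b_k ζ_ik`,
`b_k = -⟨(e_k)₁, p_0 - a⟩ + ⟨(e_k)₂, q_0 - a'⟩`. (`N = 0`: only `μ, ν` are needed.) -/
def NfgStmt : Prop :=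
  ∀ (d N : ℕ) (p q : Fin N → E d) (a a' : E d) (c : ℝ), 3 ≤ d →
    Module.finrank ℝ (Submodule.span ℝ {w : E d × E d | ∃ i j, w = (p i - p j, q i - q j)}) ≤
      d + 3 →
    (∀ i, ‖p i - a‖ ^ 2 - ‖q i - a'‖ ^ 2 = c) → NF (d + 3) N (DD p) (DD q)

/-- Module CORE: DIFF + KPT: normal form and contraction give the polynomial inequality. -/
def CoreStmt : Prop :=
  ∀ (d N : ℕ) (p q : Fin N → E d), Contr p q → NF (d + 3) N (DD p) (DD q) → KP p q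

/-! ## From polynomials to balls -/

/-- Module STEPA. `g_m(z) = 1 - (1 - z^m)^K`, `K = ⌈θ^{-m}⌉`, `m ≥ 1`: nondecreasing on `[0,1]`,
`0 ≤ g_m(z) ≤ K z^m ≤ 2 (z/θ)^m` and `g_m(z) ≤ 1`, so `g_m(z) ≤ 2 z/θ`; for `z > θ`
`1 - g_m(z) ≤ exp(-K z^m) → 0`. -/
def StepAStmt : Prop :=
  ∀ θ ∈ Ioo (0 : ℝ) 1, ∃ g : ℕ → Polynomial ℝ, (∀ n, (g n).eval 0 = 0) ∧
    (∀ n, ∀ z ∈ Icc (0 : ℝ) 1, 0 ≤ (g n).eval z ∧ (g n).eval z ≤ 1 ∧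
      (g n).eval z ≤ 2 / θ * z ∧ 0 ≤ (Polynomial.derivative (g n)).eval z) ∧
    (∀ z ∈ Icc (0 : ℝ) 1, z < θ → Tendsto (fun n => (g n).eval z) atTop (𝓝 0)) ∧
    (∀ z ∈ Icc (0 : ℝ) 1, θ < z → Tendsto (fun n => (g n).eval z) atTop (𝓝 1))

/-- Module STEPB. The two supermodular polynomials `∏ g_i(X_i)` (`N ≥ 1`) and `∏ (1 - g_i(X_i)) - 1`.
(`F.coeff 0 = eval 0 F`; `pderiv i` of the product is `g_i'(X_i) ∏_{k ≠ i}`.) -/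
def StepBStmt : Prop :=
  ∀ (N : ℕ) (g : Fin N → Polynomial ℝ), (∀ i, (g i).eval 0 = 0) →
    (∀ i, ∀ z ∈ Icc (0 : ℝ) 1, 0 ≤ (g i).eval z ∧ (g i).eval z ≤ 1 ∧
      0 ≤ (Polynomial.derivative (g i)).eval z) →
    (0 < N → SM (∏ i, Polynomial.aeval (MvPolynomial.X i : MvPolynomial (Fin N) ℝ) (g i))) ∧
    SM (∏ i, (1 - Polynomial.aeval (MvPolynomial.X i : MvPolynomial (Fin N) ℝ) (g i)) - 1)

/-- Module STEP. From polynomials to balls, all real radii (`r_i ≤ 0`: use `g_i = 0`; the left hand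
side of the first inequality is then `0`). `θ_i = exp(-r_i²)`; GAUSS gives
`∫ F(z(x)) dx = val d (DD p) F`; dominated convergence with
`∏ g_i ≤ g_0(z_0) ≤ (2/θ_0) z_0` and `0 ≤ 1 - ∏ (1 - g_i) ≤ ∑ g_i ≤ ∑ (2/θ_i) z_i`; spheres of
radius `r_i > 0` are null sets. -/
def StepStmt : Prop :=
  ∀ (d N : ℕ) (p q : Fin N → E d), 0 < d → KP p q → ∀ r : Fin N → ℝ,
    volume (⋂ i, Metric.closedBall (p i) (r i)) ≤
      volume (⋂ i, Metric.closedBall (q i) (r i)) ∧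
    volume (⋃ i, Metric.closedBall (q i) (r i)) ≤ volume (⋃ i, Metric.closedBall (p i) (r i))

/-- the final theorem -/
def FinalStmt : Prop :=
  ∀ (d N : ℕ) (p q : Fin N → E d) (a a' : E d) (c : ℝ), 3 ≤ d →
    (∀ i j, dist (q i) (q j) ≤ dist (p i) (p j)) →
    Module.finrank ℝ (Submodule.span ℝ {w : E d × E d | ∃ i j, w = (p i - p j, q i - q j)}) ≤
      d + 3 →
    (∀ i, ‖p i - a‖ ^ 2 - ‖q i - a'‖ ^ 2 = c) → ∀ r : Fin N → ℝ,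
    volume (⋂ i, Metric.closedBall (p i) (r i)) ≤
      volume (⋂ i, Metric.closedBall (q i) (r i)) ∧
    volume (⋃ i, Metric.closedBall (q i) (r i)) ≤ volume (⋃ i, Metric.closedBall (p i) (r i))

end Pool.Agent.Lib.MP_0c1c75_co.KG
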